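import Pool.Agent.Lib.MP_abcfcd_nt.S.OE

/-!
# Full submodules of the free module of rank seven over the ring of integers
-/

set_option autoImplicit false

open Matrix

namespace Pool.Agent.MPabcfcd

/-- A submodule of `OE ^ 7` which contains `N * OE ^ 7` with `N ≠ 0` is free of rank seven, since
`OE` is a principal ideal domain. -/
theorem exists_basis_matrix (M : Submodule OE (Fin 7 → OE)) (N : OE) (hN : N ≠ 0)
    (h : ∀ y : Fin 7 → OE, N • y ∈ M) :
    ∃ A : M7 OE, A.det ≠ 0 ∧ ∀ x, x ∈ M ↔ ∃ y, A *ᵥ y = x := by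
  obtain ⟨n, ⟨c⟩⟩ := Submodule.nonempty_basis_of_pid (Pi.basisFun OE (Fin 7)) M
  have hn : n = 7 := by
    have h1 : Module.finrank OE M = n := by
      rw [Module.finrank_eq_card_basis c, Fintype.card_fin]
    have h2 : Module.finrank OE (Fin 7 → OE) = 7 := by
      rw [Module.finrank_fintype_fun_eq_card, Fintype.card_fin]
    have h3 : Module.finrank OE M ≤ Module.finrank OE (Fin 7 → OE) :=
      LinearMap.finrank_le_finrank_of_injective (f := M.subtype) M.injective_subtype
    haveI : Module.Finite OE M := Module.Finite.of_basis c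
    have h4 : Module.finrank OE (Fin 7 → OE) ≤ Module.finrank OE M := by
      refine LinearMap.finrank_le_finrank_of_injective
        (f := (LinearMap.lsmul OE (Fin 7 → OE) N).codRestrict M h) ?_
      intro x y hxy
      have h5 : N • x = N • y := congrArg Subtype.val hxy
      exact smul_right_injective (Fin 7 → OE) hN h5
    omega
  subst hn
  have key : ∀ y, (Matrix.of fun i j => (c j : Fin 7 → OE) i) *ᵥ y =
      ((c.equivFun.symm y : M) : Fin 7 → OE) := by
    intro y
    funext i
    rw [Module.Basis.equivFun_symm_apply, Submodule.coe_sum, Finset.sum_apply]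
    simp only [Matrix.mulVec, dotProduct, Matrix.of_apply, Submodule.coe_smul, Pi.smul_apply,
      smul_eq_mul]
    exact Finset.sum_congr rfl fun j _ => mul_comm _ _
  refine ⟨Matrix.of fun i j => (c j : Fin 7 → OE) i, ?_, ?_⟩
  · intro h0
    obtain ⟨v, hv, hv0⟩ := Matrix.exists_mulVec_eq_zero_iff.2 h0
    rw [key] at hv0
    have h1 : c.equivFun.symm v = 0 := Subtype.ext hv0
    exact hv (c.equivFun.symm.map_eq_zero_iff.1 h1)
  · intro x
    constructor
    · intro hx
      refine ⟨c.equivFun ⟨x, hx⟩, ?_⟩
      rw [key, LinearEquiv.symm_apply_apply]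
    · rintro ⟨y, rfl⟩
      rw [key]
      exact Subtype.mem _

end Pool.Agent.MPabcfcd
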