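import Pool.Agent.Lib.MP_abcfcd_nt.S.Int
import Pool.Agent.Lib.MP_abcfcd_nt.S.Pid

/-!
# The class number of the lattices is one
-/

set_option autoImplicit false

open Matrix Topology

namespace Pool.Agent.MPabcfcd

/-- the embedding of the ring of integers at a prime -/
private noncomputable def Cls_t (p : Nat.Primes) : OE →+* E7 ℚ_[p] :=
  (E7.map (Rat.castHom ℚ_[p])).comp OE.toQ

private theorem Cls_t_mem (p : Nat.Primes) (x : OE) : Cls_t p x ∈ OZ p := toQ_mem_OZ x p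

private theorem Cls_inv (g : U7 AQ) (p : Nat.Primes) : (gp g p)⁻¹ = gp g⁻¹ p := by
  refine Matrix.inv_eq_right_inv ?_
  have h : U7.map (evp p) g * U7.map (evp p) g⁻¹ = 1 := by
    rw [← map_mul, mul_inv_cancel, map_one]
  have h2 := congrArg U7.mat h
  rw [U7.mat_mul, U7.mat_one] at h2
  exact h2

private theorem Cls_mul_inv (g : U7 AQ) (p : Nat.Primes) : gp g p * gp g⁻¹ p = 1 := by
  have h : U7.map (evp p) g * U7.map (evp p) g⁻¹ = 1 := by
    rw [← map_mul, mul_inv_cancel, map_one]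
  have h2 := congrArg U7.mat h
  rw [U7.mat_mul, U7.mat_one] at h2
  exact h2

private theorem Cls_nat (p : Nat.Primes) (N : ℕ) : (N : E7 ℚ_[p]) ∈ OZ p :=
  natCast_mem (OZ p) N

/-- the module of the integral vectors which become divisible by `N` -/
private noncomputable def Cls_M (g : U7 AQ) (N : ℕ) : Submodule OE (Fin 7 → OE) where
  carrier := {x | ∀ p i, ∃ z ∈ OZ p, ∑ j, gp g p i j * Cls_t p (x j) = N * z}
  zero_mem' := by
    intro p i
    refine ⟨0, (OZ p).zero_mem, ?_⟩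
    rw [mul_zero]
    refine Finset.sum_eq_zero fun j _ => ?_
    rw [Pi.zero_apply, map_zero, mul_zero]
  add_mem' := by
    intro x y hx hy p i
    obtain ⟨z, hz, hz2⟩ := hx p i
    obtain ⟨w, hw, hw2⟩ := hy p i
    refine ⟨z + w, (OZ p).add_mem hz hw, ?_⟩
    rw [mul_add, ← hz2, ← hw2, ← Finset.sum_add_distrib]
    refine Finset.sum_congr rfl fun j _ => ?_
    rw [Pi.add_apply, map_add, mul_add]
  smul_mem' := by
    intro c x hx p i
    obtain ⟨z, hz, hz2⟩ := hx p i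
    refine ⟨Cls_t p c * z, (OZ p).mul_mem (Cls_t_mem p c) hz, ?_⟩
    rw [mul_left_comm, ← hz2, Finset.mul_sum]
    refine Finset.sum_congr rfl fun j _ => ?_
    rw [Pi.smul_apply, smul_eq_mul, map_mul, mul_left_comm]

private theorem Cls_mem {g : U7 AQ} {N : ℕ} {x : Fin 7 → OE} : x ∈ Cls_M g N ↔
    ∀ p i, ∃ z ∈ OZ p, ∑ j, gp g p i j * Cls_t p (x j) = N * z := Iff.rfl

private theorem Cls_sq {g : U7 AQ} {N : ℕ}
    (hN : ∀ p i j, (N : E7 ℚ_[p]) * gp g p i j ∈ OZ p ∧ (N : E7 ℚ_[p]) * (gp g p)⁻¹ i j ∈ OZ p)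
    (y : Fin 7 → OE) : ((N : OE) ^ 2) • y ∈ Cls_M g N := by
  intro p i
  refine ⟨∑ j, ((N : E7 ℚ_[p]) * gp g p i j) * Cls_t p (y j),
    (OZ p).sum_mem fun j _ => (OZ p).mul_mem (hN p i j).1 (Cls_t_mem p _), ?_⟩
  rw [Finset.mul_sum]
  refine Finset.sum_congr rfl fun j _ => ?_
  rw [Pi.smul_apply, smul_eq_mul, map_mul, map_pow, map_natCast]
  ring

private theorem Cls_mp (p : Nat.Primes) (A : M7 (E7 ℚ)) (i j : Fin 7) :
    mp p A i j = E7.map (Rat.castHom ℚ_[p]) (A i j) := rfl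

private theorem Cls_mp_smul (p : Nat.Primes) (c : E7 ℚ) (B : M7 OE) (i j : Fin 7) :
    mp p (c • mQ B) i j = E7.map (Rat.castHom ℚ_[p]) c * Cls_t p (B i j) := by
  rw [Cls_mp, Matrix.smul_apply, smul_eq_mul, map_mul]
  rfl

private theorem Cls_mp_one (p : Nat.Primes) : mp p (1 : M7 (E7 ℚ)) = 1 := by
  unfold mp mapM
  rw [Matrix.map_one _ (map_zero _) (map_one _)]

/-- Every lattice over the ring of integers is free. With `N` from `exists_den` let `M` be the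
module of the `x : OE ^ 7` such that `g x / N` is integral at all primes. It contains
`N ^ 2 * OE ^ 7`; let `A'` be the matrix of `exists_basis_matrix` and `A = A' / N`. Then `g A` is
integral. Let `x` be a column of `g⁻¹`, choose a natural number `N'` such that `N' g` and `N' A⁻¹`
are integral and a rational vector `y` with `x - y ∈ N' O ^ 7` by `exists_approx`. Then `g y` is
integral, so `N y ∈ M` (its coordinates are in `OE` by `exists_den` and `exists_toQ_eq`) and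
`A⁻¹ y` is integral, hence `A⁻¹ x = A⁻¹ y + A⁻¹ (x - y)` is integral at all primes. -/
theorem class_one (g : U7 AQ) : ∃ A : M7 (E7 ℚ), IsUnit A.det ∧
    (∀ p i j, (gp g p * mp p A) i j ∈ OZ p) ∧
    (∀ p i j, (gp g p * mp p A)⁻¹ i j ∈ OZ p) := by
  classical
  obtain ⟨N, hN0, hN⟩ := exists_den g
  have hNQ : (N : ℚ) ≠ 0 := by exact_mod_cast hN0.ne'
  have hNE : ((N : OE) ^ 2) ≠ 0 := by
    refine pow_ne_zero 2 fun h => ?_
    have h2 := congrArg OE.toC h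
    rw [map_natCast, map_zero] at h2
    exact hN0.ne' (by exact_mod_cast h2)
  obtain ⟨A', -, hM⟩ := exists_basis_matrix (Cls_M g N) ((N : OE) ^ 2) hNE (Cls_sq hN)
  choose y hy using fun j : Fin 7 => (hM _).1 (Cls_sq hN (Pi.single j 1))
  -- the inverse matrix up to the factor `N ^ 2`
  set Y : M7 OE := Matrix.of fun i j => y j i with hY
  have hAY : A' * Y = ((N : OE) ^ 2) • (1 : M7 OE) := by
    refine Matrix.ext fun i j => ?_
    have h1 := congrFun (hy j) i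
    rw [Matrix.smul_apply, Matrix.one_apply, Matrix.mul_apply]
    rw [Pi.smul_apply, Pi.single_apply] at h1
    exact h1
  set c : E7 ℚ := algebraMap ℚ (E7 ℚ) (N : ℚ)⁻¹ with hc
  have hcN : c * (N : E7 ℚ) = 1 := by
    rw [hc, ← map_natCast (algebraMap ℚ (E7 ℚ)), ← map_mul, inv_mul_cancel₀ hNQ, map_one]
  have hcp : ∀ p : Nat.Primes, E7.map (Rat.castHom ℚ_[p]) c * (N : E7 ℚ_[p]) = 1 := by
    intro p
    rw [← map_natCast (E7.map (Rat.castHom ℚ_[p])), ← map_mul, hcN, map_one]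
  have hAB : (c • mQ A') * (c • mQ Y) = 1 := by
    rw [Matrix.smul_mul, Matrix.mul_smul, ← mQ_mul, hAY]
    have h1 : mQ (((N : OE) ^ 2) • (1 : M7 OE)) = ((N : E7 ℚ) ^ 2) • (1 : M7 (E7 ℚ)) := by
      refine Matrix.ext fun i j => ?_
      unfold mQ
      rw [Matrix.map_apply, Matrix.smul_apply, Matrix.smul_apply, smul_eq_mul, smul_eq_mul,
        map_mul, map_pow, map_natCast, Matrix.one_apply, Matrix.one_apply]
      split_ifs
      · rw [map_one]
      · rw [map_zero]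
    rw [h1, smul_smul, smul_smul]
    have h2 : c * c * (N : E7 ℚ) ^ 2 = 1 := by
      calc c * c * (N : E7 ℚ) ^ 2 = (c * (N : E7 ℚ)) * (c * (N : E7 ℚ)) := by ring
        _ = 1 := by rw [hcN, one_mul]
    rw [h2, one_smul]
  have hBA : (c • mQ Y) * (c • mQ A') = 1 := mul_eq_one_comm.1 hAB
  refine ⟨c • mQ A', ?_, ?_, ?_⟩
  · exact (Matrix.isUnit_iff_isUnit_det _).1 ⟨⟨_, _, hAB, hBA⟩, rfl⟩
  · intro p i j
    have h1 : (fun k => A' k j) ∈ Cls_M g N := by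
      refine (hM _).2 ⟨Pi.single j 1, ?_⟩
      rw [Matrix.mulVec_single_one]
      rfl
    obtain ⟨z, hz, hz2⟩ := h1 p i
    have h2 : (gp g p * mp p (c • mQ A')) i j = z := by
      rw [Matrix.mul_apply]
      have h3 : ∑ k, gp g p i k * mp p (c • mQ A') k j =
          E7.map (Rat.castHom ℚ_[p]) c * ∑ k, gp g p i k * Cls_t p (A' k j) := by
        rw [Finset.mul_sum]
        refine Finset.sum_congr rfl fun k _ => ?_
        rw [Cls_mp_smul]
        ring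
      rw [h3, hz2, ← mul_assoc, hcp, one_mul]
    rw [h2]
    exact hz
  · intro p i j
    -- the approximation of the column
    obtain ⟨v, hv⟩ := exists_approx (fun k => (g⁻¹).mat k j) N hN0
    have hv' : ∀ q : Nat.Primes, ∀ k, ∃ z ∈ OZ q, gp g⁻¹ q k j -
        E7.map (Rat.castHom ℚ_[q]) (v k) = N * z := hv
    -- `N v` is integral
    have hint : ∀ k, ∃ x : OE, OE.toQ x = (N : E7 ℚ) * v k := by
      intro k
      refine exists_toQ_eq _ fun q => ?_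
      obtain ⟨z, hz, hz2⟩ := hv' q k
      have h1 := (hN q k j).2
      rw [Cls_inv] at h1
      have h2 : E7.map (Rat.castHom ℚ_[q]) ((N : E7 ℚ) * v k) =
          (N : E7 ℚ_[q]) * gp g⁻¹ q k j - N * (N * z) := by
        rw [map_mul, map_natCast, ← hz2]
        ring
      rw [h2]
      exact (OZ q).sub_mem h1 ((OZ q).mul_mem (Cls_nat q N) ((OZ q).mul_mem (Cls_nat q N) hz))
    choose x hx using hint
    have hxM : x ∈ Cls_M g N := by
      intro q i'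
      choose z hz hz2 using hv' q
      refine ⟨(if i' = j then 1 else 0) - ∑ k, ((N : E7 ℚ_[q]) * gp g q i' k) * z k,
        (OZ q).sub_mem ?_ ((OZ q).sum_mem fun k _ => (OZ q).mul_mem (hN q i' k).1 (hz k)), ?_⟩
      · split_ifs
        · exact (OZ q).one_mem
        · exact (OZ q).zero_mem
      · have h1 : ∑ k, gp g q i' k * gp g⁻¹ q k j = if i' = j then 1 else 0 := by
          rw [← Matrix.mul_apply, Cls_mul_inv, Matrix.one_apply]
        rw [← h1, mul_sub, Finset.mul_sum, Finset.mul_sum, ← Finset.sum_sub_distrib]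
        refine Finset.sum_congr rfl fun k _ => ?_
        have h2 : Cls_t q (x k) = (N : E7 ℚ_[q]) * E7.map (Rat.castHom ℚ_[q]) (v k) := by
          have h3 : Cls_t q (x k) = E7.map (Rat.castHom ℚ_[q]) (OE.toQ (x k)) := rfl
          rw [h3, hx, map_mul, map_natCast]
        rw [h2]
        linear_combination (-(N : E7 ℚ_[q]) * gp g q i' k) * hz2 k
    obtain ⟨w, hw⟩ := (hM _).1 hxM
    -- `v = A w`
    have hvw : v = (c • mQ A') *ᵥ (fun k => OE.toQ (w k)) := by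
      funext k
      have h1 : v k = c * OE.toQ (x k) := by
        rw [hx, ← mul_assoc, hcN, one_mul]
      rw [h1, ← hw, Matrix.smul_mulVec, Pi.smul_apply, smul_eq_mul]
      congr 1
      rw [Matrix.mulVec, Matrix.mulVec, dotProduct, dotProduct, map_sum]
      refine Finset.sum_congr rfl fun l _ => ?_
      rw [map_mul]
      rfl
    have hBv : (c • mQ Y) *ᵥ v = fun k => OE.toQ (w k) := by
      rw [hvw, Matrix.mulVec_mulVec, hBA, Matrix.one_mulVec]
    have hBvp : ∑ k, mp p (c • mQ Y) i k * E7.map (Rat.castHom ℚ_[p]) (v k) =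
        Cls_t p (w i) := by
      have h1 := congrArg (E7.map (Rat.castHom ℚ_[p])) (congrFun hBv i)
      rw [Matrix.mulVec, dotProduct, map_sum] at h1
      have h2 : Cls_t p (w i) = E7.map (Rat.castHom ℚ_[p]) (OE.toQ (w i)) := rfl
      rw [h2, ← h1]
      refine Finset.sum_congr rfl fun k _ => ?_
      rw [map_mul]
      rfl
    have hinv : (gp g p * mp p (c • mQ A'))⁻¹ = mp p (c • mQ Y) * gp g⁻¹ p := by
      refine Matrix.inv_eq_right_inv ?_
      calc gp g p * mp p (c • mQ A') * (mp p (c • mQ Y) * gp g⁻¹ p)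
          = gp g p * (mp p (c • mQ A') * mp p (c • mQ Y)) * gp g⁻¹ p := by
            simp only [Matrix.mul_assoc]
        _ = 1 := by
            rw [← mp_mul, hAB, Cls_mp_one, Matrix.mul_one, Cls_mul_inv]
    rw [hinv, Matrix.mul_apply]
    choose z hz hz2 using hv' p
    have hfin : ∑ k, mp p (c • mQ Y) i k * gp g⁻¹ p k j =
        Cls_t p (w i) + ∑ k, Cls_t p (Y i k) * z k := by
      rw [← hBvp, ← Finset.sum_add_distrib]
      refine Finset.sum_congr rfl fun k _ => ?_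
      have h1 : mp p (c • mQ Y) i k * (N : E7 ℚ_[p]) = Cls_t p (Y i k) := by
        rw [Cls_mp_smul]
        calc E7.map (Rat.castHom ℚ_[p]) c * Cls_t p (Y i k) * (N : E7 ℚ_[p])
            = (E7.map (Rat.castHom ℚ_[p]) c * (N : E7 ℚ_[p])) * Cls_t p (Y i k) := by ring
          _ = Cls_t p (Y i k) := by rw [hcp, one_mul]
      rw [← h1]
      linear_combination mp p (c • mQ Y) i k * hz2 k
    rw [hfin]
    exact (OZ p).add_mem (Cls_t_mem p _)
      ((OZ p).sum_mem fun k _ => (OZ p).mul_mem (Cls_t_mem p _) (hz k))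

/-- the components of the antidiagonal matrix -/
private theorem Cls_J (p : Nat.Primes) (i j : Fin 7) : J7 (E7 ℚ_[p]) i j ∈ OZ p := by
  unfold J7
  rw [Matrix.of_apply]
  split_ifs
  · exact (OZ p).one_mem
  · exact (OZ p).zero_mem

private theorem Cls_mul_mem {p : Nat.Primes} {A B : M7 (E7 ℚ_[p])} (hA : ∀ i j, A i j ∈ OZ p)
    (hB : ∀ i j, B i j ∈ OZ p) (i j : Fin 7) : (A * B) i j ∈ OZ p := by
  rw [Matrix.mul_apply]
  exact (OZ p).sum_mem fun k _ => (OZ p).mul_mem (hA i k) (hB k j)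

private theorem Cls_star_mem {p : Nat.Primes} {A : M7 (E7 ℚ_[p])} (hA : ∀ i j, A i j ∈ OZ p)
    (i j : Fin 7) : Aᴴ i j ∈ OZ p := by
  rw [Matrix.conjTranspose_apply]
  exact star_mem_OZ (hA j i)

private theorem Cls_lift {C : M7 (E7 ℚ)} (h : ∀ p i j, mp p C i j ∈ OZ p) :
    ∃ H : M7 OE, C = mQ H := by
  have h1 : ∀ i j, ∃ y : OE, OE.toQ y = C i j := fun i j => exists_toQ_eq _ fun p => h p i j
  choose H hH using h1
  exact ⟨Matrix.of H, Matrix.ext fun i j => (hH i j).symm⟩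

private theorem Cls_gram (g : U7 AQ) (A : M7 (E7 ℚ)) (p : Nat.Primes) :
    mp p (Aᴴ * J7 (E7 ℚ) * A) =
      (gp g p * mp p A)ᴴ * J7 (E7 ℚ_[p]) * (gp g p * mp p A) := by
  have h1 : mp p Aᴴ = (mp p A)ᴴ := mapM_star _ _
  have h2 : mp p (J7 (E7 ℚ)) = J7 (E7 ℚ_[p]) := mapM_J _
  rw [mp_mul, mp_mul, h1, h2, Matrix.conjTranspose_mul]
  calc (mp p A)ᴴ * J7 (E7 ℚ_[p]) * mp p A
      = (mp p A)ᴴ * ((gp g p)ᴴ * J7 (E7 ℚ_[p]) * gp g p) * mp p A := by rw [gp_unitary]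
    _ = (mp p A)ᴴ * (gp g p)ᴴ * J7 (E7 ℚ_[p]) * (gp g p * mp p A) := by
      simp only [Matrix.mul_assoc]

/-- The Gram matrix is integral and unimodular: `A* J A = (g A)* J (g A)` and the inverse is
`(g A)⁻¹ J (g A)⁻*`; use `exists_toQ_eq`. -/
theorem gram_integral (g : U7 AQ) (A : M7 (E7 ℚ)) (hA : IsUnit A.det)
    (h1 : ∀ p i j, (gp g p * mp p A) i j ∈ OZ p)
    (h2 : ∀ p i j, (gp g p * mp p A)⁻¹ i j ∈ OZ p) :
    ∃ H : M7 OE, IsUnit H.det ∧ Aᴴ * J7 (E7 ℚ) * A = mQ H := by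
  have hC : ∀ p i j, mp p (Aᴴ * J7 (E7 ℚ) * A) i j ∈ OZ p := by
    intro p i j
    rw [Cls_gram g A p]
    exact Cls_mul_mem (Cls_mul_mem (Cls_star_mem (h1 p)) (Cls_J p)) (h1 p) i j
  obtain ⟨H, hH⟩ := Cls_lift hC
  -- the inverse
  set D : M7 (E7 ℚ) := A⁻¹ * J7 (E7 ℚ) * (A⁻¹)ᴴ with hD
  have hAA : A * A⁻¹ = 1 := Matrix.mul_nonsing_inv A hA
  have hAs : (A⁻¹)ᴴ * Aᴴ = 1 := by
    rw [← Matrix.conjTranspose_mul, hAA, Matrix.conjTranspose_one]
  have hDC : D * (Aᴴ * J7 (E7 ℚ) * A) = 1 := by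
    have hA2 : A⁻¹ * A = 1 := Matrix.nonsing_inv_mul A hA
    calc D * (Aᴴ * J7 (E7 ℚ) * A)
        = A⁻¹ * J7 (E7 ℚ) * ((A⁻¹)ᴴ * Aᴴ) * J7 (E7 ℚ) * A := by
          rw [hD]
          simp only [Matrix.mul_assoc]
      _ = A⁻¹ * (J7 (E7 ℚ) * J7 (E7 ℚ)) * A := by
          rw [hAs, Matrix.mul_one]
          simp only [Matrix.mul_assoc]
      _ = 1 := by rw [J7_sq, Matrix.mul_one, hA2]
  have hDint : ∀ p i j, mp p D i j ∈ OZ p := by
    intro p i j
    have hmp1 : mp p A * mp p A⁻¹ = 1 := by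
      rw [← mp_mul, hAA, Cls_mp_one]
    have hgA : (gp g p * mp p A)⁻¹ = mp p A⁻¹ * gp g⁻¹ p := by
      refine Matrix.inv_eq_right_inv ?_
      calc gp g p * mp p A * (mp p A⁻¹ * gp g⁻¹ p)
          = gp g p * (mp p A * mp p A⁻¹) * gp g⁻¹ p := by simp only [Matrix.mul_assoc]
        _ = 1 := by rw [hmp1, Matrix.mul_one, Cls_mul_inv]
    have hgJ : gp g⁻¹ p * J7 (E7 ℚ_[p]) * (gp g⁻¹ p)ᴴ = J7 (E7 ℚ_[p]) := by
      have h3 := gp_unitary g p
      have h4 := Cls_mul_inv g p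
      have h5 : gp g⁻¹ p * gp g p = 1 := mul_eq_one_comm.1 h4
      have h6 : J7 (E7 ℚ_[p]) * gp g⁻¹ p = (gp g p)ᴴ * J7 (E7 ℚ_[p]) := by
        calc J7 (E7 ℚ_[p]) * gp g⁻¹ p
            = (gp g p)ᴴ * J7 (E7 ℚ_[p]) * gp g p * gp g⁻¹ p := by rw [h3]
          _ = (gp g p)ᴴ * J7 (E7 ℚ_[p]) := by
            rw [Matrix.mul_assoc, h4, Matrix.mul_one]
      have h7 : gp g⁻¹ p = J7 (E7 ℚ_[p]) * (gp g p)ᴴ * J7 (E7 ℚ_[p]) := by
        calc gp g⁻¹ p = J7 (E7 ℚ_[p]) * J7 (E7 ℚ_[p]) * gp g⁻¹ p := by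
              rw [J7_sq, Matrix.one_mul]
          _ = J7 (E7 ℚ_[p]) * (gp g p)ᴴ * J7 (E7 ℚ_[p]) := by
              rw [Matrix.mul_assoc, h6, Matrix.mul_assoc]
      have h8 : (gp g p)ᴴ * (gp g⁻¹ p)ᴴ = 1 := by
        rw [← Matrix.conjTranspose_mul, h5, Matrix.conjTranspose_one]
      calc gp g⁻¹ p * J7 (E7 ℚ_[p]) * (gp g⁻¹ p)ᴴ
          = J7 (E7 ℚ_[p]) * (gp g p)ᴴ * (J7 (E7 ℚ_[p]) * J7 (E7 ℚ_[p])) * (gp g⁻¹ p)ᴴ := by
            rw [h7]
            simp only [Matrix.mul_assoc]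
        _ = J7 (E7 ℚ_[p]) * ((gp g p)ᴴ * (gp g⁻¹ p)ᴴ) := by
            rw [J7_sq, Matrix.mul_one, Matrix.mul_assoc]
        _ = J7 (E7 ℚ_[p]) := by rw [h8, Matrix.mul_one]
    have hD2 : mp p D = (gp g p * mp p A)⁻¹ * J7 (E7 ℚ_[p]) * ((gp g p * mp p A)⁻¹)ᴴ := by
      have h3 : mp p (A⁻¹)ᴴ = (mp p A⁻¹)ᴴ := mapM_star _ _
      have h4 : mp p (J7 (E7 ℚ)) = J7 (E7 ℚ_[p]) := mapM_J _
      rw [hD, mp_mul, mp_mul, h3, h4, hgA, Matrix.conjTranspose_mul]
      calc mp p A⁻¹ * J7 (E7 ℚ_[p]) * (mp p A⁻¹)ᴴ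
          = mp p A⁻¹ * (gp g⁻¹ p * J7 (E7 ℚ_[p]) * (gp g⁻¹ p)ᴴ) * (mp p A⁻¹)ᴴ := by rw [hgJ]
        _ = mp p A⁻¹ * gp g⁻¹ p * J7 (E7 ℚ_[p]) * ((gp g⁻¹ p)ᴴ * (mp p A⁻¹)ᴴ) := by
          simp only [Matrix.mul_assoc]
    rw [hD2]
    exact Cls_mul_mem (Cls_mul_mem (h2 p) (Cls_J p)) (Cls_star_mem (h2 p)) i j
  obtain ⟨K, hK⟩ := Cls_lift hDint
  refine ⟨H, ?_, hH⟩
  have h3 : mQ (K * H) = mQ 1 := by
    rw [mQ_mul, ← hK, ← hH, hDC]
    refine Matrix.ext fun i j => ?_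
    unfold mQ
    rw [Matrix.map_apply, Matrix.one_apply, Matrix.one_apply]
    split_ifs
    · rw [map_one]
    · rw [map_zero]
  have h4 : K * H = 1 := by
    refine Matrix.ext fun i j => OE.toQ_injective ?_
    exact congrFun (congrFun h3 i) j
  have h5 : H * K = 1 := mul_eq_one_comm.1 h4
  exact (Matrix.isUnit_iff_isUnit_det _).1 ⟨⟨_, _, h5, h4⟩, rfl⟩

end Pool.Agent.MPabcfcd
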