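import Pool.Agent.Lib.MP_abcfcd_nt.S.Herm3

/-!
# Lengths of columns
-/

set_option autoImplicit false

open Matrix Topology
open scoped ComplexOrder

namespace Pool.Agent.MPabcfcd

/-- The length of a column. -/
noncomputable def cn (M : M7 ℂ) (j : Fin 7) : ℝ := Real.sqrt (∑ i, ‖M i j‖ ^ 2)

theorem cn_nonneg (M : M7 ℂ) (j : Fin 7) : 0 ≤ cn M j := Real.sqrt_nonneg _

theorem cn_sq (M : M7 ℂ) (j : Fin 7) : cn M j ^ 2 = ((Mᴴ * M) j j).re := by
  rw [cn, Real.sq_sqrt (Finset.sum_nonneg fun i _ => sq_nonneg _), Matrix.mul_apply,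
    Complex.re_sum]
  refine Finset.sum_congr rfl fun i _ => ?_
  rw [Matrix.conjTranspose_apply, Complex.star_def, Complex.conj_mul', ← Complex.ofReal_pow,
    Complex.ofReal_re]

theorem norm_le_cn (M : M7 ℂ) (i j : Fin 7) : ‖M i j‖ ≤ cn M j := by
  refine Real.le_sqrt_of_sq_le ?_
  exact Finset.single_le_sum (f := fun i => ‖M i j‖ ^ 2) (fun i _ => sq_nonneg _)
    (Finset.mem_univ i)

theorem cn_pos {M : M7 ℂ} (hM : ‖M.det‖ = 1) (j : Fin 7) : 0 < cn M j := by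
  refine lt_of_le_of_ne (cn_nonneg M j) fun h => ?_
  have h1 : ∀ i, M i j = 0 := fun i => norm_le_zero_iff.1 (h ▸ norm_le_cn M i j)
  rw [Matrix.det_eq_zero_of_column_eq_zero j h1, norm_zero] at hM
  exact zero_ne_one hM

private theorem adj_eq (M : M7 ℂ) (j i : Fin 7) :
    M.adjugate j i = (M.updateCol j (Pi.single i 1)).det := by
  have h1 : M.adjugate j i = (Mᵀ).adjugate i j := by
    rw [← Matrix.adjugate_transpose]
    rfl
  rw [h1, Matrix.adjugate_apply, Matrix.updateRow_transpose, Matrix.det_transpose]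

private theorem det_bound (B : M7 ℂ) (c : Fin 7 → ℝ) (h : ∀ i k, ‖B i k‖ ≤ c k) :
    ‖B.det‖ ≤ 5040 * ∏ k, c k := by
  rw [Matrix.det_apply]
  refine (norm_sum_le _ _).trans ?_
  have h1 : ∀ σ ∈ (Finset.univ : Finset (Equiv.Perm (Fin 7))),
      ‖Equiv.Perm.sign σ • ∏ k, B (σ k) k‖ ≤ ∏ k, c k := by
    intro σ _
    have h2 : ‖Equiv.Perm.sign σ • ∏ k, B (σ k) k‖ = ∏ k, ‖B (σ k) k‖ := by
      rcases Int.units_eq_one_or (Equiv.Perm.sign σ) with h3 | h3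
      · rw [h3, one_smul, norm_prod]
      · rw [h3, Units.neg_smul, one_smul, norm_neg, norm_prod]
    rw [h2]
    exact Finset.prod_le_prod (fun k _ => norm_nonneg _) fun k _ => h _ k
  refine (Finset.sum_le_card_nsmul _ _ _ h1).trans (le_of_eq ?_)
  have h4 : (Finset.univ : Finset (Equiv.Perm (Fin 7))).card = 5040 := by
    rw [Finset.card_univ, Fintype.card_perm, Fintype.card_fin]
    rfl
  rw [h4, nsmul_eq_mul]
  norm_num

/-- Cramer's rule and the Leibniz formula: `‖M⁻¹ j i‖ = ‖det (M with column j replaced by e_i)‖ ≤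
7! ∏_{k ≠ j} cn M k`. -/
theorem inv_entry_le {M : M7 ℂ} (hM : ‖M.det‖ = 1) (j i : Fin 7) :
    ‖M⁻¹ j i‖ * cn M j ≤ 5040 * ∏ k, cn M k := by
  have h1 : ‖M⁻¹ j i‖ = ‖(M.updateCol j (Pi.single i 1)).det‖ := by
    rw [Matrix.inv_def, Matrix.smul_apply, smul_eq_mul, norm_mul, Ring.inverse_eq_inv',
      norm_inv, hM, inv_one, one_mul, adj_eq]
  have h2 := det_bound (M.updateCol j (Pi.single i 1)) (Function.update (cn M) j 1) (by
    intro r k
    rw [Matrix.updateCol_apply]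
    by_cases hk : k = j
    · subst hk
      rw [if_pos rfl, Function.update_self]
      by_cases hr : r = i
      · subst hr
        rw [Pi.single_eq_same, norm_one]
      · rw [Pi.single_eq_of_ne hr, norm_zero]
        exact zero_le_one
    · rw [if_neg hk, Function.update_of_ne hk]
      exact norm_le_cn M r k)
  have h3 : (∏ k, Function.update (cn M) j 1 k) * cn M j = ∏ k, cn M k := by
    rw [Finset.prod_update_of_mem (Finset.mem_univ j), one_mul, mul_comm,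
      ← Finset.mul_prod_erase Finset.univ (cn M) (Finset.mem_univ j),
      Finset.sdiff_singleton_eq_erase]
  calc ‖M⁻¹ j i‖ * cn M j ≤ (5040 * ∏ k, Function.update (cn M) j 1 k) * cn M j :=
        mul_le_mul_of_nonneg_right (h1 ▸ h2) (cn_nonneg M j)
    _ = 5040 * ∏ k, cn M k := by rw [mul_assoc, h3]

private theorem J7_mul_apply (A : M7 ℂ) (i k : Fin 7) : (J7 ℂ * A) i k = A i.rev k := by
  rw [Matrix.mul_apply]
  have h1 : ∀ l, J7 ℂ i l * A l k = if l = i.rev then A l k else 0 := by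
    intro l
    rw [J7, Matrix.of_apply]
    split_ifs
    · rw [one_mul]
    · rw [zero_mul]
  simp only [h1]
  rw [Finset.sum_ite_eq' Finset.univ i.rev, if_pos (Finset.mem_univ _)]

private theorem sum_rev (f : Fin 7 → ℝ) : ∑ i : Fin 7, f i.rev = ∑ i, f i :=
  Equiv.sum_comp Fin.revPerm f

/-- The form is bounded by the product of the lengths (Cauchy-Schwarz). -/
theorem form_le (M : M7 ℂ) (j k : Fin 7) : ‖(Mᴴ * J7 ℂ * M) j k‖ ≤ cn M j * cn M k := by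
  rw [Matrix.mul_assoc, Matrix.mul_apply]
  refine (norm_sum_le _ _).trans ?_
  have h1 : ∀ i, ‖Mᴴ j i * (J7 ℂ * M) i k‖ = ‖M i j‖ * ‖M i.rev k‖ := by
    intro i
    rw [norm_mul, J7_mul_apply, Matrix.conjTranspose_apply, norm_star]
  simp only [h1]
  refine (Real.sum_mul_le_sqrt_mul_sqrt _ _ _).trans (le_of_eq ?_)
  rw [sum_rev fun i => ‖M i k‖ ^ 2]
  rfl

/-- `K = (M* J M)⁻¹ = M⁻¹ J M⁻*`, so `‖K j k‖ ≤ 7 ‖M⁻¹ row j‖ ‖M⁻¹ row k‖`. -/
theorem inv_form_le {M : M7 ℂ} (hM : ‖M.det‖ = 1) (j k : Fin 7) :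
    ‖((Mᴴ * J7 ℂ * M)⁻¹) j k‖ * (cn M j * cn M k) ≤ 7 * (5040 * ∏ k, cn M k) ^ 2 := by
  have hJ : (J7 ℂ)⁻¹ = J7 ℂ := Matrix.inv_eq_right_inv J7_sq
  have h0 : (Mᴴ * J7 ℂ * M)⁻¹ = M⁻¹ * (J7 ℂ * (M⁻¹)ᴴ) := by
    rw [Matrix.mul_inv_rev, Matrix.mul_inv_rev, hJ, Matrix.conjTranspose_nonsing_inv]
  have h1 : ∀ i, ‖M⁻¹ j i * (J7 ℂ * (M⁻¹)ᴴ) i k‖ = ‖M⁻¹ j i‖ * ‖M⁻¹ k i.rev‖ := by
    intro i
    rw [norm_mul, J7_mul_apply, Matrix.conjTranspose_apply, norm_star]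
  have h2 : ‖((Mᴴ * J7 ℂ * M)⁻¹) j k‖ ≤ ∑ i, ‖M⁻¹ j i‖ * ‖M⁻¹ k i.rev‖ := by
    rw [h0, Matrix.mul_apply]
    refine (norm_sum_le _ _).trans (le_of_eq ?_)
    simp only [h1]
  have h3 : ∀ i, (‖M⁻¹ j i‖ * ‖M⁻¹ k i.rev‖) * (cn M j * cn M k) ≤
      (5040 * ∏ k, cn M k) ^ 2 := by
    intro i
    have h4 := mul_le_mul (inv_entry_le hM j i) (inv_entry_le hM k i.rev)
      (mul_nonneg (norm_nonneg _) (cn_nonneg M k))
      (mul_nonneg (by norm_num) (Finset.prod_nonneg fun l _ => cn_nonneg M l))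
    calc (‖M⁻¹ j i‖ * ‖M⁻¹ k i.rev‖) * (cn M j * cn M k)
        = (‖M⁻¹ j i‖ * cn M j) * (‖M⁻¹ k i.rev‖ * cn M k) := by ring
      _ ≤ (5040 * ∏ k, cn M k) * (5040 * ∏ k, cn M k) := h4
      _ = (5040 * ∏ k, cn M k) ^ 2 := by ring
  calc ‖((Mᴴ * J7 ℂ * M)⁻¹) j k‖ * (cn M j * cn M k)
      ≤ (∑ i, ‖M⁻¹ j i‖ * ‖M⁻¹ k i.rev‖) * (cn M j * cn M k) :=
        mul_le_mul_of_nonneg_right h2 (mul_nonneg (cn_nonneg M j) (cn_nonneg M k))
    _ = ∑ i, (‖M⁻¹ j i‖ * ‖M⁻¹ k i.rev‖) * (cn M j * cn M k) := Finset.sum_mul _ _ _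
    _ ≤ ∑ _i : Fin 7, (5040 * ∏ k, cn M k) ^ 2 := Finset.sum_le_sum fun i _ => h3 i
    _ = 7 * (5040 * ∏ k, cn M k) ^ 2 := by
        rw [Finset.sum_const, Finset.card_univ, Fintype.card_fin, nsmul_eq_mul]
        norm_num

private theorem card_aux : ∀ a b : ℕ, a < b → b ≤ 7 →
    (Finset.univ.filter fun i : Fin 7 => i.val < a).card <
      (Finset.univ.filter fun i : Fin 7 => 7 - b ≤ i.val).card := by
  intro a b h1 h2
  interval_cases b <;> interval_cases a <;> decide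

/-- A matrix with a block of zeros of size `(7 - a) × b`, `7 - a + b > 7`, is singular. -/
theorem det_eq_zero_of_block {R : Type} [CommRing R] (K : M7 R) (a b : ℕ) (hab : a < b)
    (hb : b ≤ 7) (h : ∀ j k : Fin 7, a ≤ j.val → 7 - b ≤ k.val → K j k = 0) : K.det = 0 := by
  rw [Matrix.det_apply]
  refine Finset.sum_eq_zero fun σ _ => ?_
  have h1 : ∃ k : Fin 7, 7 - b ≤ k.val ∧ a ≤ (σ k).val := by
    by_contra hn
    have h2 : ∀ k : Fin 7, 7 - b ≤ k.val → (σ k).val < a := by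
      intro k hk
      by_contra hk'
      exact hn ⟨k, hk, not_lt.1 hk'⟩
    have h3 : (Finset.univ.filter fun i : Fin 7 => 7 - b ≤ i.val).card ≤
        (Finset.univ.filter fun i : Fin 7 => i.val < a).card := by
      refine Finset.card_le_card_of_injOn σ ?_ σ.injective.injOn
      intro k hk
      have hk' : k ∈ Finset.univ.filter fun i : Fin 7 => 7 - b ≤ i.val := hk
      have h4 := (Finset.mem_filter.1 hk').2
      have h5 : σ k ∈ Finset.univ.filter fun i : Fin 7 => i.val < a :=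
        Finset.mem_filter.2 ⟨Finset.mem_univ _, h2 k h4⟩
      exact h5
    exact absurd (card_aux a b hab hb) (not_lt.2 h3)
  obtain ⟨k, hk1, hk2⟩ := h1
  have h6 : ∏ i, K (σ i) i = 0 :=
    Finset.prod_eq_zero (f := fun i => K (σ i) i) (Finset.mem_univ k) (h (σ k) k hk2 hk1)
  rw [h6, smul_zero]

end Pool.Agent.MPabcfcd
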