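import Pool.Agent.Lib.MP_abcfcd_nt.S.Int
import Pool.Agent.Lib.MP_abcfcd_nt.S.Adj
import Pool.Agent.Lib.MP_abcfcd_nt.Q.Grp

/-!
# Compactness
-/

set_option autoImplicit false

open Matrix Topology

namespace Pool.Agent.MPabcfcd

/-- The adelic matrices which are bounded at infinity and integral at all primes. -/
def Box (B : ℝ) : Set (M7 (E7 AQ)) :=
  {x | ∀ i j, |(x i j).re.1| ≤ B ∧ |(x i j).im.1| ≤ B ∧ ∀ p, E7.map (evp p) (x i j) ∈ OZ p}

/-- the adeles `a` with `2 * a` integral and bounded at infinity -/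
private def cptK (B : ℝ) : Set AQ := {a | |a.1| ≤ B ∧ ∀ p : Nat.Primes, ‖2 * a.2 p‖ ≤ 1}

private theorem cptK_compact (B : ℝ) : IsCompact (cptK B) := by
  have h1 : IsCompact (Set.Icc (-(2 * B)) (2 * B) ×ˢ {x : Af | ∀ p : Nat.Primes, ‖x p‖ ≤ 1}) :=
    isCompact_Icc.prod isCompact_int
  have h2 : Continuous fun b : AQ => ratAQ (1 / 2) * b := continuous_const.mul continuous_id
  have h3 : cptK B ⊆ (fun b : AQ => ratAQ (1 / 2) * b) ''
      (Set.Icc (-(2 * B)) (2 * B) ×ˢ {x : Af | ∀ p : Nat.Primes, ‖x p‖ ≤ 1}) := by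
    intro a ha
    refine ⟨2 * a, ⟨?_, ?_⟩, ?_⟩
    · have h4 : (2 * a).1 = 2 * a.1 := rfl
      rw [h4, Set.mem_Icc]
      have h5 := abs_le.1 ha.1
      constructor <;> linarith
    · intro p
      exact ha.2 p
    · show ratAQ (1 / 2) * (2 * a) = a
      rw [← mul_assoc]
      have h4 : ratAQ (1 / 2) * 2 = 1 := by
        have h5 : (2 : AQ) = ratAQ 2 := (map_ofNat ratAQ 2).symm
        rw [h5, ← map_mul]
        norm_num
      rw [h4, one_mul]
  have h4 : IsClosed (cptK B) := by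
    have h5 : cptK B = {a : AQ | |a.1| ≤ B} ∩ ⋂ p : Nat.Primes, {a : AQ | ‖2 * evp p a‖ ≤ 1} := by
      ext a
      simp only [cptK, Set.mem_inter_iff, Set.mem_iInter]
      rfl
    rw [h5]
    refine (isClosed_le continuous_fst.abs continuous_const).inter (isClosed_iInter fun p => ?_)
    exact isClosed_le ((continuous_const.mul (continuous_evp p)).norm) continuous_const
  exact (h1.image h2).of_isClosed_subset h4 h3

private theorem cptE_compact (B : ℝ) :
    IsCompact {z : E7 AQ | z.re ∈ cptK B ∧ z.im ∈ cptK B} := by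
  have h1 := (E7.homeo AQ).isClosedEmbedding.isCompact_preimage
    ((cptK_compact B).prod (cptK_compact B))
  exact h1

private theorem cpt_two (p : Nat.Primes) (y : E7 ℚ_[p]) :
    (2 * y).re = 2 * y.re ∧ (2 * y).im = 2 * y.im := by
  constructor
  · simp [QuadraticAlgebra.re_mul, QuadraticAlgebra.re_ofNat, QuadraticAlgebra.im_ofNat]
  · simp [QuadraticAlgebra.im_mul, QuadraticAlgebra.re_ofNat, QuadraticAlgebra.im_ofNat]

private theorem cpt_elem {R : Type} [TopologicalSpace R] (i j : Fin 7) :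
    Continuous fun x : Matrix (Fin 7) (Fin 7) R => x i j :=
  (continuous_apply j).comp (continuous_apply i)

/-- It is a closed subset of the compact set of the `x` with `2 x` coordinatewise bounded and
integral (`isCompact_int`). -/
theorem isCompact_Box (B : ℝ) : IsCompact (Box B) := by
  have h1 : IsCompact {x : M7 (E7 AQ) | ∀ i j, (x i j).re ∈ cptK B ∧ (x i j).im ∈ cptK B} := by
    have h2 : IsCompact (Set.pi Set.univ fun _ : Fin 7 => Set.pi Set.univ fun _ : Fin 7 =>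
        {z : E7 AQ | z.re ∈ cptK B ∧ z.im ∈ cptK B}) :=
      isCompact_univ_pi fun _ => isCompact_univ_pi fun _ => cptE_compact B
    have h3 : {x : M7 (E7 AQ) | ∀ i j, (x i j).re ∈ cptK B ∧ (x i j).im ∈ cptK B} =
        (Set.pi Set.univ fun _ : Fin 7 => Set.pi Set.univ fun _ : Fin 7 =>
        {z : E7 AQ | z.re ∈ cptK B ∧ z.im ∈ cptK B}) := by
      ext x
      exact ⟨fun h i _ j _ => h i j, fun h i j => h i (Set.mem_univ i) j (Set.mem_univ j)⟩
    rw [h3]
    exact h2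
  refine h1.of_isClosed_subset ?_ ?_
  · have h2 : Box B = ⋂ i, ⋂ j, ({x : M7 (E7 AQ) | |(x i j).re.1| ≤ B} ∩
        ({x : M7 (E7 AQ) | |(x i j).im.1| ≤ B} ∩
          ⋂ p, ({x : M7 (E7 AQ) | ‖evp p (x i j).re - evp p (x i j).im‖ ≤ 1} ∩
            {x : M7 (E7 AQ) | ‖2 * evp p (x i j).im‖ ≤ 1}))) := by
      ext x
      simp only [Set.mem_inter_iff, Set.mem_iInter]
      exact Iff.rfl
    rw [h2]
    refine isClosed_iInter fun i => isClosed_iInter fun j => ?_
    have hre : Continuous fun x : M7 (E7 AQ) => (x i j).re := E7.continuous_re.comp (cpt_elem i j)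
    have him : Continuous fun x : M7 (E7 AQ) => (x i j).im := E7.continuous_im.comp (cpt_elem i j)
    refine (isClosed_le (continuous_fst.comp hre).abs continuous_const).inter
      ((isClosed_le (continuous_fst.comp him).abs continuous_const).inter
        (isClosed_iInter fun p => ?_))
    refine IsClosed.inter (isClosed_le ?_ continuous_const) (isClosed_le ?_ continuous_const)
    · exact (((continuous_evp p).comp hre).sub ((continuous_evp p).comp him)).norm
    · exact (continuous_const.mul ((continuous_evp p).comp him)).norm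
  · intro x hx i j
    obtain ⟨a1, a2, a3⟩ := hx i j
    refine ⟨⟨a1, fun p => ?_⟩, ⟨a2, fun p => ?_⟩⟩
    · have h3 := (two_mul_int (a3 p)).1
      rw [(cpt_two p _).1] at h3
      exact h3
    · have h3 := (two_mul_int (a3 p)).2
      rw [(cpt_two p _).2] at h3
      exact h3

private theorem cpt_mapM_mul {R S : Type} [CommRing R] [CommRing S] (f : R →+* S)
    (A B : M7 (E7 R)) : mapM f (A * B) = mapM f A * mapM f B := by
  unfold mapM
  exact Matrix.map_mul

private theorem cpt_mapM_one {R S : Type} [CommRing R] [CommRing S] (f : R →+* S) :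
    mapM f (1 : M7 (E7 R)) = 1 := by
  unfold mapM
  exact Matrix.map_one _ (map_zero _) (map_one _)

theorem isCompact_right (A : M7 (E7 ℚ)) (hA : IsUnit A.det) (B : ℝ) :
    IsCompact {g : U7 AQ | g.mat * mapM ratAQ A ∈ Box B} := by
  have h1 : mapM ratAQ A * mapM ratAQ A⁻¹ = 1 := by
    rw [← cpt_mapM_mul, Matrix.mul_nonsing_inv A hA, cpt_mapM_one]
  have h2 : mapM ratAQ A⁻¹ * mapM ratAQ A = 1 := by
    rw [← cpt_mapM_mul, Matrix.nonsing_inv_mul A hA, cpt_mapM_one]
  let e : M7 (E7 AQ) ≃ₜ M7 (E7 AQ) :=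
    { toFun := fun x => x * mapM ratAQ A
      invFun := fun x => x * mapM ratAQ A⁻¹
      left_inv := fun x => by
        show x * mapM ratAQ A * mapM ratAQ A⁻¹ = x
        rw [Matrix.mul_assoc, h1, Matrix.mul_one]
      right_inv := fun x => by
        show x * mapM ratAQ A⁻¹ * mapM ratAQ A = x
        rw [Matrix.mul_assoc, h2, Matrix.mul_one]
      continuous_toFun := continuous_id.matrix_mul continuous_const
      continuous_invFun := continuous_id.matrix_mul continuous_const }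
  exact (e.isClosedEmbedding.comp U7.isClosedEmbedding_mat).isCompact_preimage (isCompact_Box B)

/-- Membership in the box in terms of the components. -/
theorem mem_Box (g : U7 AQ) (A : M7 (E7 ℚ)) (B : ℝ)
    (h1 : ∀ i j, ‖(gC g * mQC A) i j‖ ≤ B) (h2 : ∀ p i j, (gp g p * mp p A) i j ∈ OZ p) :
    g.mat * mapM ratAQ A ∈ Box B := by
  have e0 : ∀ {R S T : Type} [CommRing R] [CommRing S] [CommRing T] (f : R →+* S) (h : S →+* T)
      (Z : M7 (E7 R)), mapM h (mapM f Z) = mapM (h.comp f) Z := by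
    intro R S T _ _ _ f h Z
    rfl
  have einf : mapM infAQ (g.mat * mapM ratAQ A) =
      (U7.map infAQ g).mat * mapM (Rat.castHom ℝ) A := by
    rw [cpt_mapM_mul, e0]
    rfl
  have ep : ∀ p, mapM (evp p) (g.mat * mapM ratAQ A) = gp g p * mp p A := by
    intro p
    rw [cpt_mapM_mul, e0]
    rfl
  have eC : ∀ i j, E7.toC (E7.map infAQ ((g.mat * mapM ratAQ A) i j)) =
      (gC g * mQC A) i j := by
    intro i j
    have h3 : gC g * mQC A = ((U7.map infAQ g).mat * mapM (Rat.castHom ℝ) A).map E7.toC := by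
      rw [Matrix.map_mul]
      rfl
    rw [h3, ← einf]
    rfl
  intro i j
  have h4 := h1 i j
  rw [← eC] at h4
  have h5 := E7.normSq_toC (E7.map infAQ ((g.mat * mapM ratAQ A) i j))
  have h6 : ‖E7.toC (E7.map infAQ ((g.mat * mapM ratAQ A) i j))‖ ^ 2 ≤ B ^ 2 :=
    pow_le_pow_left₀ (norm_nonneg _) h4 2
  have hB : 0 ≤ B := (norm_nonneg _).trans h4
  rw [h5] at h6
  refine ⟨?_, ?_, ?_⟩
  · refine abs_le_of_sq_le_sq ?_ hB
    have h7 := sq_nonneg (E7.map infAQ ((g.mat * mapM ratAQ A) i j)).im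
    have h8 : (E7.map infAQ ((g.mat * mapM ratAQ A) i j)).re ^ 2 ≤ B ^ 2 := by linarith
    exact h8
  · refine abs_le_of_sq_le_sq ?_ hB
    have h7 := sq_nonneg (E7.map infAQ ((g.mat * mapM ratAQ A) i j)).im
    have h9 := sq_nonneg (E7.map infAQ ((g.mat * mapM ratAQ A) i j)).re
    have h8 : (E7.map infAQ ((g.mat * mapM ratAQ A) i j)).im ^ 2 ≤ B ^ 2 := by linarith
    exact h8
  · intro p
    have h7 := h2 p i j
    rw [← ep] at h7
    exact h7

/-- The bounded case. There are only finitely many matrices `H` with entries in the ring of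
integers and `‖H i j‖ ≤ 7 B ^ 2` (`OE.finite_norm_le`). For each of them choose (if it exists) an
invertible `A_H` with `A_H* J A_H = H`, and let `C` be the union of the compact sets
`isCompact_right A_H B`. Given `g`, `A`, `H` take `γ = A A_H⁻¹`, which is unitary, and
`(g γ) A_H = g A`. -/
theorem bounded_case (B : ℝ) : ∃ C : Set (U7 AQ), IsCompact C ∧
    ∀ (g : U7 AQ) (A : M7 (E7 ℚ)) (H : M7 OE), IsUnit A.det → Aᴴ * J7 (E7 ℚ) * A = mQ H →
      (∀ i j, ‖(gC g * mQC A) i j‖ ≤ B) → (∀ p i j, (gp g p * mp p A) i j ∈ OZ p) →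
      ∃ γ ∈ Gam, g * γ ∈ C := by
  classical
  have hfin : {H : M7 OE | ∀ i j, ‖OE.toC (H i j)‖ ≤ 7 * B ^ 2}.Finite := by
    exact Set.Finite.pi' (ι := Fin 7) fun _ => Set.Finite.pi' (ι := Fin 7) fun _ =>
      OE.finite_norm_le (7 * B ^ 2)
  let P : M7 OE → M7 (E7 ℚ) → Prop := fun H A => IsUnit A.det ∧ Aᴴ * J7 (E7 ℚ) * A = mQ H
  let AH : M7 OE → M7 (E7 ℚ) := fun H => if h : ∃ A, P H A then h.choose else 1
  have hAH : ∀ H, IsUnit (AH H).det := by
    intro H
    by_cases h : ∃ A, P H A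
    · have h1 : AH H = h.choose := dif_pos h
      rw [h1]
      exact h.choose_spec.1
    · have h1 : AH H = 1 := dif_neg h
      rw [h1, Matrix.det_one]
      exact isUnit_one
  refine ⟨⋃ H ∈ {H : M7 OE | ∀ i j, ‖OE.toC (H i j)‖ ≤ 7 * B ^ 2},
    {g : U7 AQ | g.mat * mapM ratAQ (AH H) ∈ Box B},
    hfin.isCompact_biUnion fun H _ => isCompact_right (AH H) (hAH H) B, ?_⟩
  intro g A H hA hH h1 h2
  -- the bound of the Gram matrix
  have hform : (gC g * mQC A)ᴴ * J7 ℂ * (gC g * mQC A) = mC H := by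
    have e1 : (gC g * mQC A)ᴴ * J7 ℂ * (gC g * mQC A) =
        (mQC A)ᴴ * ((gC g)ᴴ * J7 ℂ * gC g) * mQC A := by
      rw [Matrix.conjTranspose_mul]
      simp only [Matrix.mul_assoc]
    rw [e1, gC_unitary, ← mQC_mQ, ← hH, mQC_mul, mQC_mul, mQC_conj, mQC_J]
  have hcn : ∀ j, cn (gC g * mQC A) j ^ 2 ≤ 7 * B ^ 2 := by
    intro j
    unfold cn
    rw [Real.sq_sqrt (Finset.sum_nonneg fun i _ => sq_nonneg _)]
    have e1 : ∀ i ∈ (Finset.univ : Finset (Fin 7)), ‖(gC g * mQC A) i j‖ ^ 2 ≤ B ^ 2 :=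
      fun i _ => pow_le_pow_left₀ (norm_nonneg _) (h1 i j) 2
    refine (Finset.sum_le_card_nsmul _ _ _ e1).trans (le_of_eq ?_)
    rw [Finset.card_univ, Fintype.card_fin, nsmul_eq_mul]
    norm_num
  have hHb : ∀ i j, ‖OE.toC (H i j)‖ ≤ 7 * B ^ 2 := by
    intro i j
    have e1 := form_le (gC g * mQC A) i j
    rw [hform] at e1
    have e2 : mC H i j = OE.toC (H i j) := rfl
    rw [e2] at e1
    have e3 := hcn i
    have e4 := hcn j
    nlinarith [sq_nonneg (cn (gC g * mQC A) i - cn (gC g * mQC A) j)]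
  have hex : ∃ A, P H A := ⟨A, hA, hH⟩
  have hAHeq : (AH H)ᴴ * J7 (E7 ℚ) * AH H = mQ H := by
    have e1 : AH H = hex.choose := dif_pos hex
    rw [e1]
    exact hex.choose_spec.2
  have hu := hAH H
  -- the rational unitary matrix
  have hγ : (A * (AH H)⁻¹)ᴴ * J7 (E7 ℚ) * (A * (AH H)⁻¹) = J7 (E7 ℚ) := by
    have e1 : (A * (AH H)⁻¹)ᴴ * J7 (E7 ℚ) * (A * (AH H)⁻¹) =
        ((AH H)⁻¹)ᴴ * (Aᴴ * J7 (E7 ℚ) * A) * (AH H)⁻¹ := by
      rw [Matrix.conjTranspose_mul]
      simp only [Matrix.mul_assoc]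
    have e2 : ((AH H)⁻¹)ᴴ * (AH H)ᴴ = 1 := by
      rw [← Matrix.conjTranspose_mul, Matrix.mul_nonsing_inv _ hu, Matrix.conjTranspose_one]
    rw [e1, hH, ← hAHeq]
    calc ((AH H)⁻¹)ᴴ * ((AH H)ᴴ * J7 (E7 ℚ) * AH H) * (AH H)⁻¹
        = (((AH H)⁻¹)ᴴ * (AH H)ᴴ) * J7 (E7 ℚ) * (AH H * (AH H)⁻¹) := by
          simp only [Matrix.mul_assoc]
      _ = J7 (E7 ℚ) := by
          rw [e2, Matrix.mul_nonsing_inv _ hu, Matrix.one_mul, Matrix.mul_one]
  let γ : U7 ℚ := ⟨A * (AH H)⁻¹, hγ⟩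
  refine ⟨U7.map ratAQ γ, ⟨γ, rfl⟩, ?_⟩
  refine Set.mem_biUnion (x := H) hHb ?_
  show (g * U7.map ratAQ γ).mat * mapM ratAQ (AH H) ∈ Box B
  have e1 : (g * U7.map ratAQ γ).mat * mapM ratAQ (AH H) = g.mat * mapM ratAQ A := by
    have e2 : (g * U7.map ratAQ γ).mat = g.mat * mapM ratAQ (A * (AH H)⁻¹) := rfl
    rw [e2, Matrix.mul_assoc, ← cpt_mapM_mul, Matrix.mul_assoc, Matrix.nonsing_inv_mul _ hu,
      Matrix.mul_one]
  rw [e1]
  exact mem_Box g A B h1 h2

end Pool.Agent.MPabcfcd
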