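import Pool.Agent.Lib.MP_abcfcd_nt.Lgrp

/-!
# The matrix `B` has no isotropic invariant subspace modulo seven
-/

set_option autoImplicit false

open Matrix

namespace Pool.Agent.MPabcfcd

instance : Fact (Nat.Prime 7) := ⟨by norm_num⟩

/-- The matrix `B` modulo seven. -/
def B7 : M7 (ZMod 7) := Bm.map (Int.cast : ℤ → ZMod 7)

/-- Eigenvectors of `B` modulo seven for the eigenvalues `0, ..., 6` (columns). -/
def P7 : M7 (ZMod 7) :=
  !![4, 2, 4, 6, 0, 6, 4;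
     4, 6, 4, 4, 5, 5, 3;
     2, 3, 1, 4, 5, 0, 5;
     1, 5, 0, 5, 5, 6, 5;
     0, 1, 0, 6, 0, 6, 5;
     2, 0, 3, 0, 4, 1, 5;
     1, 0, 1, 1, 1, 1, 1]

set_option maxRecDepth 100000 in
theorem B7_mul_P7 : B7 * P7 = P7 * Matrix.diagonal ![0, 1, 2, 3, 4, 5, 6] := by
  decide +kernel

set_option maxRecDepth 100000 in
theorem P7_gram : P7ᵀ * J7 (ZMod 7) * P7 = Matrix.diagonal ![4, 3, 4, 1, 2, 2, 1] := by
  decide +kernel

set_option maxRecDepth 100000 in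
theorem B7_selfAdj : (J7 (ZMod 7) * B7)ᵀ = J7 (ZMod 7) * B7 := by
  decide +kernel

/-- the eigenvalues -/
private def ev7 : Fin 7 → ZMod 7 := ![0, 1, 2, 3, 4, 5, 6]

private theorem P7_mulVec_ev (x : Fin 7 → ZMod 7) :
    B7 *ᵥ (P7 *ᵥ x) = P7 *ᵥ (fun j => ev7 j * x j) := by
  rw [Matrix.mulVec_mulVec, B7_mul_P7, ← Matrix.mulVec_mulVec]
  congr 1
  funext j
  rw [Matrix.mulVec_diagonal]
  rfl

private theorem form_eq (P : M7 (ZMod 7)) (x : Fin 7 → ZMod 7) :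
    (P *ᵥ x) ⬝ᵥ (J7 (ZMod 7) *ᵥ (P *ᵥ x)) = x ⬝ᵥ ((Pᵀ * J7 (ZMod 7) * P) *ᵥ x) := by
  calc (P *ᵥ x) ⬝ᵥ (J7 (ZMod 7) *ᵥ (P *ᵥ x))
      = (x ᵥ* Pᵀ) ⬝ᵥ (J7 (ZMod 7) *ᵥ (P *ᵥ x)) := by rw [Matrix.vecMul_transpose]
    _ = x ⬝ᵥ (Pᵀ *ᵥ (J7 (ZMod 7) *ᵥ (P *ᵥ x))) := (Matrix.dotProduct_mulVec _ _ _).symm
    _ = x ⬝ᵥ ((Pᵀ * J7 (ZMod 7) * P) *ᵥ x) := by
        rw [Matrix.mulVec_mulVec, Matrix.mulVec_mulVec]

private theorem gram_ne : ∀ j : Fin 7, (![4, 3, 4, 1, 2, 2, 1] : Fin 7 → ZMod 7) j ≠ 0 := by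
  decide

private theorem ind_eq (j k : Fin 7) :
    (1 : ZMod 7) - (ev7 k - ev7 j) ^ 6 = if k = j then 1 else 0 := by
  revert j k
  decide

/-- A nonzero invariant subspace of `B` contains an eigenvector, which is a multiple of a column of
`P7`, and the columns of `P7` are anisotropic. -/
theorem no_stable (W : Submodule (ZMod 7) (Fin 7 → ZMod 7)) (hW : W ≠ ⊥)
    (hB : ∀ w ∈ W, B7 *ᵥ w ∈ W) : ∃ w ∈ W, w ⬝ᵥ (J7 (ZMod 7) *ᵥ w) ≠ 0 := by
  obtain ⟨w, hw, hw0⟩ := (Submodule.ne_bot_iff W).1 hW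
  -- coordinates with respect to the eigenvectors
  set Q : M7 (ZMod 7) := Matrix.diagonal ![2, 5, 2, 1, 4, 4, 1] * (P7ᵀ * J7 (ZMod 7)) with hQ
  have h1 : Q * P7 = 1 := by
    rw [hQ, Matrix.mul_assoc, P7_gram, Matrix.diagonal_mul_diagonal]
    have h2 : (fun i : Fin 7 => (![2, 5, 2, 1, 4, 4, 1] : Fin 7 → ZMod 7) i *
        (![4, 3, 4, 1, 2, 2, 1] : Fin 7 → ZMod 7) i) = fun _ => 1 := by
      funext i
      revert i
      decide
    rw [h2]
    exact Matrix.diagonal_one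
  have h2 : P7 * Q = 1 := mul_eq_one_comm.1 h1
  set c : Fin 7 → ZMod 7 := Q *ᵥ w with hc
  have hwc : P7 *ᵥ c = w := by
    rw [hc, Matrix.mulVec_mulVec, h2, Matrix.one_mulVec]
  have hc0 : ∃ j, c j ≠ 0 := by
    by_contra hn
    have h3 : c = 0 := funext fun j => by
      by_contra h4
      exact hn ⟨j, h4⟩
    rw [h3, Matrix.mulVec_zero] at hwc
    exact hw0 hwc.symm
  obtain ⟨j, hj⟩ := hc0
  have hstep : ∀ d : Fin 7 → ZMod 7, P7 *ᵥ (fun k => d k * c k) ∈ W →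
      P7 *ᵥ (fun k => (d k * (ev7 k - ev7 j)) * c k) ∈ W := by
    intro d hd
    have h3 := W.sub_mem (hB _ hd) (W.smul_mem (ev7 j) hd)
    rw [P7_mulVec_ev, ← Matrix.mulVec_smul, ← Matrix.mulVec_sub] at h3
    have h4 : ((fun k => ev7 k * (d k * c k)) - ev7 j • fun k => d k * c k) =
        fun k => (d k * (ev7 k - ev7 j)) * c k := by
      funext k
      rw [Pi.sub_apply, Pi.smul_apply, smul_eq_mul]
      ring
    rwa [h4] at h3
  have hpow : ∀ m : ℕ, P7 *ᵥ (fun k => (ev7 k - ev7 j) ^ m * c k) ∈ W := by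
    intro m
    induction m with
    | zero =>
      have h3 : (fun k => (ev7 k - ev7 j) ^ 0 * c k) = c := by
        funext k
        rw [pow_zero, one_mul]
      rw [h3, hwc]
      exact hw
    | succ m ih =>
      have h3 := hstep _ ih
      simpa only [pow_succ] using h3
  have hmem : P7 *ᵥ (Pi.single j (c j)) ∈ W := by
    have h3 := W.sub_mem (hpow 0) (hpow 6)
    rw [← Matrix.mulVec_sub] at h3
    have h4 : ((fun k => (ev7 k - ev7 j) ^ 0 * c k) - fun k => (ev7 k - ev7 j) ^ 6 * c k) =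
        Pi.single j (c j) := by
      funext k
      rw [Pi.sub_apply, pow_zero, ← sub_mul, ind_eq]
      by_cases hk : k = j
      · rw [if_pos hk, one_mul, hk, Pi.single_eq_same]
      · rw [if_neg hk, zero_mul, Pi.single_eq_of_ne hk]
    rwa [h4] at h3
  refine ⟨_, hmem, ?_⟩
  rw [form_eq, P7_gram, single_dotProduct, Matrix.mulVec_diagonal, Pi.single_eq_same]
  exact mul_ne_zero hj (mul_ne_zero (gram_ne j) hj)

private theorem card_aux7 : ∀ i : ℕ, 1 ≤ i → i ≤ 3 → ∀ l0 : Fin 7, i ≤ l0.val →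
    (Finset.univ.filter fun k : Fin 7 => ¬ k.val < 7 - i).card <
      (Finset.univ.filter fun l : Fin 7 => l.val < i ∨ l = l0).card := by
  intro i h1 h3
  interval_cases i <;> decide

private theorem zero_block (K : M7 (ZMod 7)) (i : ℕ) (h1 : 1 ≤ i) (h3 : i ≤ 3) (l0 : Fin 7)
    (hl : i ≤ l0.val) (h : ∀ k l : Fin 7, k.val < 7 - i → (l.val < i ∨ l = l0) → K k l = 0) :
    K.det = 0 := by
  rw [Matrix.det_apply]
  refine Finset.sum_eq_zero fun σ _ => ?_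
  have h4 : ∃ l : Fin 7, (l.val < i ∨ l = l0) ∧ (σ l).val < 7 - i := by
    by_contra hn
    have h5 : (Finset.univ.filter fun l : Fin 7 => l.val < i ∨ l = l0).card ≤
        (Finset.univ.filter fun k : Fin 7 => ¬ k.val < 7 - i).card := by
      refine Finset.card_le_card_of_injOn σ ?_ σ.injective.injOn
      intro l hl'
      have h6 : l ∈ Finset.univ.filter fun l : Fin 7 => l.val < i ∨ l = l0 := hl'
      have h7 := (Finset.mem_filter.1 h6).2
      have h8 : σ l ∈ Finset.univ.filter fun k : Fin 7 => ¬ k.val < 7 - i :=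
        Finset.mem_filter.2 ⟨Finset.mem_univ _, fun h9 => hn ⟨l, h7, h9⟩⟩
      exact h8
    exact absurd (card_aux7 i h1 h3 l0 hl) (not_lt.2 h5)
  obtain ⟨l, h5, h6⟩ := h4
  have h7 : ∏ r, K (σ r) r = 0 :=
    Finset.prod_eq_zero (f := fun r => K (σ r) r) (Finset.mem_univ l) (h _ _ h6 h5)
  rw [h7, smul_zero]

/-- Otherwise the span `W` of the first `i` columns of `κ` is isotropic, its orthogonal complement
is the span of the first `7 - i` columns (dimensions), and `B W` is orthogonal to this complement,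
hence contained in `W`; a contradiction to `no_stable`. -/
theorem no_flag (κ : M7 (ZMod 7)) (hκ : IsUnit κ.det) (i : ℕ) (h1 : 1 ≤ i) (h3 : i ≤ 3)
    (h : ∀ j k : Fin 7, j.val < i → k.val < 7 - i → (κᵀ * J7 (ZMod 7) * κ) j k = 0) :
    ∃ j k : Fin 7, j.val < i ∧ k.val < 7 - i ∧ (κᵀ * J7 (ZMod 7) * B7 * κ) k j ≠ 0 := by
  by_contra hn
  have hN : ∀ j k : Fin 7, j.val < i → k.val < 7 - i →
      (κᵀ * J7 (ZMod 7) * B7 * κ) k j = 0 := by
    intro j k hj hk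
    by_contra h4
    exact hn ⟨j, k, hj, hk, h4⟩
  have hJt : (J7 (ZMod 7))ᵀ = J7 (ZMod 7) := by decide +kernel
  have hGs : (κᵀ * J7 (ZMod 7) * κ)ᵀ = κᵀ * J7 (ZMod 7) * κ := by
    rw [Matrix.transpose_mul, Matrix.transpose_mul, Matrix.transpose_transpose, hJt,
      Matrix.mul_assoc]
  have hG : ∀ k l : Fin 7, k.val < 7 - i → l.val < i → (κᵀ * J7 (ZMod 7) * κ) k l = 0 := by
    intro k l hk hl
    have h4 := h l k hl hk
    rw [← hGs, Matrix.transpose_apply] at h4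
    exact h4
  have hdG : (κᵀ * J7 (ZMod 7) * κ).det ≠ 0 := by
    rw [Matrix.det_mul, Matrix.det_mul, Matrix.det_transpose]
    have h4 : (J7 (ZMod 7)).det ≠ 0 := by
      intro h5
      have h6 : (J7 (ZMod 7)).det * (J7 (ZMod 7)).det = 1 := by
        rw [← Matrix.det_mul, J7_sq, Matrix.det_one]
      rw [h5, zero_mul] at h6
      exact zero_ne_one h6
    exact mul_ne_zero (mul_ne_zero hκ.ne_zero h4) hκ.ne_zero
  let W : Submodule (ZMod 7) (Fin 7 → ZMod 7) :=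
    { carrier := {w | ∃ x : Fin 7 → ZMod 7, (∀ l : Fin 7, i ≤ l.val → x l = 0) ∧ w = κ *ᵥ x}
      add_mem' := by
        rintro _ _ ⟨x, hx, rfl⟩ ⟨y, hy, rfl⟩
        exact ⟨x + y, fun l hl => by rw [Pi.add_apply, hx l hl, hy l hl, add_zero],
          by rw [Matrix.mulVec_add]⟩
      zero_mem' := ⟨0, fun _ _ => rfl, by rw [Matrix.mulVec_zero]⟩
      smul_mem' := by
        rintro c _ ⟨x, hx, rfl⟩
        exact ⟨c • x, fun l hl => by rw [Pi.smul_apply, hx l hl, smul_zero],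
          by rw [Matrix.mulVec_smul]⟩ }
  have hinv : κ⁻¹ * κ = 1 := Matrix.nonsing_inv_mul κ hκ
  have hinv' : κ * κ⁻¹ = 1 := Matrix.mul_nonsing_inv κ hκ
  have hWne : W ≠ ⊥ := by
    rw [Submodule.ne_bot_iff]
    refine ⟨κ *ᵥ Pi.single 0 1, ⟨Pi.single 0 1, fun l hl => ?_, rfl⟩, fun h4 => ?_⟩
    · refine Pi.single_eq_of_ne (fun h5 => ?_) _
      rw [h5] at hl
      exact absurd hl (by simp only [Fin.val_zero]; omega)
    · have h5 : κ⁻¹ *ᵥ (κ *ᵥ Pi.single 0 1) = (Pi.single 0 1 : Fin 7 → ZMod 7) := by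
        rw [Matrix.mulVec_mulVec, hinv, Matrix.one_mulVec]
      rw [h4, Matrix.mulVec_zero] at h5
      have h6 := congrFun h5 0
      rw [Pi.single_eq_same] at h6
      exact zero_ne_one h6
  have hWB : ∀ w ∈ W, B7 *ᵥ w ∈ W := by
    rintro _ ⟨x, hx, rfl⟩
    have hz1 : κ *ᵥ (κ⁻¹ *ᵥ (B7 *ᵥ (κ *ᵥ x))) = B7 *ᵥ (κ *ᵥ x) :=
      (Matrix.mulVec_mulVec (B7 *ᵥ (κ *ᵥ x)) κ κ⁻¹).trans (by rw [hinv', Matrix.one_mulVec])
    refine ⟨κ⁻¹ *ᵥ (B7 *ᵥ (κ *ᵥ x)), ?_, hz1.symm⟩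
    · intro l0 hl0
      by_contra hz
      generalize κ⁻¹ *ᵥ (B7 *ᵥ (κ *ᵥ x)) = z at hz hz1
      have hGz : ∀ k : Fin 7, k.val < 7 - i → ((κᵀ * J7 (ZMod 7) * κ) *ᵥ z) k = 0 := by
        intro k hk
        have h4 : (κᵀ * J7 (ZMod 7) * κ) *ᵥ z = (κᵀ * J7 (ZMod 7) * B7 * κ) *ᵥ x := by
          calc (κᵀ * J7 (ZMod 7) * κ) *ᵥ z
              = (κᵀ * J7 (ZMod 7)) *ᵥ (κ *ᵥ z) := (Matrix.mulVec_mulVec z _ κ).symm
            _ = (κᵀ * J7 (ZMod 7)) *ᵥ (B7 *ᵥ (κ *ᵥ x)) := by rw [hz1]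
            _ = (κᵀ * J7 (ZMod 7) * B7) *ᵥ (κ *ᵥ x) := Matrix.mulVec_mulVec (κ *ᵥ x) _ B7
            _ = (κᵀ * J7 (ZMod 7) * B7 * κ) *ᵥ x := Matrix.mulVec_mulVec x _ κ
        rw [h4]
        change ∑ j, (κᵀ * J7 (ZMod 7) * B7 * κ) k j * x j = 0
        refine Finset.sum_eq_zero fun j _ => ?_
        by_cases hj : j.val < i
        · rw [hN j k hj hk, zero_mul]
        · rw [hx j (not_lt.1 hj), mul_zero]
      have h5 : ((κᵀ * J7 (ZMod 7) * κ) * (1 : M7 (ZMod 7)).updateCol l0 z).det = 0 := by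
        refine zero_block _ i h1 h3 l0 hl0 fun k l hk hl => ?_
        have h6 : ((κᵀ * J7 (ZMod 7) * κ) * (1 : M7 (ZMod 7)).updateCol l0 z) k l =
            ((κᵀ * J7 (ZMod 7) * κ) *ᵥ fun r => ((1 : M7 (ZMod 7)).updateCol l0 z) r l) k := rfl
        rw [h6]
        by_cases hl1 : l = l0
        · have h7 : (fun r => ((1 : M7 (ZMod 7)).updateCol l0 z) r l) = z := by
            funext r
            rw [hl1, Matrix.updateCol_self]
          rw [h7]
          exact hGz k hk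
        · have hl2 : l.val < i := hl.resolve_right hl1
          have h7 : (fun r => ((1 : M7 (ZMod 7)).updateCol l0 z) r l) = Pi.single l 1 := by
            funext r
            rw [Matrix.updateCol_ne hl1, Matrix.one_apply, Pi.single_apply]
          rw [h7, Matrix.mulVec_single_one]
          exact hG k l hk hl2
      rw [Matrix.det_mul] at h5
      have h8 : ((1 : M7 (ZMod 7)).updateCol l0 z).det = z l0 := by
        rw [← Matrix.cramer_apply, Matrix.cramer_one]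
        rfl
      rw [h8] at h5
      exact hz ((mul_eq_zero.1 h5).resolve_left hdG)
  obtain ⟨w, ⟨x, hx, rfl⟩, hw⟩ := no_stable W hWne hWB
  refine hw ?_
  rw [form_eq]
  change ∑ j, x j * ((κᵀ * J7 (ZMod 7) * κ) *ᵥ x) j = 0
  refine Finset.sum_eq_zero fun j _ => ?_
  by_cases hj : j.val < i
  · have h4 : ((κᵀ * J7 (ZMod 7) * κ) *ᵥ x) j = 0 := by
      change ∑ k, (κᵀ * J7 (ZMod 7) * κ) j k * x k = 0
      refine Finset.sum_eq_zero fun k _ => ?_
      by_cases hk : k.val < i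
      · rw [h j k hj (by omega), zero_mul]
      · rw [hx k (not_lt.1 hk), mul_zero]
    rw [h4, mul_zero]
  · rw [hx j (not_lt.1 hj), zero_mul]

end Pool.Agent.MPabcfcd
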