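import Pool.Agent.Lib.MP_abcfcd_nt.S.Tau
import Pool.Agent.Lib.MP_abcfcd_nt.S.Flag

/-!
# Residues at seven
-/

set_option autoImplicit false

open Matrix Topology

namespace Pool.Agent.MPabcfcd

/-- The residue map of the seven-adic integers. -/
private noncomputable def g7 : ℤ_[(p7 : ℕ)] →+* ZMod 7 := PadicInt.toZMod (p := (p7 : ℕ))

private theorem g7_zero (z : ℤ_[(p7 : ℕ)]) : g7 z = 0 ↔ ‖(z : ℚ_[(p7 : ℕ)])‖ ≤ 1 / 7 := by
  have h1 : g7 z = 0 ↔ z ∈ RingHom.ker (PadicInt.toZMod (p := (p7 : ℕ))) :=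
    RingHom.mem_ker.symm
  rw [h1, PadicInt.ker_toZMod, IsLocalRing.mem_maximalIdeal, PadicInt.mem_nonunits,
    ← PadicInt.norm_def]
  have h2 := PadicInt.norm_le_pow_iff_norm_lt_pow_add_one z (-1)
  have h3 : (((p7 : ℕ) : ℝ)) ^ (-1 : ℤ) = 1 / 7 := by
    have : (((p7 : ℕ) : ℝ)) = 7 := by simp [p7]
    rw [this]
    norm_num
  rw [h3, neg_add_cancel, zpow_zero] at h2
  exact h2.symm

private theorem g7_seven : g7 (7 : ℤ_[(p7 : ℕ)]) = 0 := by
  rw [map_ofNat]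
  rfl

private theorem g7_eq (y z : ℤ_[(p7 : ℕ)]) :
    g7 y = g7 z ↔ ‖(y : ℚ_[(p7 : ℕ)]) - (z : ℚ_[(p7 : ℕ)])‖ ≤ 1 / 7 := by
  rw [← sub_eq_zero, ← map_sub, g7_zero, PadicInt.coe_sub]

private theorem norm_seven : ‖(7 : ℚ_[(p7 : ℕ)])‖ = 1 / 7 := by
  have h := Padic.norm_p (p := (p7 : ℕ))
  have h1 : (((p7 : ℕ) : ℚ_[(p7 : ℕ)])) = 7 := by
    have : ((p7 : ℕ)) = 7 := rfl
    exact_mod_cast congrArg (fun n : ℕ => (n : ℚ_[(p7 : ℕ)])) this
  have h2 : (((p7 : ℕ) : ℝ)) = 7 := by simp [p7]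
  rw [h1, h2] at h
  rw [h, one_div]

private theorem div_seven (x : ℚ_[(p7 : ℕ)]) : ‖x / 7‖ ≤ 1 ↔ ‖x‖ ≤ 1 / 7 := by
  rw [norm_div, norm_seven, div_le_iff₀ (by norm_num), one_mul]

private noncomputable def reZ (x : OZ p7) : ℤ_[(p7 : ℕ)] :=
  ⟨(x : E7 ℚ_[(p7 : ℕ)]).re, (seven_int x.2).1⟩

private noncomputable def imZ (x : OZ p7) : ℤ_[(p7 : ℕ)] :=
  ⟨(x : E7 ℚ_[(p7 : ℕ)]).im, (seven_int x.2).2⟩

/-- The residue map of the maximal order at seven. -/
private noncomputable def res7 : OZ p7 →+* ZMod 7 where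
  toFun x := g7 (reZ x)
  map_one' := by
    rw [← map_one g7]
    congr 1
  map_mul' x y := by
    have h : reZ (x * y) = reZ x * reZ y - 7 * (imZ x * imZ y) := by
      apply Subtype.ext
      rw [PadicInt.coe_sub, PadicInt.coe_mul, PadicInt.coe_mul, PadicInt.coe_mul]
      change (((x : E7 ℚ_[(p7 : ℕ)]) * (y : E7 ℚ_[(p7 : ℕ)])).re) =
        (x : E7 ℚ_[(p7 : ℕ)]).re * (y : E7 ℚ_[(p7 : ℕ)]).re -
          ((7 : ℤ_[(p7 : ℕ)]) : ℚ_[(p7 : ℕ)]) *
          ((x : E7 ℚ_[(p7 : ℕ)]).im * (y : E7 ℚ_[(p7 : ℕ)]).im)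
      have h7 : ((7 : ℤ_[(p7 : ℕ)]) : ℚ_[(p7 : ℕ)]) = 7 := rfl
      rw [QuadraticAlgebra.re_mul, h7]
      ring
    rw [h, map_sub, map_mul, map_mul, g7_seven, zero_mul, sub_zero]
  map_zero' := by
    rw [← map_zero g7]
    congr 1
  map_add' x y := by
    rw [← map_add g7]
    congr 1

private theorem res7_star (x : OZ p7) :
    res7 ⟨star (x : E7 ℚ_[(p7 : ℕ)]), star_mem_OZ x.2⟩ = res7 x := by
  change g7 _ = g7 _
  congr 1
  apply Subtype.ext
  change (star (x : E7 ℚ_[(p7 : ℕ)])).re = (x : E7 ℚ_[(p7 : ℕ)]).re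
  rw [QuadraticAlgebra.re_star]
  ring

/-- The residue map at seven: `x ↦ x.re mod 7`. It is multiplicative since `√-7 ↦ 0`. -/
theorem exists_resHom : ∃ f : OZ p7 →+* ZMod 7,
    (∀ x : OZ p7, f ⟨star (x : E7 ℚ_[p7]), star_mem_OZ x.2⟩ = f x) ∧
    ∀ x y : OZ p7, ‖((x : E7 ℚ_[p7]).re - (y : E7 ℚ_[p7]).re) / 7‖ ≤ 1 ↔ f x = f y := by
  refine ⟨res7, res7_star, fun x y => ?_⟩
  rw [div_seven]
  exact (g7_eq ⟨(x : E7 ℚ_[(p7 : ℕ)]).re, (seven_int x.2).1⟩
    ⟨(y : E7 ℚ_[(p7 : ℕ)]).re, (seven_int y.2).1⟩).symm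

/-- Take `κ'` the residue of `κ`. By `tauM_seven_im` the number `trB l` is congruent modulo seven
to `4 uᵀ J B v`, where `v` and `u` are the columns `j` and `k` of `κ`. -/
theorem trB_tau {κ : M7 (E7 ℚ_[p7])} (hκ : IsUnit κ.det) (h1 : ∀ i j, κ i j ∈ OZ p7)
    (h2 : ∀ i j, κ⁻¹ i j ∈ OZ p7) :
    ∃ κ' : M7 (ZMod 7), IsUnit κ'.det ∧
      (∀ j k, (κᴴ * J7 (E7 ℚ_[p7]) * κ) j k = 0 → (κ'ᵀ * J7 (ZMod 7) * κ') j k = 0) ∧
      ∀ (j k : Fin 7) (l : U7 ℚ_[p7]), l.mat = tauM (κ.col j) (κ.col k) →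
        ‖trB l / 7‖ ≤ 1 → (κ'ᵀ * J7 (ZMod 7) * B7 * κ') k j = 0 := by
  obtain ⟨K, hK⟩ : ∃ K : M7 (OZ p7), K = fun i j => ⟨κ i j, h1 i j⟩ := ⟨_, rfl⟩
  obtain ⟨K', hK'⟩ : ∃ K' : M7 (OZ p7), K' = fun i j => ⟨κ⁻¹ i j, h2 i j⟩ := ⟨_, rfl⟩
  obtain ⟨Ks, hKs⟩ : ∃ Ks : M7 (OZ p7), Ks = fun i j => ⟨star (κ j i), star_mem_OZ (h1 j i)⟩ :=
    ⟨_, rfl⟩
  have mK : K.map (OZ p7).subtype = κ := by
    rw [hK]
    rfl
  have mK' : K'.map (OZ p7).subtype = κ⁻¹ := by
    rw [hK']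
    rfl
  have mKs : Ks.map (OZ p7).subtype = κᴴ := by
    rw [hKs]
    rfl
  have mJ : (J7 (OZ p7)).map (OZ p7).subtype = J7 (E7 ℚ_[(p7 : ℕ)]) := by
    refine Matrix.ext fun i j => ?_
    by_cases h : j = i.rev
    · simp [J7, h]
    · simp [J7, h]
  have rJ : (J7 (OZ p7)).map res7 = J7 (ZMod 7) := by
    refine Matrix.ext fun i j => ?_
    by_cases h : j = i.rev
    · simp [J7, h]
    · simp [J7, h]
  have rKs : Ks.map res7 = (K.map res7)ᵀ := by
    refine Matrix.ext fun i j => ?_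
    rw [Matrix.transpose_apply, Matrix.map_apply, Matrix.map_apply, hKs, hK]
    exact res7_star ⟨κ j i, h1 j i⟩
  have hinj : Function.Injective (OZ p7).subtype := Subtype.val_injective
  refine ⟨K.map res7, ?_, ?_, ?_⟩
  · have hKK : K * K' = 1 := by
      have h3 : (K * K').map (OZ p7).subtype = (1 : M7 (OZ p7)).map (OZ p7).subtype := by
        rw [Matrix.map_mul, mK, mK', Matrix.mul_nonsing_inv κ hκ,
          Matrix.map_one _ (map_zero _) (map_one _)]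
      exact Matrix.map_injective hinj h3
    have hd : IsUnit K.det := by
      have h3 := congrArg Matrix.det hKK
      rw [Matrix.det_mul, Matrix.det_one] at h3
      exact IsUnit.of_mul_eq_one _ h3
    have h3 : (K.map res7).det = res7 K.det := (RingHom.map_det res7 K).symm
    rw [h3]
    exact hd.map res7
  · intro j k hjk
    have h3 : (Ks * J7 (OZ p7) * K) j k = 0 := by
      apply hinj
      rw [map_zero, ← hjk, ← mKs, ← mJ, ← mK, ← Matrix.map_mul, ← Matrix.map_mul,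
        Matrix.map_apply]
    have h4 := congrArg res7 h3
    rw [map_zero, ← Matrix.map_apply (f := res7) (M := Ks * J7 (OZ p7) * K), Matrix.map_mul,
      Matrix.map_mul, rKs, rJ] at h4
    exact h4
  · intro j k l hl htr
    have hv : ∀ i, κ.col j i ∈ OZ p7 := fun i => h1 i j
    have hu : ∀ i, κ.col k i ∈ OZ p7 := fun i => h1 i k
    -- the imaginary parts of the entries of `l`
    obtain ⟨t, ht⟩ : ∃ t : Fin 7 → Fin 7 → ℤ_[(p7 : ℕ)], t = fun m i =>
        ⟨(l.mat m i).im, by rw [hl]; exact (tauM_int hv hu m i).2⟩ := ⟨_, rfl⟩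
    have hT : trB l = ((∑ i, ∑ m, (Bm i m : ℤ_[(p7 : ℕ)]) * t m i : ℤ_[(p7 : ℕ)]) :
        ℚ_[(p7 : ℕ)]) := by
      unfold trB
      rw [ht]
      push_cast
      rfl
    have hg : g7 (∑ i, ∑ m, (Bm i m : ℤ_[(p7 : ℕ)]) * t m i) = 0 := by
      rw [g7_zero, ← hT]
      exact (div_seven _).1 htr
    have hre : ∀ a b : Fin 7, (K.map res7) a b =
        g7 ⟨(κ a b).re, (seven_int (h1 a b)).1⟩ := by
      intro a b
      rw [Matrix.map_apply, hK]
      rfl
    have hgt : ∀ m i, g7 (t m i) = 2 * ((K.map res7) m k * (K.map res7) i.rev j +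
        (K.map res7) m j * (K.map res7) i.rev k) := by
      intro m i
      rw [hre, hre, hre, hre, ← map_mul, ← map_mul, ← map_add, ← map_ofNat g7 2, ← map_mul,
        g7_eq, ht]
      have h3 := tauM_seven_im hv hu m i
      rw [← hl] at h3
      push_cast
      exact h3
    rw [map_sum] at hg
    simp_rw [map_sum, map_mul, map_intCast, hgt] at hg
    -- the matrix `J B`
    obtain ⟨S, hS⟩ : ∃ S : M7 (ZMod 7), S = J7 (ZMod 7) * B7 := ⟨_, rfl⟩
    have hSs : ∀ a b, S a b = S b a := by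
      intro a b
      have h3 := congrFun (congrFun B7_selfAdj b) a
      rw [← hS, Matrix.transpose_apply] at h3
      exact h3
    have hSB : ∀ i m, ((Bm i m : ℤ) : ZMod 7) = S i.rev m := by
      intro i m
      rw [hS, Matrix.mul_apply, Finset.sum_eq_single i]
      · simp [J7, B7]
      · intro b _ hb
        simp [J7, hb]
      · intro h
        exact absurd (Finset.mem_univ _) h
    simp_rw [hSB] at hg
    obtain ⟨Q, hQ⟩ : ∃ Q : ZMod 7, Q = ∑ a, ∑ b, (K.map res7) a k * S a b * (K.map res7) b j :=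
      ⟨_, rfl⟩
    have hQ1 : ∑ i : Fin 7, ∑ m, S i.rev m * ((K.map res7) m j * (K.map res7) i.rev k) = Q := by
      rw [hQ]
      rw [← Equiv.sum_comp Fin.revPerm (fun a => ∑ b, (K.map res7) a k * S a b *
        (K.map res7) b j)]
      refine Finset.sum_congr rfl fun i _ => Finset.sum_congr rfl fun m _ => ?_
      rw [Fin.revPerm_apply]
      ring
    have hQ2 : ∑ i : Fin 7, ∑ m, S i.rev m * ((K.map res7) m k * (K.map res7) i.rev j) = Q := by
      rw [hQ, Finset.sum_comm (f := fun a b => (K.map res7) a k * S a b * (K.map res7) b j)]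
      rw [← Equiv.sum_comp Fin.revPerm (fun b => ∑ a, (K.map res7) a k * S a b *
        (K.map res7) b j)]
      refine Finset.sum_congr rfl fun i _ => Finset.sum_congr rfl fun m _ => ?_
      rw [Fin.revPerm_apply, hSs]
      ring
    have h4 : (4 : ZMod 7) * Q = 0 := by
      have h5 : ∑ i : Fin 7, ∑ m, S i.rev m * (2 * ((K.map res7) m k * (K.map res7) i.rev j +
          (K.map res7) m j * (K.map res7) i.rev k)) = 2 * Q + 2 * Q := by
        nth_rewrite 1 [← hQ2]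
        nth_rewrite 1 [← hQ1]
        rw [Finset.mul_sum, Finset.mul_sum, ← Finset.sum_add_distrib]
        refine Finset.sum_congr rfl fun i _ => ?_
        rw [Finset.mul_sum, Finset.mul_sum, ← Finset.sum_add_distrib]
        refine Finset.sum_congr rfl fun m _ => ?_
        ring
      rw [h5] at hg
      rw [← hg]
      ring
    have h5 : Q = 0 := by
      have h6 : (2 : ZMod 7) * (4 * Q) = Q := by
        rw [← mul_assoc]
        have : (2 : ZMod 7) * 4 = 1 := by decide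
        rw [this, one_mul]
      rw [← h6, h4, mul_zero]
    rw [Matrix.mul_assoc (K.map res7)ᵀ, ← hS, Matrix.mul_apply]
    rw [← h5, hQ, Finset.sum_comm]
    refine Finset.sum_congr rfl fun b _ => ?_
    rw [Matrix.mul_apply, Finset.sum_mul]
    rfl

end Pool.Agent.MPabcfcd
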