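import Pool.Agent.Lib.MP_abcfcd_nt.S.Red
import Pool.Agent.Lib.MP_abcfcd_nt.S.Cls
import Pool.Agent.Lib.MP_abcfcd_nt.S.Res
import Pool.Agent.Lib.MP_abcfcd_nt.S.Cpt

/-!
# The cusp lemma
-/

set_option autoImplicit false

open Matrix Topology

namespace Pool.Agent.MPabcfcd

/-- The matrix `1 + w`. -/
private noncomputable def Cusp_phi (w : Fin 7 → Fin 7 → ℂ) : M7 (E7 ℝ) :=
  Matrix.of fun a b => (1 : M7 (E7 ℝ)) a b + ⟨(w a b).re, (w a b).im / Real.sqrt 7⟩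

private theorem Cusp_cont : Continuous Cusp_phi := by
  refine continuous_pi fun a => continuous_pi fun b => ?_
  refine continuous_const.add (E7.continuous_mk ?_ ?_)
  · exact Complex.continuous_re.comp ((continuous_apply b).comp (continuous_apply a))
  · exact (Complex.continuous_im.comp
      ((continuous_apply b).comp (continuous_apply a))).div_const _

private theorem Cusp_phi_zero : Cusp_phi 0 = 1 := by
  refine Matrix.ext fun a b => ?_
  show (1 : M7 (E7 ℝ)) a b + ⟨((0 : Fin 7 → Fin 7 → ℂ) a b).re,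
    ((0 : Fin 7 → Fin 7 → ℂ) a b).im / Real.sqrt 7⟩ = (1 : M7 (E7 ℝ)) a b
  have h : (⟨((0 : Fin 7 → Fin 7 → ℂ) a b).re,
      ((0 : Fin 7 → Fin 7 → ℂ) a b).im / Real.sqrt 7⟩ : E7 ℝ) = 0 := by
    ext
    · simp
    · simp
  rw [h, add_zero]

private theorem Cusp_phi_toC (M : M7 (E7 ℝ)) :
    Cusp_phi (fun a b => E7.toC ((M - 1) a b)) = M := by
  refine Matrix.ext fun a b => ?_
  have h7 : Real.sqrt 7 ≠ 0 := (Real.sqrt_pos.2 (by norm_num)).ne'
  have hre : (E7.toC ((M - 1) a b)).re = ((M - 1) a b).re := by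
    rw [E7.toC_apply]
    simp
  have him : (E7.toC ((M - 1) a b)).im = ((M - 1) a b).im * Real.sqrt 7 := by
    rw [E7.toC_apply]
    simp
  show (1 : M7 (E7 ℝ)) a b + ⟨(E7.toC ((M - 1) a b)).re,
    (E7.toC ((M - 1) a b)).im / Real.sqrt 7⟩ = M a b
  rw [hre, him, mul_div_assoc, div_self h7, mul_one]
  have h1 : (⟨((M - 1) a b).re, ((M - 1) a b).im⟩ : E7 ℝ) = (M - 1) a b := rfl
  rw [h1, Matrix.sub_apply]
  ring

theorem exists_eps {U : Set (U7 ℝ)} (hU : U ∈ 𝓝 (1 : U7 ℝ)) : ∃ ε : ℝ, 0 < ε ∧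
    ∀ l : U7 ℝ, (∀ a b, ‖E7.toC ((l.mat - 1) a b)‖ ≤ ε) → l ∈ U := by
  rw [nhds_induced] at hU
  obtain ⟨V, hV, hVU⟩ := hU
  have h1 : Cusp_phi ⁻¹' V ∈ 𝓝 (0 : Fin 7 → Fin 7 → ℂ) := by
    refine Cusp_cont.continuousAt.preimage_mem_nhds ?_
    rw [Cusp_phi_zero]
    exact hV
  obtain ⟨ε, hε, hball⟩ := Metric.nhds_basis_closedBall.mem_iff.1 h1
  refine ⟨ε, hε, fun l hl => hVU ?_⟩
  have h2 : (fun a b => E7.toC ((l.mat - 1) a b)) ∈ Cusp_phi ⁻¹' V := by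
    refine hball ?_
    rw [mem_closedBall_zero_iff]
    exact (pi_norm_le_iff_of_nonneg hε.le).2 fun a =>
      (pi_norm_le_iff_of_nonneg hε.le).2 fun b => hl a b
  rw [Set.mem_preimage, Cusp_phi_toC] at h2
  exact h2

/-- The matrix of a conjugate of `τ (v, u)` under a ring homomorphism. -/
private theorem Cusp_conj {S : Type} [CommRing S] (f : AQ →+* S) (q : ℚ →+* S)
    (hq : f.comp ratAQ = q) (g : U7 AQ) (A : M7 (E7 ℚ)) (j k : Fin 7)
    (hv : hf (A.col j) (A.col j) = 0) (hu : hf (A.col j) (A.col k) = 0) :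
    (U7.map f (g * U7.map ratAQ (tau (A.col j) (A.col k) hv hu) * g⁻¹)).mat =
      tauM (((U7.map f g).mat * mapM q A).col j) (((U7.map f g).mat * mapM q A).col k) := by
  have hcol : ∀ j, ((U7.map f g).mat * mapM q A).col j =
      (U7.map f g).mat *ᵥ (fun i => E7.map q (A.col j i)) := by
    intro j
    rfl
  have hmap : (U7.map f (U7.map ratAQ (tau (A.col j) (A.col k) hv hu))).mat =
      mapM q (tauM (A.col j) (A.col k)) := by
    refine Matrix.ext fun a b => ?_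
    show E7.map f (E7.map ratAQ (tauM (A.col j) (A.col k) a b)) =
      E7.map q (tauM (A.col j) (A.col k) a b)
    rw [← hq]
    rfl
  rw [map_mul, map_mul, map_inv, U7.mat_mul, U7.mat_mul, hmap, map_tauM, conj_tauM, hcol, hcol]

/-- The Gram matrix of the component at a prime. -/
private theorem Cusp_gram (g : U7 AQ) (A : M7 (E7 ℚ)) (p : Nat.Primes) :
    (gp g p * mp p A)ᴴ * J7 (E7 ℚ_[p]) * (gp g p * mp p A) =
      mp p (Aᴴ * J7 (E7 ℚ) * A) := by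
  rw [mp_mul, mp_mul]
  have h1 : mp p Aᴴ = (mp p A)ᴴ := mapM_star _ _
  have h2 : mp p (J7 (E7 ℚ)) = J7 (E7 ℚ_[p]) := mapM_J _
  rw [h1, h2, Matrix.conjTranspose_mul]
  have h3 := gp_unitary g p
  calc (mp p A)ᴴ * (gp g p)ᴴ * J7 (E7 ℚ_[p]) * (gp g p * mp p A)
      = (mp p A)ᴴ * ((gp g p)ᴴ * J7 (E7 ℚ_[p]) * gp g p) * mp p A := by
        simp only [Matrix.mul_assoc]
    _ = (mp p A)ᴴ * J7 (E7 ℚ_[p]) * mp p A := by rw [h3]

private theorem Cusp_det (g : U7 AQ) (A : M7 (E7 ℚ)) (hA : IsUnit A.det) (p : Nat.Primes) :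
    IsUnit (gp g p * mp p A).det := by
  rw [Matrix.det_mul]
  refine IsUnit.mul ?_ ?_
  · have h := (U7.map (evp p) g).inv_mul_aux
    exact Matrix.isUnit_det_of_left_inverse h
  · have h : (mp p A).det = E7.map (Rat.castHom ℚ_[p]) A.det := by
      unfold mp mapM
      rw [RingHom.map_det]
      rfl
    rw [h]
    exact hA.map _

/-- The cuspidal case: `γ = τ (b_j, b_k)` for suitable columns `b_j`, `b_k` of `A` (`trB_tau` with
`κ = g A` and `no_flag`), and `g τ (v, u) g⁻¹ = τ (g v, g u)`. -/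
theorem cusp_case {ε : ℝ} (g : U7 AQ) (A : M7 (E7 ℚ)) (hA : IsUnit A.det)
    (h1 : ∀ p i j, (gp g p * mp p A) i j ∈ OZ p) (h2 : ∀ p i j, (gp g p * mp p A)⁻¹ i j ∈ OZ p)
    (i : ℕ) (hi : 1 ≤ i) (hi3 : i ≤ 3)
    (h : ∀ j k : Fin 7, j.val < i → k.val < 7 - i → (Aᴴ * J7 (E7 ℚ) * A) j k = 0 ∧
      cn (gC g * mQC A) j * cn (gC g * mQC A) k < ε) :
    ∃ γ ∈ Gam,
      (∀ a b, ‖E7.toC (((U7.map infAQ (g * γ * g⁻¹)).mat - 1) a b)‖ ≤ 200 * (ε + ε ^ 2)) ∧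
      (∀ p, U7.map (evp p) (g * γ * g⁻¹) ∈ KZ p) ∧ U7.map (evp p7) (g * γ * g⁻¹) ∈ JJ ∧
      ¬ ‖trB (U7.map (evp p7) (g * γ * g⁻¹)) / 7‖ ≤ 1 := by
  obtain ⟨κ', hκ', hJ, htr⟩ := trB_tau (κ := gp g p7 * mp p7 A) (Cusp_det g A hA p7)
    (h1 p7) (h2 p7)
  have hzero : ∀ j k : Fin 7, j.val < i → k.val < 7 - i →
      (κ'ᵀ * J7 (ZMod 7) * κ') j k = 0 := by
    intro j k hj hk
    refine hJ j k ?_
    rw [Cusp_gram]
    show E7.map (Rat.castHom ℚ_[p7]) ((Aᴴ * J7 (E7 ℚ) * A) j k) = 0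
    rw [(h j k hj hk).1, map_zero]
  obtain ⟨j, k, hj, hk, hne⟩ := no_flag κ' hκ' i hi hi3 hzero
  have hv : hf (A.col j) (A.col j) = 0 := by
    rw [← gram_apply]
    exact (h j j hj (by omega)).1
  have hu : hf (A.col j) (A.col k) = 0 := by
    rw [← gram_apply]
    exact (h j k hj hk).1
  have hp : ∀ p, (U7.map (evp p) (g * U7.map ratAQ (tau (A.col j) (A.col k) hv hu) * g⁻¹)).mat =
      tauM ((gp g p * mp p A).col j) ((gp g p * mp p A).col k) := fun p =>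
    Cusp_conj (evp p) (Rat.castHom ℚ_[p]) (Subsingleton.elim _ _) g A j k hv hu
  have hK : ∀ p, U7.map (evp p) (g * U7.map ratAQ (tau (A.col j) (A.col k) hv hu) * g⁻¹) ∈
      KZ p := by
    intro p a b
    rw [hp p]
    exact tauM_int (fun a => h1 p a j) (fun a => h1 p a k) a b
  refine ⟨U7.map ratAQ (tau (A.col j) (A.col k) hv hu), ⟨_, rfl⟩, ?_, hK, ⟨hK p7, ?_⟩, ?_⟩
  · intro a b
    rw [Cusp_conj infAQ (Rat.castHom ℝ) (Subsingleton.elim _ _) g A j k hv hu]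
    refine (tauM_inf _ _ a b).trans ?_
    have hgC : gC g * mQC A = ((U7.map infAQ g).mat * mapM (Rat.castHom ℝ) A).map E7.toC := by
      rw [Matrix.map_mul]
      rfl
    have hs := (h j k hj hk).2
    rw [hgC] at hs
    have hs' : Real.sqrt (∑ l, ‖E7.toC ((((U7.map infAQ g).mat *
        mapM (Rat.castHom ℝ) A).col j) l)‖ ^ 2) *
        Real.sqrt (∑ l, ‖E7.toC ((((U7.map infAQ g).mat *
        mapM (Rat.castHom ℝ) A).col k) l)‖ ^ 2) < ε := hs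
    have h0 := mul_nonneg
      (Real.sqrt_nonneg (∑ l, ‖E7.toC ((((U7.map infAQ g).mat *
        mapM (Rat.castHom ℝ) A).col j) l)‖ ^ 2))
      (Real.sqrt_nonneg (∑ l, ‖E7.toC ((((U7.map infAQ g).mat *
        mapM (Rat.castHom ℝ) A).col k) l)‖ ^ 2))
    gcongr
  · intro a b
    rw [hp p7]
    exact tauM_seven_re (fun a => h1 p7 a j) (fun a => h1 p7 a k) a b
  · intro hle
    exact hne (htr j k _ (hp p7) hle)

/-- The cusp lemma: `class_one`, `gram_integral`, `red_alt` for `Y = gC g * mQC A`, and the two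
cases. -/
theorem cusp_lemma {U : Set (U7 ℝ)} (hU : U ∈ 𝓝 (1 : U7 ℝ)) : ∃ C : Set (U7 AQ), IsCompact C ∧
    ∀ g : U7 AQ, (∀ γ ∈ Gam, g * γ ∉ C) → ∃ γ ∈ Gam, U7.map infAQ (g * γ * g⁻¹) ∈ U ∧
      (∀ p, U7.map (evp p) (g * γ * g⁻¹) ∈ KZ p) ∧ U7.map (evp p7) (g * γ * g⁻¹) ∈ JJ ∧
      ¬ ‖trB (U7.map (evp p7) (g * γ * g⁻¹)) / 7‖ ≤ 1 := by
  obtain ⟨ε0, hε0, hU0⟩ := exists_eps hU
  set ε : ℝ := min 1 (ε0 / 400) with hεdef
  have hε : 0 < ε := lt_min one_pos (by positivity)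
  have hε1 : ε ≤ 1 := min_le_left _ _
  have hε2 : ε ≤ ε0 / 400 := min_le_right _ _
  have hε3 : 200 * (ε + ε ^ 2) ≤ ε0 := by nlinarith
  obtain ⟨B, hB⟩ := red_alt hε
  obtain ⟨C, hC, hbd⟩ := bounded_case B
  refine ⟨C, hC, fun g hg => ?_⟩
  obtain ⟨A, hA, h1, h2⟩ := class_one g
  obtain ⟨H, hH, hAH⟩ := gram_integral g A hA h1 h2
  have hY : (gC g * mQC A)ᴴ * J7 ℂ * (gC g * mQC A) = mC H := by
    rw [Matrix.conjTranspose_mul, ← mQC_mQ, ← hAH, mQC_mul, mQC_mul, mQC_conj, mQC_J]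
    have h3 := gC_unitary g
    calc (mQC A)ᴴ * (gC g)ᴴ * J7 ℂ * (gC g * mQC A)
        = (mQC A)ᴴ * ((gC g)ᴴ * J7 ℂ * gC g) * mQC A := by simp only [Matrix.mul_assoc]
      _ = (mQC A)ᴴ * J7 ℂ * mQC A := by rw [h3]
  obtain ⟨A', hA', halt⟩ := hB (gC g * mQC A) H hH hY
  have hAA : gC g * mQC (A * mQ A') = gC g * mQC A * mC A' := by
    rw [mQC_mul, mQC_mQ, Matrix.mul_assoc]
  have hdet : IsUnit (A * mQ A').det := by
    rw [Matrix.det_mul, det_mQ]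
    exact hA.mul (hA'.map _)
  have hgram : (A * mQ A')ᴴ * J7 (E7 ℚ) * (A * mQ A') = mQ (A'ᴴ * H * A') := by
    rw [Matrix.conjTranspose_mul, mQ_mul, mQ_mul, mQ_conj, ← hAH]
    simp only [Matrix.mul_assoc]
  have hmem : ∀ (M : M7 OE) (p : Nat.Primes) (a b : Fin 7), mp p (mQ M) a b ∈ OZ p :=
    fun M p a b => toQ_mem_OZ (M a b) p
  have h1' : ∀ p a b, (gp g p * mp p (A * mQ A')) a b ∈ OZ p := by
    intro p a b
    rw [mp_mul, ← Matrix.mul_assoc, Matrix.mul_apply]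
    exact Subring.sum_mem _ fun c _ => Subring.mul_mem _ (h1 p a c) (hmem A' p c b)
  have h2' : ∀ p a b, (gp g p * mp p (A * mQ A'))⁻¹ a b ∈ OZ p := by
    intro p a b
    have hinv : (mp p (mQ A'))⁻¹ = mp p (mQ A'⁻¹) := by
      refine Matrix.inv_eq_right_inv ?_
      rw [← mp_mul, ← mQ_mul, Matrix.mul_nonsing_inv A' hA']
      have e1 : mQ (1 : M7 OE) = 1 := by
        unfold mQ
        exact Matrix.map_one _ (map_zero _) (map_one _)
      rw [e1]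
      unfold mp mapM
      exact Matrix.map_one _ (map_zero _) (map_one _)
    rw [mp_mul, ← Matrix.mul_assoc, Matrix.mul_inv_rev, hinv, Matrix.mul_apply]
    exact Subring.sum_mem _ fun c _ => Subring.mul_mem _ (hmem A'⁻¹ p a c) (h2 p c b)
  rcases halt with hbound | ⟨i, hi, hi3, hcusp⟩
  · obtain ⟨γ, hγ, hmemC⟩ := hbd g (A * mQ A') (A'ᴴ * H * A') hdet hgram
      (fun a b => by rw [hAA]; exact hbound a b) h1'
    exact absurd hmemC (hg γ hγ)
  · obtain ⟨γ, hγ, hinf, hKZ, hJJ, htr⟩ := cusp_case (ε := ε) g (A * mQ A') hdet h1' h2' i hi hi3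
      (by
        intro j k hj hk
        obtain ⟨h3, h4⟩ := hcusp j k hj hk
        refine ⟨?_, ?_⟩
        · rw [hgram]
          show OE.toQ ((A'ᴴ * H * A') j k) = 0
          rw [h3, map_zero]
        · rw [hAA]
          exact h4)
    exact ⟨γ, hγ, hU0 _ fun a b => (hinf a b).trans hε3, hKZ, hJJ, htr⟩

end Pool.Agent.MPabcfcd
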