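import Pool.Agent.Lib.MP_abcfcd_nt.S.OE

/-!
# Minimal vectors of positive definite Hermitian forms over the ring of integers
-/

set_option autoImplicit false

open Matrix Topology
open scoped ComplexOrder

namespace Pool.Agent.MPabcfcd

/-- The complex matrix of a matrix over the ring of integers. -/
noncomputable def mC {m n : Type*} (A : Matrix m n OE) : Matrix m n ℂ := A.map OE.toC

theorem mC_mul {l m n : Type*} [Fintype m] (A : Matrix l m OE) (B : Matrix m n OE) :
    mC (A * B) = mC A * mC B := by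
  unfold mC
  exact Matrix.map_mul

theorem mC_conj {m n : Type*} (A : Matrix m n OE) : mC Aᴴ = (mC A)ᴴ := by
  refine Matrix.ext fun i j => ?_
  simp [mC, Matrix.conjTranspose_apply, OE.toC_star]

theorem det_mC {n : Type*} [Fintype n] [DecidableEq n] (A : Matrix n n OE) :
    (mC A).det = OE.toC A.det := by
  unfold mC
  rw [RingHom.map_det]
  rfl

/-- the form -/
private noncomputable def Herm1_f {n : ℕ} (H : Matrix (Fin n) (Fin n) ℂ) (w : Fin n → ℂ) : ℝ :=
  (star w ⬝ᵥ H *ᵥ w).re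

private theorem Herm1_smul {n : ℕ} (H : Matrix (Fin n) (Fin n) ℂ) (t : ℝ) (w : Fin n → ℂ) :
    Herm1_f H ((t : ℂ) • w) = t ^ 2 * Herm1_f H w := by
  unfold Herm1_f
  rw [star_smul, Matrix.mulVec_smul, smul_dotProduct, dotProduct_smul, smul_smul, smul_eq_mul]
  have h1 : star (t : ℂ) * (t : ℂ) = ((t ^ 2 : ℝ) : ℂ) := by
    rw [Complex.star_def, Complex.conj_ofReal]
    push_cast
    ring
  rw [h1, Complex.re_ofReal_mul]

private theorem Herm1_cont {n : ℕ} (H : Matrix (Fin n) (Fin n) ℂ) : Continuous (Herm1_f H) := by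
  unfold Herm1_f
  exact Complex.continuous_re.comp (by fun_prop)

private theorem Herm1_lower {n : ℕ} {H : Matrix (Fin n) (Fin n) ℂ} (hH : H.PosDef) :
    ∃ c : ℝ, 0 < c ∧ ∀ w : Fin n → ℂ, c * ‖w‖ ^ 2 ≤ Herm1_f H w := by
  rcases (Metric.sphere (0 : Fin n → ℂ) 1).eq_empty_or_nonempty with he | hne
  · refine ⟨1, one_pos, fun w => ?_⟩
    have hw : w = 0 := by
      by_contra hw
      have h1 : ((‖w‖⁻¹ : ℝ) : ℂ) • w ∈ Metric.sphere (0 : Fin n → ℂ) 1 := by
        rw [mem_sphere_zero_iff_norm, norm_smul, Complex.norm_real, norm_inv, norm_norm]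
        exact inv_mul_cancel₀ (norm_ne_zero_iff.2 hw)
      rw [he] at h1
      exact h1
    rw [hw]
    simp [Herm1_f]
  · obtain ⟨u, hu, hmin⟩ := (isCompact_sphere (0 : Fin n → ℂ) 1).exists_isMinOn hne
      (Herm1_cont H).continuousOn
    have hu0 : u ≠ 0 := by
      intro h
      rw [h, mem_sphere_zero_iff_norm, norm_zero] at hu
      exact zero_ne_one hu
    refine ⟨Herm1_f H u, hH.re_dotProduct_pos hu0, fun w => ?_⟩
    by_cases hw : w = 0
    · rw [hw]
      simp [Herm1_f]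
    · have hw' : ‖w‖ ≠ 0 := norm_ne_zero_iff.2 hw
      have h1 : ((‖w‖⁻¹ : ℝ) : ℂ) • w ∈ Metric.sphere (0 : Fin n → ℂ) 1 := by
        rw [mem_sphere_zero_iff_norm, norm_smul, Complex.norm_real, norm_inv, norm_norm]
        exact inv_mul_cancel₀ hw'
      have h2 : Herm1_f H u ≤ Herm1_f H (((‖w‖⁻¹ : ℝ) : ℂ) • w) := hmin h1
      rw [Herm1_smul] at h2
      have h3 : 0 < ‖w‖ ^ 2 := by positivity
      calc Herm1_f H u * ‖w‖ ^ 2 ≤ (‖w‖⁻¹ ^ 2 * Herm1_f H w) * ‖w‖ ^ 2 :=
            mul_le_mul_of_nonneg_right h2 h3.le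
        _ = Herm1_f H w := by field_simp

/-- There are only finitely many vectors of bounded length with entries in the ring of integers:
`(v* H v) ≥ c |v|²` with `c > 0` since `H` is positive definite (compactness of the unit sphere,
or the smallest eigenvalue), and `OE.finite_norm_le`. -/
theorem finite_short {n : ℕ} {H : Matrix (Fin n) (Fin n) ℂ} (hH : H.PosDef) (r : ℝ) :
    {v : Fin n → OE | (star (fun i => OE.toC (v i)) ⬝ᵥ H *ᵥ (fun i => OE.toC (v i))).re ≤ r}.Finite := by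
  obtain ⟨c, hc, hl⟩ := Herm1_lower hH
  refine (Set.Finite.pi' fun _ : Fin n => OE.finite_norm_le (Real.sqrt (r / c))).subset ?_
  intro v hv i
  have h1 := hl fun i => OE.toC (v i)
  have h2 : ‖OE.toC (v i)‖ ≤ ‖fun i => OE.toC (v i)‖ := norm_le_pi_norm (fun i => OE.toC (v i)) i
  have h3 : Herm1_f H (fun i => OE.toC (v i)) ≤ r := hv
  refine Real.le_sqrt_of_sq_le ?_
  rw [le_div_iff₀ hc]
  have h4 : ‖OE.toC (v i)‖ ^ 2 ≤ ‖fun i => OE.toC (v i)‖ ^ 2 :=
    pow_le_pow_left₀ (norm_nonneg _) h2 2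
  nlinarith

/-- Among all columns of all unimodular matrices there is a shortest one; by a permutation of the
columns it can be made the column `0`. -/
theorem exists_min_col {n : ℕ} {H : Matrix (Fin (n + 1)) (Fin (n + 1)) ℂ} (hH : H.PosDef) :
    ∃ A : Matrix (Fin (n + 1)) (Fin (n + 1)) OE, IsUnit A.det ∧
      ∀ A' : Matrix (Fin (n + 1)) (Fin (n + 1)) OE, IsUnit A'.det → ∀ j,
        (((mC A)ᴴ * H * mC A) 0 0).re ≤ (((mC A')ᴴ * H * mC A') j j).re := by
  classical
  let f : (Fin (n + 1) → OE) → ℝ := fun v => Herm1_f H fun i => OE.toC (v i)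
  have hval : ∀ (A : Matrix (Fin (n + 1)) (Fin (n + 1)) OE) (j : Fin (n + 1)),
      (((mC A)ᴴ * H * mC A) j j).re = f fun i => A i j := by
    intro A j
    show _ = (star (fun i => OE.toC (A i j)) ⬝ᵥ H *ᵥ fun i => OE.toC (A i j)).re
    rw [Matrix.mul_assoc, Matrix.mul_apply']
    rfl
  let V : Set (Fin (n + 1) → OE) := {v | ∃ (A : Matrix (Fin (n + 1)) (Fin (n + 1)) OE),
    IsUnit A.det ∧ ∃ j, v = fun i => A i j}
  let v1 : Fin (n + 1) → OE := fun i => (1 : Matrix (Fin (n + 1)) (Fin (n + 1)) OE) i 0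
  have hv1 : v1 ∈ V := ⟨1, by rw [Matrix.det_one]; exact isUnit_one, 0, rfl⟩
  have hfin : (V ∩ {v | f v ≤ f v1}).Finite := (finite_short hH (f v1)).subset fun v hv => hv.2
  obtain ⟨v0, ⟨hv0, hv01⟩, hmin⟩ := Set.exists_min_image (V ∩ {v | f v ≤ f v1}) f hfin
    ⟨v1, hv1, le_refl (f v1)⟩
  have hmin' : ∀ v ∈ V, f v0 ≤ f v := by
    intro v hv
    rcases le_total (f v) (f v1) with h | h
    · exact hmin v ⟨hv, h⟩
    · exact hv01.trans h
  obtain ⟨A, hA, j, hj⟩ := hv0
  refine ⟨A.submatrix id (Equiv.swap 0 j), ?_, fun A' hA' j' => ?_⟩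
  · rw [Matrix.det_permute']
    exact (by
      rcases Int.units_eq_one_or (Equiv.Perm.sign (Equiv.swap 0 j)) with h | h <;> rw [h] <;> simp :
      IsUnit (((Equiv.Perm.sign (Equiv.swap 0 j) : ℤˣ) : ℤ) : OE)).mul hA
  · rw [hval, hval]
    have h1 : (fun i => A.submatrix id (Equiv.swap 0 j) i 0) = v0 := by
      rw [hj]
      funext i
      rw [Matrix.submatrix_apply, Equiv.swap_apply_left]
      rfl
    rw [h1]
    exact hmin' _ ⟨A', hA', j', rfl⟩

end Pool.Agent.MPabcfcd
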