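import Pool.Agent.Lib.MP_abcfcd_nt.S.Herm1

/-!
# Schur complements
-/

set_option autoImplicit false

open Matrix Topology
open scoped ComplexOrder

namespace Pool.Agent.MPabcfcd

/-- The Schur complement of the corner `H 0 0`. -/
noncomputable def schur {n : ℕ} (H : Matrix (Fin (n + 1)) (Fin (n + 1)) ℂ) :
    Matrix (Fin n) (Fin n) ℂ :=
  Matrix.of fun i j => H i.succ j.succ - H i.succ 0 * (H 0 0)⁻¹ * H 0 j.succ

private theorem h00_pos {n : ℕ} {H : Matrix (Fin (n + 1)) (Fin (n + 1)) ℂ} (hH : H.PosDef) :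
    0 < H 0 0 := hH.diag_pos

private theorem h00_ne {n : ℕ} {H : Matrix (Fin (n + 1)) (Fin (n + 1)) ℂ} (hH : H.PosDef) :
    H 0 0 ≠ 0 := (h00_pos hH).ne'

/-- the elimination matrix -/
private noncomputable def elB {n : ℕ} (H : Matrix (Fin (n + 1)) (Fin (n + 1)) ℂ) :
    Matrix (Fin (n + 1)) (Fin n) ℂ :=
  Matrix.of (Fin.cons (fun j => -((H 0 0)⁻¹ * H 0 j.succ)) fun i j => if i = j then 1 else 0)

private theorem elB_zero {n : ℕ} (H : Matrix (Fin (n + 1)) (Fin (n + 1)) ℂ) (j : Fin n) :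
    elB H 0 j = -((H 0 0)⁻¹ * H 0 j.succ) := rfl

private theorem elB_succ {n : ℕ} (H : Matrix (Fin (n + 1)) (Fin (n + 1)) ℂ) (i j : Fin n) :
    elB H i.succ j = if i = j then 1 else 0 := rfl

private theorem elB_mul {n : ℕ} (H : Matrix (Fin (n + 1)) (Fin (n + 1)) ℂ)
    (k : Fin (n + 1)) (j : Fin n) :
    (H * elB H) k j = H k j.succ - H k 0 * (H 0 0)⁻¹ * H 0 j.succ := by
  rw [Matrix.mul_apply, Fin.sum_univ_succ, elB_zero]
  simp only [elB_succ, mul_ite, mul_one, mul_zero, Finset.sum_ite_eq', Finset.mem_univ, if_true]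
  ring

private theorem elB_schur {n : ℕ} {H : Matrix (Fin (n + 1)) (Fin (n + 1)) ℂ} (hH : H.PosDef) :
    (elB H)ᴴ * H * elB H = schur H := by
  ext i j
  have h0 := h00_ne hH
  rw [Matrix.mul_assoc, Matrix.mul_apply, Fin.sum_univ_succ]
  have h1 : (H * elB H) 0 j = 0 := by
    rw [elB_mul, mul_inv_cancel₀ h0, one_mul, sub_self]
  rw [h1, mul_zero, zero_add]
  simp only [Matrix.conjTranspose_apply, elB_succ, elB_mul]
  simp [schur]

theorem schur_posDef {n : ℕ} {H : Matrix (Fin (n + 1)) (Fin (n + 1)) ℂ} (hH : H.PosDef) :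
    (schur H).PosDef := by
  rw [← elB_schur hH]
  refine hH.conjTranspose_mul_mul_same fun x y hxy => ?_
  funext i
  have h1 := congrFun hxy i.succ
  simpa [Matrix.mulVec, dotProduct, elB_succ] using h1

/-- the square elimination matrix -/
private noncomputable def elP {n : ℕ} (H : Matrix (Fin (n + 1)) (Fin (n + 1)) ℂ) :
    Matrix (Fin (n + 1)) (Fin (n + 1)) ℂ :=
  Matrix.of fun i => Fin.cons (if i = 0 then 1 else 0) fun j => elB H i j

private theorem elP_det {n : ℕ} (H : Matrix (Fin (n + 1)) (Fin (n + 1)) ℂ) :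
    (elP H).det = 1 := by
  rw [Matrix.det_succ_column_zero, Fin.sum_univ_succ]
  have h1 : (elP H).submatrix (Fin.succAbove 0) Fin.succ = 1 := by
    ext i j
    simp [elP, elB_succ, Matrix.one_apply]
  rw [h1]
  simp [elP]

theorem det_schur {n : ℕ} {H : Matrix (Fin (n + 1)) (Fin (n + 1)) ℂ} (hH : H.PosDef) :
    H.det = H 0 0 * (schur H).det := by
  have h0 := h00_ne hH
  have h1 : H.det = (H * elP H).det := by rw [Matrix.det_mul, elP_det, mul_one]
  have h2 : ∀ k j, (H * elP H) k (Fin.succ j) = (H * elB H) k j := by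
    intro k j
    rw [Matrix.mul_apply, Matrix.mul_apply]
    rfl
  have h3 : (H * elP H) 0 0 = H 0 0 := by
    rw [Matrix.mul_apply, Fin.sum_univ_succ]
    simp [elP]
  rw [h1, Matrix.det_succ_row_zero, Fin.sum_univ_succ]
  have h4 : ∀ j : Fin n, (H * elP H) 0 j.succ = 0 := by
    intro j
    rw [h2, elB_mul, mul_inv_cancel₀ h0, one_mul, sub_self]
  have h5 : (H * elP H).submatrix Fin.succ (Fin.succAbove 0) = schur H := by
    ext i j
    rw [Matrix.submatrix_apply, Fin.succAbove_zero, h2, elB_mul]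
    rfl
  rw [h5, h3]
  simp [h4]

/-- The matrix with the first row `(1, q)`, the first column `(1, 0)` and the block `A`. -/
def bor {n : ℕ} (q : Fin n → OE) (A : Matrix (Fin n) (Fin n) OE) :
    Matrix (Fin (n + 1)) (Fin (n + 1)) OE :=
  Matrix.of (Fin.cons (Fin.cons 1 q) fun i => Fin.cons 0 (A i))

theorem det_bor {n : ℕ} (q : Fin n → OE) (A : Matrix (Fin n) (Fin n) OE) :
    (bor q A).det = A.det := by
  rw [Matrix.det_succ_column_zero, Fin.sum_univ_succ]
  have h1 : (bor q A).submatrix (Fin.succAbove 0) Fin.succ = A := by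
    exact Matrix.ext fun i j => by simp [bor]
  rw [h1]
  simp [bor]

theorem bor_zero {n : ℕ} (q : Fin n → OE) (A : Matrix (Fin n) (Fin n) OE)
    (H : Matrix (Fin (n + 1)) (Fin (n + 1)) ℂ) :
    ((mC (bor q A))ᴴ * H * mC (bor q A)) 0 0 = H 0 0 := by
  rw [Matrix.mul_assoc, Matrix.mul_apply, Fin.sum_univ_succ]
  have h1 : ∀ k, (H * mC (bor q A)) k 0 = H k 0 := by
    intro k
    rw [Matrix.mul_apply, Fin.sum_univ_succ]
    simp [bor, mC]
  simp only [h1]
  simp [bor, mC]

/-- Completing the square: with `s j = (H 0 0)⁻¹ ∑ i, H 0 i.succ * A i j`, the entry at `j.succ` is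
the one of the Schur complement plus `H 0 0 * |q j + s j| ^ 2`. -/
theorem bor_succ {n : ℕ} (q : Fin n → OE) (A : Matrix (Fin n) (Fin n) OE)
    {H : Matrix (Fin (n + 1)) (Fin (n + 1)) ℂ} (hH : H.PosDef) (j : Fin n) :
    (((mC (bor q A))ᴴ * H * mC (bor q A)) j.succ j.succ).re =
      (((mC A)ᴴ * schur H * mC A) j j).re +
        (H 0 0).re * ‖OE.toC (q j) + (H 0 0)⁻¹ * ∑ i, H 0 i.succ * OE.toC (A i j)‖ ^ 2 := by
  have h0 := h00_ne hH
  set a : Fin n → ℂ := fun i => OE.toC (A i j) with ha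
  set t : ℂ := ∑ i, H 0 i.succ * a i with ht
  set z : ℂ := OE.toC (q j) with hz
  have hr : ((H 0 0).re : ℂ) = H 0 0 := by
    have := (h00_pos hH)
    rw [Complex.lt_def] at this
    apply Complex.ext
    · simp
    · simpa using this.2
  have hherm : ∀ k l, star (H k l) = H l k := fun k l => hH.1.apply l k
  have hstar : star t = ∑ i, star (a i) * H i.succ 0 := by
    rw [ht, star_sum]
    refine Finset.sum_congr rfl fun i _ => ?_
    rw [star_mul', hherm, mul_comm]
  have e1 : ((mC (bor q A))ᴴ * H * mC (bor q A)) j.succ j.succ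
      = star z * (H 0 0 * z + t) + ∑ i, star (a i) * (H i.succ 0 * z
        + ∑ l, H i.succ l.succ * a l) := by
    rw [Matrix.mul_assoc, Matrix.mul_apply, Fin.sum_univ_succ]
    have h1 : ∀ k, (H * mC (bor q A)) k j.succ = H k 0 * z + ∑ l, H k l.succ * a l := by
      intro k
      rw [Matrix.mul_apply, Fin.sum_univ_succ]
      simp [bor, mC, ha, hz]
    simp only [h1]
    simp [bor, mC, ha, hz, ht]
  have e2 : ((mC A)ᴴ * schur H * mC A) j j
      = ∑ i, star (a i) * (∑ l, H i.succ l.succ * a l) - star t * (H 0 0)⁻¹ * t := by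
    rw [Matrix.mul_assoc, Matrix.mul_apply]
    have h1 : ∀ i, (schur H * mC A) i j = ∑ l, H i.succ l.succ * a l
        - H i.succ 0 * (H 0 0)⁻¹ * t := by
      intro i
      rw [Matrix.mul_apply, ht, Finset.mul_sum, ← Finset.sum_sub_distrib]
      refine Finset.sum_congr rfl fun l _ => ?_
      simp only [schur, Matrix.of_apply, mC, Matrix.map_apply, ha]
      ring
    simp only [h1, mul_sub, Finset.sum_sub_distrib]
    congr 1
    rw [hstar, Finset.sum_mul, Finset.sum_mul]
    refine Finset.sum_congr rfl fun i _ => ?_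
    simp only [Matrix.conjTranspose_apply, mC, Matrix.map_apply, ha]
    ring
  have e3 : (((H 0 0).re * ‖z + (H 0 0)⁻¹ * t‖ ^ 2 : ℝ) : ℂ)
      = H 0 0 * (star (z + (H 0 0)⁻¹ * t) * (z + (H 0 0)⁻¹ * t)) := by
    push_cast
    rw [hr]
    congr 1
    rw [← Complex.conj_mul']
    rfl
  have hinv : star ((H 0 0)⁻¹) = (H 0 0)⁻¹ := by
    rw [star_inv₀, hherm]
  have e4 : ((mC (bor q A))ᴴ * H * mC (bor q A)) j.succ j.succ
      = ((mC A)ᴴ * schur H * mC A) j j + (((H 0 0).re * ‖z + (H 0 0)⁻¹ * t‖ ^ 2 : ℝ) : ℂ) := by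
    rw [e1, e2, e3, star_add, star_mul', hinv]
    have h2 : ∑ i, star (a i) * (H i.succ 0 * z + ∑ l, H i.succ l.succ * a l)
        = star t * z + ∑ i, star (a i) * ∑ l, H i.succ l.succ * a l := by
      rw [hstar, Finset.sum_mul, ← Finset.sum_add_distrib]
      refine Finset.sum_congr rfl fun i _ => ?_
      ring
    rw [h2]
    field_simp
    ring
  rw [e4, Complex.add_re, Complex.ofReal_re]

end Pool.Agent.MPabcfcd
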