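import Pool.Agent.Lib.MP_abcfcd_nt.S.Herm2

/-!
# Reduction of positive definite Hermitian forms over the ring of integers
-/

set_option autoImplicit false

open Matrix Topology
open scoped ComplexOrder

namespace Pool.Agent.MPabcfcd

/-- Induction on `n`. Take `A₀` with the shortest possible column `0` (`exists_min_col`), put
`H₀ = A₀* H A₀`, `a = H₀ 0 0`, take `A'` for the Schur complement `S` of `H₀` by induction, and `q`
with `|q j + s j| ^ 2 ≤ 11 / 16` by `OE.exists_near`. The columns of `A₀ * bor q A'` have squared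
lengths `a` and `S' j j + a |q j + s j| ^ 2`, and all of them are at least `a` by minimality, so
`a ≤ (16 / 5) S' j j` and the squared length is at most `(16 / 5) S' j j`. The constants are
`C (n + 1) = (16 / 5) ^ n * C n`, and `det H₀ = det H` up to the absolute value of the square of a
unit, which is `1`. -/
theorem herm_red (n : ℕ) : ∃ C : ℝ, 0 < C ∧ ∀ H : Matrix (Fin n) (Fin n) ℂ, H.PosDef →
    ∃ A : Matrix (Fin n) (Fin n) OE, IsUnit A.det ∧
      ∏ j, (((mC A)ᴴ * H * mC A) j j).re ≤ C * H.det.re := by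
  induction n with
  | zero =>
    refine ⟨1, one_pos, fun H _ => ⟨1, by simp, ?_⟩⟩
    simp
  | succ n ih =>
    obtain ⟨C, hC, ih⟩ := ih
    refine ⟨(16 / 5) ^ n * C, by positivity, fun H hH => ?_⟩
    obtain ⟨A₀, hA₀, hmin⟩ := exists_min_col hH
    have hn1 : ‖(mC A₀).det‖ = 1 := by
      rw [det_mC]
      exact OE.norm_of_isUnit hA₀
    have hu : IsUnit (mC A₀) := by
      rw [Matrix.isUnit_iff_isUnit_det, isUnit_iff_ne_zero]
      intro h0
      rw [h0, norm_zero] at hn1
      exact zero_ne_one hn1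
    have hP : ((mC A₀)ᴴ * H * mC A₀).PosDef :=
      hH.conjTranspose_mul_mul_same (Matrix.mulVec_injective_iff_isUnit.2 hu)
    have hdet : ((mC A₀)ᴴ * H * mC A₀).det = H.det := by
      rw [Matrix.det_mul, Matrix.det_mul, Matrix.det_conjTranspose]
      have h1 : star (mC A₀).det * (mC A₀).det = 1 := by
        rw [Complex.star_def, mul_comm, Complex.mul_conj, Complex.normSq_eq_norm_sq, hn1]
        norm_num
      calc star (mC A₀).det * H.det * (mC A₀).det
          = (star (mC A₀).det * (mC A₀).det) * H.det := by ring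
        _ = H.det := by rw [h1, one_mul]
    have hmin' : ∀ A' : Matrix (Fin (n + 1)) (Fin (n + 1)) OE, IsUnit A'.det → ∀ j,
        (((mC A₀)ᴴ * H * mC A₀) 0 0).re ≤
          (((mC A')ᴴ * ((mC A₀)ᴴ * H * mC A₀) * mC A') j j).re := by
      intro A' hA' j
      have h1 := hmin (A₀ * A') (by rw [Matrix.det_mul]; exact hA₀.mul hA') j
      have h2 : (mC (A₀ * A'))ᴴ * H * mC (A₀ * A') =
          (mC A')ᴴ * ((mC A₀)ᴴ * H * mC A₀) * mC A' := by
        rw [mC_mul, Matrix.conjTranspose_mul]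
        simp only [Matrix.mul_assoc]
      rw [h2] at h1
      exact h1
    generalize hH₀ : (mC A₀)ᴴ * H * mC A₀ = H₀ at hP hdet hmin'
    have ha := hP.diag_pos (i := 0)
    rw [Complex.pos_iff] at ha
    obtain ⟨ha0, ha1⟩ := ha
    obtain ⟨A', hA', hprod⟩ := ih (schur H₀) (schur_posDef hP)
    have hq : ∀ j : Fin n, ∃ q : OE,
        ‖OE.toC q + (H₀ 0 0)⁻¹ * ∑ i, H₀ 0 i.succ * OE.toC (A' i j)‖ ^ 2 ≤ 11 / 16 := by
      intro j
      obtain ⟨q, hq⟩ := OE.exists_near (-((H₀ 0 0)⁻¹ * ∑ i, H₀ 0 i.succ * OE.toC (A' i j)))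
      refine ⟨q, ?_⟩
      rw [← norm_neg, neg_sub, sub_neg_eq_add] at hq
      exact hq
    choose q hq using hq
    have hbor : IsUnit (bor q A').det := by rw [det_bor]; exact hA'
    refine ⟨A₀ * bor q A', by rw [Matrix.det_mul]; exact hA₀.mul hbor, ?_⟩
    have h2 : (mC (A₀ * bor q A'))ᴴ * H * mC (A₀ * bor q A') =
        (mC (bor q A'))ᴴ * H₀ * mC (bor q A') := by
      rw [mC_mul, Matrix.conjTranspose_mul, ← hH₀]
      simp only [Matrix.mul_assoc]
    rw [h2, Fin.prod_univ_succ, bor_zero]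
    have h3 : ∀ j : Fin n,
        0 ≤ (((mC (bor q A'))ᴴ * H₀ * mC (bor q A')) j.succ j.succ).re ∧
        (((mC (bor q A'))ᴴ * H₀ * mC (bor q A')) j.succ j.succ).re ≤
          (16 / 5) * (((mC A')ᴴ * schur H₀ * mC A') j j).re := by
      intro j
      have h4 := bor_succ q A' hP j
      have h5 := hmin' (bor q A') hbor j.succ
      have h6 := mul_le_mul_of_nonneg_left (hq j) ha0.le
      rw [h4] at h5 ⊢
      constructor
      · linarith
      · linarith
    have h7 : ∏ j : Fin n, (((mC (bor q A'))ᴴ * H₀ * mC (bor q A')) j.succ j.succ).re ≤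
        (16 / 5) ^ n * (C * (schur H₀).det.re) := by
      calc ∏ j : Fin n, (((mC (bor q A'))ᴴ * H₀ * mC (bor q A')) j.succ j.succ).re
          ≤ ∏ j : Fin n, (16 / 5) * (((mC A')ᴴ * schur H₀ * mC A') j j).re :=
            Finset.prod_le_prod (fun j _ => (h3 j).1) (fun j _ => (h3 j).2)
        _ = (16 / 5) ^ n * ∏ j : Fin n, (((mC A')ᴴ * schur H₀ * mC A') j j).re := by
            rw [Finset.prod_mul_distrib, Finset.prod_const, Finset.card_univ, Fintype.card_fin]
        _ ≤ (16 / 5) ^ n * (C * (schur H₀).det.re) :=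
            mul_le_mul_of_nonneg_left hprod (by positivity)
    have h8 : H.det.re = (H₀ 0 0).re * (schur H₀).det.re := by
      rw [← hdet, det_schur hP, Complex.mul_re, ← ha1, zero_mul, sub_zero]
    rw [h8]
    calc (H₀ 0 0).re * ∏ j : Fin n, (((mC (bor q A'))ᴴ * H₀ * mC (bor q A')) j.succ j.succ).re
        ≤ (H₀ 0 0).re * ((16 / 5) ^ n * (C * (schur H₀).det.re)) :=
          mul_le_mul_of_nonneg_left h7 ha0.le
      _ = (16 / 5) ^ n * C * ((H₀ 0 0).re * (schur H₀).det.re) := by ring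

end Pool.Agent.MPabcfcd
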