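import Pool.Agent.Lib.MP_abcfcd_nt.S.Herm1
import Pool.Agent.Lib.MP_abcfcd_nt.Q.Top

/-!
# Integrality at the primes

`OZ p` is the maximal order of `ℚ_[p][√-7]`: the elements `α + β ω` with integral `α`, `β`, where
`ω = (1 + √-7) / 2`, i.e. `x` with `x.re - x.im` and `2 * x.im` integral.
-/

set_option autoImplicit false

open Matrix Topology

namespace Pool.Agent.MPabcfcd

private theorem Int_add {p : Nat.Primes} {a b : ℚ_[p]} (ha : ‖a‖ ≤ 1) (hb : ‖b‖ ≤ 1) :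
    ‖a + b‖ ≤ 1 :=
  (PadicInt.mem_subring_iff p).1 (add_mem ((PadicInt.mem_subring_iff p).2 ha)
    ((PadicInt.mem_subring_iff p).2 hb))

private theorem Int_sub {p : Nat.Primes} {a b : ℚ_[p]} (ha : ‖a‖ ≤ 1) (hb : ‖b‖ ≤ 1) :
    ‖a - b‖ ≤ 1 :=
  (PadicInt.mem_subring_iff p).1 (sub_mem ((PadicInt.mem_subring_iff p).2 ha)
    ((PadicInt.mem_subring_iff p).2 hb))

private theorem Int_mul {p : Nat.Primes} {a b : ℚ_[p]} (ha : ‖a‖ ≤ 1) (hb : ‖b‖ ≤ 1) :
    ‖a * b‖ ≤ 1 :=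
  (PadicInt.mem_subring_iff p).1 (mul_mem ((PadicInt.mem_subring_iff p).2 ha)
    ((PadicInt.mem_subring_iff p).2 hb))

private theorem Int_two {p : Nat.Primes} : ‖(2 : ℚ_[p])‖ ≤ 1 := by
  have h := Padic.norm_int_le_one (p := p) 2
  exact_mod_cast h

/-- The maximal order of `ℚ_[p][√-7]`. -/
noncomputable def OZ (p : Nat.Primes) : Subring (E7 ℚ_[p]) where
  carrier := {x | ‖x.re - x.im‖ ≤ 1 ∧ ‖2 * x.im‖ ≤ 1}
  mul_mem' := by
    rintro x y ⟨h1, h2⟩ ⟨h3, h4⟩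
    constructor
    · have h : (x * y).re - (x * y).im =
          (x.re - x.im) * (y.re - y.im) - 2 * ((2 * x.im) * (2 * y.im)) := by
        rw [QuadraticAlgebra.re_mul, QuadraticAlgebra.im_mul]
        ring
      rw [h]
      exact Int_sub (Int_mul h1 h3) (Int_mul Int_two (Int_mul h2 h4))
    · have h : 2 * (x * y).im = (x.re - x.im) * (2 * y.im) + (2 * x.im) * (y.re - y.im) +
          (2 * x.im) * (2 * y.im) := by
        rw [QuadraticAlgebra.im_mul]
        ring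
      rw [h]
      exact Int_add (Int_add (Int_mul h1 h4) (Int_mul h2 h3)) (Int_mul h2 h4)
  one_mem' := by
    constructor
    · rw [QuadraticAlgebra.re_one, QuadraticAlgebra.im_one, sub_zero, norm_one]
    · rw [QuadraticAlgebra.im_one, mul_zero, norm_zero]
      exact zero_le_one
  add_mem' := by
    rintro x y ⟨h1, h2⟩ ⟨h3, h4⟩
    constructor
    · have h : (x + y).re - (x + y).im = (x.re - x.im) + (y.re - y.im) := by
        rw [QuadraticAlgebra.re_add, QuadraticAlgebra.im_add]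
        ring
      rw [h]
      exact Int_add h1 h3
    · rw [QuadraticAlgebra.im_add, mul_add]
      exact Int_add h2 h4
  zero_mem' := by
    constructor
    · rw [QuadraticAlgebra.re_zero, QuadraticAlgebra.im_zero, sub_zero, norm_zero]
      exact zero_le_one
    · rw [QuadraticAlgebra.im_zero, mul_zero, norm_zero]
      exact zero_le_one
  neg_mem' := by
    rintro x ⟨h1, h2⟩
    constructor
    · have h : (-x).re - (-x).im = -(x.re - x.im) := by
        rw [QuadraticAlgebra.re_neg, QuadraticAlgebra.im_neg]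
        ring
      rw [h, norm_neg]
      exact h1
    · rw [QuadraticAlgebra.im_neg, mul_neg, norm_neg]
      exact h2

theorem mem_OZ {p : Nat.Primes} {x : E7 ℚ_[p]} :
    x ∈ OZ p ↔ ‖x.re - x.im‖ ≤ 1 ∧ ‖2 * x.im‖ ≤ 1 := Iff.rfl

theorem star_mem_OZ {p : Nat.Primes} {x : E7 ℚ_[p]} (hx : x ∈ OZ p) : star x ∈ OZ p := by
  rw [mem_OZ] at hx ⊢
  have e1 : (star x).re = x.re := by
    rw [QuadraticAlgebra.re_star, zero_mul, add_zero]
  have e2 : (star x).im = -x.im := QuadraticAlgebra.im_star x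
  rw [e1, e2]
  constructor
  · have h : x.re - -x.im = (x.re - x.im) + 2 * x.im := by ring
    rw [h]
    exact Int_add hx.1 hx.2
  · rw [mul_neg, norm_neg]
    exact hx.2

/-- The matrix over `ℚ_[p][√-7]` of a matrix over `ℚ(√-7)`. -/
noncomputable def mp (p : Nat.Primes) (A : M7 (E7 ℚ)) : M7 (E7 ℚ_[p]) :=
  mapM (Rat.castHom ℚ_[p]) A

/-- The complex matrix of a matrix over `ℚ(√-7)`. -/
noncomputable def mQC (A : M7 (E7 ℚ)) : M7 ℂ := (mapM (Rat.castHom ℝ) A).map E7.toC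

/-- The matrix over `ℚ(√-7)` of a matrix over the ring of integers. -/
noncomputable def mQ (A : M7 OE) : M7 (E7 ℚ) := A.map OE.toQ

/-- The component at `p` of an adelic unitary matrix. -/
noncomputable def gp (g : U7 AQ) (p : Nat.Primes) : M7 (E7 ℚ_[p]) := (U7.map (evp p) g).mat

/-- The component at infinity of an adelic unitary matrix as a complex matrix. -/
noncomputable def gC (g : U7 AQ) : M7 ℂ := (U7.map infAQ g).mat.map E7.toC

theorem mQC_mQ (A : M7 OE) : mQC (mQ A) = mC A := by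
  refine Matrix.ext fun i j => ?_
  exact E7.toC_toQ (A i j)

theorem mQ_mul (A B : M7 OE) : mQ (A * B) = mQ A * mQ B := by
  unfold mQ
  exact Matrix.map_mul

theorem mQ_conj (A : M7 OE) : mQ Aᴴ = (mQ A)ᴴ := by
  refine Matrix.ext fun i j => ?_
  simp [mQ, Matrix.conjTranspose_apply, OE.toQ_star]

theorem det_mQ (A : M7 OE) : (mQ A).det = OE.toQ A.det := by
  unfold mQ
  rw [RingHom.map_det]
  rfl

theorem mQC_mul (A B : M7 (E7 ℚ)) : mQC (A * B) = mQC A * mQC B := by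
  unfold mQC mapM
  rw [Matrix.map_mul, Matrix.map_mul]

theorem mQC_conj (A : M7 (E7 ℚ)) : mQC Aᴴ = (mQC A)ᴴ := by
  unfold mQC
  rw [mapM_star]
  refine Matrix.ext fun i j => ?_
  simp [Matrix.conjTranspose_apply, E7.toC_star]

private theorem Int_JC : (J7 (E7 ℝ)).map E7.toC = J7 ℂ := by
  refine Matrix.ext fun i j => ?_
  by_cases h : j = i.rev
  · simp [J7, h]
  · simp [J7, h]

theorem mQC_J : mQC (J7 (E7 ℚ)) = J7 ℂ := by
  unfold mQC
  rw [mapM_J, Int_JC]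

theorem mp_mul (p : Nat.Primes) (A B : M7 (E7 ℚ)) : mp p (A * B) = mp p A * mp p B := by
  unfold mp mapM
  exact Matrix.map_mul

theorem gC_unitary (g : U7 AQ) : (gC g)ᴴ * J7 ℂ * gC g = J7 ℂ := by
  have h := congrArg (fun M : M7 (E7 ℝ) => M.map E7.toC) (U7.map infAQ g).star_mul_mat
  have hs : (gC g)ᴴ = ((U7.map infAQ g).matᴴ).map E7.toC := by
    refine Matrix.ext fun i j => ?_
    simp [gC, Matrix.conjTranspose_apply, E7.toC_star]
  simp only [Matrix.map_mul, Int_JC] at h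
  rw [hs]
  exact h

theorem gp_unitary (g : U7 AQ) (p : Nat.Primes) :
    (gp g p)ᴴ * J7 (E7 ℚ_[p]) * gp g p = J7 (E7 ℚ_[p]) :=
  (U7.map (evp p) g).star_mul_mat

theorem toQ_mem_OZ (x : OE) (p : Nat.Primes) : E7.map (Rat.castHom ℚ_[p]) (OE.toQ x) ∈ OZ p := by
  rw [mem_OZ, E7.map_re, E7.map_im, OE.toQ_re, OE.toQ_im]
  constructor
  · have h : Rat.castHom ℚ_[p] ((x.re : ℚ) + x.im / 2) - Rat.castHom ℚ_[p] (x.im / 2 : ℚ) =
        ((x.re : ℤ) : ℚ_[p]) := by
      rw [map_add, add_sub_cancel_right, map_intCast]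
    rw [h]
    exact Padic.norm_int_le_one _
  · have h : 2 * Rat.castHom ℚ_[p] (x.im / 2 : ℚ) = ((x.im : ℤ) : ℚ_[p]) := by
      rw [Rat.coe_castHom]
      push_cast
      ring
    rw [h]
    exact Padic.norm_int_le_one _

theorem exists_toQ_eq (x : E7 ℚ) (h : ∀ p : Nat.Primes, E7.map (Rat.castHom ℚ_[p]) x ∈ OZ p) :
    ∃ y : OE, OE.toQ y = x := by
  have h1 : ∀ p : Nat.Primes, ‖((x.re - x.im : ℚ) : ℚ_[p])‖ ≤ 1 := fun p => by
    have := (mem_OZ.1 (h p)).1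
    rw [E7.map_re, E7.map_im, ← map_sub] at this
    exact this
  have h2 : ∀ p : Nat.Primes, ‖((2 * x.im : ℚ) : ℚ_[p])‖ ≤ 1 := fun p => by
    have := (mem_OZ.1 (h p)).2
    rw [E7.map_im, Rat.coe_castHom] at this
    push_cast
    exact this
  obtain ⟨n, hn⟩ := int_of_norm_le _ h1
  obtain ⟨m, hm⟩ := int_of_norm_le _ h2
  refine ⟨⟨n, m⟩, ?_⟩
  ext
  · rw [OE.toQ_re]
    change (n : ℚ) + (m : ℚ) / 2 = x.re
    rw [hn, hm]
    ring
  · rw [OE.toQ_im]
    change (m : ℚ) / 2 = x.im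
    rw [hm]
    ring

theorem two_mul_int {p : Nat.Primes} {x : E7 ℚ_[p]} (hx : x ∈ OZ p) :
    ‖(2 * x).re‖ ≤ 1 ∧ ‖(2 * x).im‖ ≤ 1 := by
  rw [mem_OZ] at hx
  rw [two_mul, QuadraticAlgebra.re_add, QuadraticAlgebra.im_add]
  have e1 : x.re + x.re = (x.re - x.im) + (x.re - x.im) + 2 * x.im := by ring
  have e2 : x.im + x.im = 2 * x.im := by ring
  rw [e1, e2]
  exact ⟨Int_add (Int_add hx.1 hx.1) hx.2, hx.2⟩

theorem seven_int {x : E7 ℚ_[p7]} (hx : x ∈ OZ p7) : ‖x.re‖ ≤ 1 ∧ ‖x.im‖ ≤ 1 := by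
  rw [mem_OZ] at hx
  have h2 : ‖(2 : ℚ_[p7])‖ = 1 := by
    have h := (Padic.norm_natCast_eq_one_iff (p := (p7 : ℕ)) (n := 2)).2 (by
      change Nat.Coprime 7 2
      norm_num)
    exact_mod_cast h
  have him : ‖x.im‖ ≤ 1 := by
    have := hx.2
    rw [norm_mul, h2, one_mul] at this
    exact this
  refine ⟨?_, him⟩
  have h : x.re = (x.re - x.im) + x.im := by ring
  rw [h]
  exact Int_add hx.1 him

/-- A common denominator of `g` and `g⁻¹`. -/
theorem exists_den (g : U7 AQ) : ∃ N : ℕ, 0 < N ∧ ∀ p i j,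
    (N : E7 ℚ_[p]) * gp g p i j ∈ OZ p ∧ (N : E7 ℚ_[p]) * (gp g p)⁻¹ i j ∈ OZ p := by
  obtain ⟨N, hN, hN2⟩ := exists_nat_mul_int_fin (ι := Fin 7 × Fin 7 × Bool) fun t =>
    finAQ (if t.2.2 then (g.mat t.1 t.2.1).re else (g.mat t.1 t.2.1).im)
  have h1 : ∀ (p : Nat.Primes) i j, (N : E7 ℚ_[p]) * gp g p i j ∈ OZ p := by
    intro p i j
    have hre : ‖(N : ℚ_[p]) * (gp g p i j).re‖ ≤ 1 := hN2 (i, j, true) p
    have him : ‖(N : ℚ_[p]) * (gp g p i j).im‖ ≤ 1 := hN2 (i, j, false) p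
    rw [mem_OZ, ← nsmul_eq_mul, QuadraticAlgebra.re_smul, QuadraticAlgebra.im_smul,
      nsmul_eq_mul, nsmul_eq_mul]
    exact ⟨Int_sub hre him, Int_mul Int_two him⟩
  refine ⟨N, hN, fun p i j => ⟨h1 p i j, ?_⟩⟩
  have hinv : (gp g p)⁻¹ = J7 (E7 ℚ_[p]) * (gp g p)ᴴ * J7 (E7 ℚ_[p]) :=
    Matrix.inv_eq_left_inv (U7.map (evp p) g).inv_mul_aux
  have hent : (gp g p)⁻¹ i j = star (gp g p j.rev i.rev) := by
    rw [hinv, Matrix.mul_apply, Finset.sum_eq_single j.rev]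
    · rw [Matrix.mul_apply, Finset.sum_eq_single i.rev]
      · simp [J7, Matrix.conjTranspose_apply]
      · intro b _ hb
        simp [J7, hb]
      · intro h
        exact absurd (Finset.mem_univ _) h
    · intro b _ hb
      have hb' : ¬ j = b.rev := fun h => hb (by rw [h, Fin.rev_rev])
      simp [J7, hb']
    · intro h
      exact absurd (Finset.mem_univ _) h
  have h2 := star_mem_OZ (h1 p j.rev i.rev)
  rw [star_mul, star_natCast, mul_comm] at h2
  rw [hent]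
  exact h2

/-- Approximation of vectors by rational vectors. -/
theorem exists_approx (x : Fin 7 → E7 AQ) (N : ℕ) (hN : 0 < N) : ∃ y : Fin 7 → E7 ℚ, ∀ p i,
    ∃ z ∈ OZ p, E7.map (evp p) (x i) - E7.map (Rat.castHom ℚ_[p]) (y i) = N * z := by
  choose a ha using fun i => strong_approx (finAQ (x i).re) N hN
  choose b hb using fun i => strong_approx (finAQ (x i).im) N hN
  refine ⟨fun i => ⟨a i, b i⟩, fun p i => ?_⟩
  have hN0 : (N : ℚ_[p]) ≠ 0 := by exact_mod_cast hN.ne'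
  have hN1 : 0 < ‖(N : ℚ_[p])‖ := norm_pos_iff.2 hN0
  have h1 : ‖(evp p (x i).re - (a i : ℚ_[p])) / N‖ ≤ 1 := by
    rw [norm_div, div_le_one hN1]
    exact ha i p
  have h2 : ‖(evp p (x i).im - (b i : ℚ_[p])) / N‖ ≤ 1 := by
    rw [norm_div, div_le_one hN1]
    exact hb i p
  refine ⟨⟨(evp p (x i).re - (a i : ℚ_[p])) / N, (evp p (x i).im - (b i : ℚ_[p])) / N⟩,
    ⟨Int_sub h1 h2, Int_mul Int_two h2⟩, ?_⟩
  rw [← nsmul_eq_mul]
  ext
  · rw [QuadraticAlgebra.re_sub, E7.map_re, E7.map_re, QuadraticAlgebra.re_smul, nsmul_eq_mul]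
    change evp p (x i).re - (a i : ℚ_[p]) = N * ((evp p (x i).re - (a i : ℚ_[p])) / N)
    field_simp
  · rw [QuadraticAlgebra.im_sub, E7.map_im, E7.map_im, QuadraticAlgebra.im_smul, nsmul_eq_mul]
    change evp p (x i).im - (b i : ℚ_[p]) = N * ((evp p (x i).im - (b i : ℚ_[p])) / N)
    field_simp

end Pool.Agent.MPabcfcd
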