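import Pool.Agent.Lib.MP_abcfcd_nt.Lgrp

/-!
# The ring of integers of `ℚ(√-7)`

`OE = ℤ[ω]`, `ω ^ 2 = ω - 2`, `ω = (1 + √-7) / 2`, with its embeddings into `ℂ` and `ℚ(√-7)`.
-/

set_option autoImplicit false

open Matrix Topology

namespace Pool.Agent.MPabcfcd

/-- The ring of integers of `ℚ(√-7)`. -/
abbrev OE : Type := QuadraticAlgebra ℤ (-2) 1

/-- The embedding of the ring of integers into the complex numbers: `ω ↦ (1 + √7 i) / 2`. -/
noncomputable def OE.toC : OE →+* ℂ where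
  toFun x := (x.re : ℂ) + (x.im : ℂ) * ((1 + (Real.sqrt 7 : ℂ) * Complex.I) / 2)
  map_one' := by simp [QuadraticAlgebra.re_one, QuadraticAlgebra.im_one]
  map_zero' := by simp
  map_add' x y := by
    simp only [QuadraticAlgebra.re_add, QuadraticAlgebra.im_add]
    push_cast
    ring
  map_mul' x y := by
    have h7 : (Real.sqrt 7 : ℂ) ^ 2 = 7 := by
      rw [← Complex.ofReal_pow, Real.sq_sqrt (by norm_num)]
      norm_num
    simp only [QuadraticAlgebra.re_mul, QuadraticAlgebra.im_mul]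
    push_cast
    linear_combination (-(x.im : ℂ) * y.im * Complex.I ^ 2 / 4) * h7 -
      (7 * (x.im : ℂ) * y.im / 4) * Complex.I_sq

/-- The embedding of the ring of integers into `ℚ(√-7)`: `ω ↦ (1 + √-7) / 2`. -/
noncomputable def OE.toQ : OE →+* E7 ℚ where
  toFun x := ⟨x.re + x.im / 2, x.im / 2⟩
  map_one' := by ext <;> simp [QuadraticAlgebra.re_one, QuadraticAlgebra.im_one]
  map_zero' := by ext <;> simp
  map_add' x y := by
    ext
    · simp only [QuadraticAlgebra.re_add, QuadraticAlgebra.im_add]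
      push_cast
      ring
    · simp only [QuadraticAlgebra.im_add]
      push_cast
      ring
  map_mul' x y := by
    ext
    · simp only [QuadraticAlgebra.re_mul, QuadraticAlgebra.im_mul]
      push_cast
      ring
    · simp only [QuadraticAlgebra.im_mul]
      push_cast
      ring

/-- The isomorphism of `ℝ[√-7]` with the complex numbers. -/
noncomputable def E7.toC : E7 ℝ →+* ℂ where
  toFun z := (z.re : ℂ) + (z.im : ℂ) * ((Real.sqrt 7 : ℂ) * Complex.I)
  map_one' := by simp [QuadraticAlgebra.re_one, QuadraticAlgebra.im_one]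
  map_zero' := by simp
  map_add' x y := by
    simp only [QuadraticAlgebra.re_add, QuadraticAlgebra.im_add]
    push_cast
    ring
  map_mul' x y := by
    have h7 : (Real.sqrt 7 : ℂ) ^ 2 = 7 := by
      rw [← Complex.ofReal_pow, Real.sq_sqrt (by norm_num)]
      norm_num
    simp only [QuadraticAlgebra.re_mul, QuadraticAlgebra.im_mul]
    push_cast
    linear_combination (-(x.im : ℂ) * y.im * Complex.I ^ 2) * h7 -
      (7 * (x.im : ℂ) * y.im) * Complex.I_sq

theorem OE.toC_apply (x : OE) :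
    OE.toC x = (x.re : ℂ) + (x.im : ℂ) * ((1 + (Real.sqrt 7 : ℂ) * Complex.I) / 2) := rfl

theorem OE.toQ_re (x : OE) : (OE.toQ x).re = x.re + x.im / 2 := rfl

theorem OE.toQ_im (x : OE) : (OE.toQ x).im = x.im / 2 := rfl

theorem E7.toC_apply (z : E7 ℝ) :
    E7.toC z = (z.re : ℂ) + (z.im : ℂ) * ((Real.sqrt 7 : ℂ) * Complex.I) := rfl

theorem E7.toC_toQ (x : OE) : E7.toC (E7.map (Rat.castHom ℝ) (OE.toQ x)) = OE.toC x := by
  rw [E7.toC_apply, OE.toC_apply, E7.map_re, E7.map_im, OE.toQ_re, OE.toQ_im]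
  simp only [Rat.coe_castHom]
  push_cast
  ring

theorem OE.toC_star (x : OE) : OE.toC (star x) = star (OE.toC x) := by
  rw [OE.toC_apply, OE.toC_apply, QuadraticAlgebra.re_star, QuadraticAlgebra.im_star]
  simp only [Complex.star_def, map_add, map_mul, map_div₀, map_one, Complex.conj_ofReal,
    Complex.conj_I, map_intCast, map_ofNat]
  push_cast
  ring

theorem OE.toQ_star (x : OE) : OE.toQ (star x) = star (OE.toQ x) := by
  ext
  · rw [OE.toQ_re, QuadraticAlgebra.re_star, QuadraticAlgebra.im_star, QuadraticAlgebra.re_star,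
      OE.toQ_re]
    push_cast
    ring
  · rw [OE.toQ_im, QuadraticAlgebra.im_star, QuadraticAlgebra.im_star, OE.toQ_im]
    push_cast
    ring

theorem E7.toC_star (z : E7 ℝ) : E7.toC (star z) = star (E7.toC z) := by
  rw [E7.toC_apply, E7.toC_apply, QuadraticAlgebra.re_star, QuadraticAlgebra.im_star]
  simp only [Complex.star_def, map_add, map_mul, Complex.conj_ofReal, Complex.conj_I]
  push_cast
  ring

private theorem OE_h7 : Real.sqrt 7 ^ 2 = 7 := Real.sq_sqrt (by norm_num)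

private theorem OE_p7 : 0 < Real.sqrt 7 := Real.sqrt_pos.2 (by norm_num)

private theorem OE_re (x : OE) : (OE.toC x).re = (x.re : ℝ) + x.im / 2 := by
  rw [OE.toC_apply]
  simp
  ring

private theorem OE_im (x : OE) : (OE.toC x).im = (x.im : ℝ) * Real.sqrt 7 / 2 := by
  rw [OE.toC_apply]
  simp
  ring

private theorem E7_re (z : E7 ℝ) : (E7.toC z).re = z.re := by
  rw [E7.toC_apply]
  simp

private theorem E7_im (z : E7 ℝ) : (E7.toC z).im = z.im * Real.sqrt 7 := by
  rw [E7.toC_apply]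
  simp

theorem OE.normSq_toC (x : OE) :
    ‖OE.toC x‖ ^ 2 = (x.re : ℝ) ^ 2 + x.re * x.im + 2 * (x.im : ℝ) ^ 2 := by
  rw [Complex.sq_norm, Complex.normSq_apply, OE_re, OE_im]
  linear_combination ((x.im : ℝ) ^ 2 / 4) * OE_h7

theorem E7.normSq_toC (z : E7 ℝ) : ‖E7.toC z‖ ^ 2 = z.re ^ 2 + 7 * z.im ^ 2 := by
  rw [Complex.sq_norm, Complex.normSq_apply, E7_re, E7_im]
  linear_combination (z.im ^ 2) * OE_h7

theorem E7.toC_injective : Function.Injective E7.toC := by
  intro x y h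
  have h1 := congrArg Complex.re h
  have h2 := congrArg Complex.im h
  rw [E7_re, E7_re] at h1
  rw [E7_im, E7_im] at h2
  exact QuadraticAlgebra.ext h1 (mul_right_cancel₀ OE_p7.ne' h2)

theorem E7.toC_surjective : Function.Surjective E7.toC := by
  intro w
  refine ⟨⟨w.re, w.im / Real.sqrt 7⟩, Complex.ext ?_ ?_⟩
  · rw [E7_re]
  · rw [E7_im]
    exact div_mul_cancel₀ _ OE_p7.ne'

theorem E7.continuous_toC : Continuous E7.toC := by
  exact (Complex.continuous_ofReal.comp E7.continuous_re).add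
    ((Complex.continuous_ofReal.comp E7.continuous_im).mul continuous_const)

theorem OE.toC_injective : Function.Injective OE.toC := by
  intro x y h
  have h1 := congrArg Complex.re h
  have h2 := congrArg Complex.im h
  rw [OE_re, OE_re] at h1
  rw [OE_im, OE_im] at h2
  have h3 : (x.im : ℝ) = y.im := by
    have h4 : (x.im : ℝ) * Real.sqrt 7 = y.im * Real.sqrt 7 := by linarith
    exact mul_right_cancel₀ OE_p7.ne' h4
  have h5 : (x.re : ℝ) = y.re := by
    rw [h3] at h1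
    linarith
  exact QuadraticAlgebra.ext (by exact_mod_cast h5) (by exact_mod_cast h3)

theorem OE.toQ_injective : Function.Injective OE.toQ := by
  intro x y h
  have h1 := congrArg QuadraticAlgebra.re h
  have h2 := congrArg QuadraticAlgebra.im h
  rw [OE.toQ_re, OE.toQ_re] at h1
  rw [OE.toQ_im, OE.toQ_im] at h2
  have h3 : (x.im : ℚ) = y.im := by linarith
  have h5 : (x.re : ℚ) = y.re := by
    rw [h3] at h1
    linarith
  exact QuadraticAlgebra.ext (by exact_mod_cast h5) (by exact_mod_cast h3)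

private theorem OE_int (x : OE) : ‖OE.toC x‖ ^ 2 =
    ((x.re ^ 2 + x.re * x.im + 2 * x.im ^ 2 : ℤ) : ℝ) := by
  rw [OE.normSq_toC]
  push_cast
  ring

theorem OE.one_le_norm {x : OE} (hx : x ≠ 0) : 1 ≤ ‖OE.toC x‖ := by
  have h0 : 0 < ‖OE.toC x‖ := by
    rw [norm_pos_iff]
    intro h
    exact hx (OE.toC_injective (by rw [h, map_zero]))
  have h1 : 0 < ‖OE.toC x‖ ^ 2 := by positivity
  rw [OE_int] at h1
  have h2 : (1 : ℤ) ≤ x.re ^ 2 + x.re * x.im + 2 * x.im ^ 2 := by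
    have h3 : (0 : ℤ) < x.re ^ 2 + x.re * x.im + 2 * x.im ^ 2 := by exact_mod_cast h1
    omega
  have h3 : (1 : ℝ) ≤ ‖OE.toC x‖ ^ 2 := by
    rw [OE_int]
    exact_mod_cast h2
  nlinarith

theorem OE.norm_of_isUnit {x : OE} (hx : IsUnit x) : ‖OE.toC x‖ = 1 := by
  obtain ⟨y, hy⟩ := hx.exists_right_inv
  have h1 : ‖OE.toC x‖ * ‖OE.toC y‖ = 1 := by
    rw [← norm_mul, ← map_mul, hy, map_one, norm_one]
  have h10 : (1 : OE) ≠ 0 := by
    intro h
    have h2 := congrArg OE.toC h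
    rw [map_one, map_zero] at h2
    exact one_ne_zero h2
  have hx0 : x ≠ 0 := by
    rintro rfl
    rw [zero_mul] at hy
    exact h10 hy.symm
  have hy0 : y ≠ 0 := by
    rintro rfl
    rw [mul_zero] at hy
    exact h10 hy.symm
  have h2 := OE.one_le_norm hx0
  have h3 := OE.one_le_norm hy0
  nlinarith

theorem OE.finite_norm_le (r : ℝ) : {x : OE | ‖OE.toC x‖ ≤ r}.Finite := by
  obtain ⟨N, hN⟩ := exists_nat_ge r
  have hfin : ((Set.Icc (-(2 * N : ℤ)) (2 * N)) ×ˢ (Set.Icc (-(N : ℤ)) N)).Finite :=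
    (Set.finite_Icc _ _).prod (Set.finite_Icc _ _)
  refine (hfin.image (fun p : ℤ × ℤ => (⟨p.1, p.2⟩ : OE))).subset ?_
  intro x hx
  have hx' : ‖OE.toC x‖ ≤ N := le_trans hx hN
  have h1 : ‖OE.toC x‖ ^ 2 ≤ (N : ℝ) ^ 2 := pow_le_pow_left₀ (norm_nonneg _) hx' 2
  rw [OE_int] at h1
  have h2 : x.re ^ 2 + x.re * x.im + 2 * x.im ^ 2 ≤ (N : ℤ) ^ 2 := by exact_mod_cast h1
  have hN0 : (0 : ℤ) ≤ N := Int.natCast_nonneg N
  have h3 : x.im ^ 2 ≤ (N : ℤ) ^ 2 := by nlinarith [sq_nonneg (2 * x.re + x.im)]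
  have h4 : (2 * x.re + x.im) ^ 2 ≤ (2 * N : ℤ) ^ 2 := by nlinarith [sq_nonneg x.im]
  have h5 := abs_le_of_sq_le_sq' h3 hN0
  have h6 := abs_le_of_sq_le_sq' h4 (by positivity)
  refine ⟨(x.re, x.im), ⟨⟨?_, ?_⟩, ⟨?_, ?_⟩⟩, rfl⟩
  · change -(2 * N : ℤ) ≤ x.re
    omega
  · change x.re ≤ 2 * N
    omega
  · exact h5.1
  · exact h5.2

/-- Rounding to an element of the ring of integers: first round the coordinate of `√7 i / 2`,
then the real part; the error is at most `1 / 4 + 7 / 16`. -/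
theorem OE.exists_near (z : ℂ) : ∃ q : OE, ‖z - OE.toC q‖ ^ 2 ≤ 11 / 16 := by
  set b : ℤ := round (2 * z.im / Real.sqrt 7) with hb
  set a : ℤ := round (z.re - b / 2) with ha
  have h1 : |2 * z.im / Real.sqrt 7 - b| ≤ 1 / 2 := abs_sub_round _
  have h2 : |z.re - b / 2 - a| ≤ 1 / 2 := abs_sub_round _
  refine ⟨⟨a, b⟩, ?_⟩
  rw [Complex.sq_norm, Complex.normSq_apply, Complex.sub_re, Complex.sub_im, OE_re, OE_im]
  change (z.re - ((a : ℝ) + b / 2)) * (z.re - ((a : ℝ) + b / 2)) +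
    (z.im - (b : ℝ) * Real.sqrt 7 / 2) * (z.im - (b : ℝ) * Real.sqrt 7 / 2) ≤ 11 / 16
  have h3 : (z.re - b / 2 - a) ^ 2 ≤ (1 / 2) ^ 2 := by
    rw [← sq_abs]
    exact pow_le_pow_left₀ (abs_nonneg _) h2 2
  have h4 : (2 * z.im / Real.sqrt 7 - b) ^ 2 ≤ (1 / 2) ^ 2 := by
    rw [← sq_abs]
    exact pow_le_pow_left₀ (abs_nonneg _) h1 2
  have h5 : z.im - (b : ℝ) * Real.sqrt 7 / 2 =
      Real.sqrt 7 / 2 * (2 * z.im / Real.sqrt 7 - b) := by
    have h6 := OE_p7.ne'
    field_simp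
  rw [h5]
  have h6 : Real.sqrt 7 / 2 * (2 * z.im / Real.sqrt 7 - b) *
      (Real.sqrt 7 / 2 * (2 * z.im / Real.sqrt 7 - b)) =
      7 / 4 * (2 * z.im / Real.sqrt 7 - b) ^ 2 := by
    linear_combination ((2 * z.im / Real.sqrt 7 - b) ^ 2 / 4) * OE_h7
  rw [h6]
  nlinarith

instance : IsDomain OE := by
  exact OE.toC_injective.isDomain OE.toC

/-- The ring of integers is Euclidean for the norm, by `OE.exists_near`. -/
instance : IsPrincipalIdealRing OE := by
  classical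
  refine ⟨fun I => ?_⟩
  by_cases hI : I = ⊥
  · rw [hI]
    exact bot_isPrincipal
  obtain ⟨x0, hx0, hx0'⟩ := Submodule.exists_mem_ne_zero_of_ne_bot hI
  have hex : ∃ n : ℕ, ∃ x ∈ I, x ≠ 0 ∧ ‖OE.toC x‖ ^ 2 = n := by
    refine ⟨(x0.re ^ 2 + x0.re * x0.im + 2 * x0.im ^ 2).toNat, x0, hx0, hx0', ?_⟩
    rw [OE_int]
    have h1 : 0 ≤ x0.re ^ 2 + x0.re * x0.im + 2 * x0.im ^ 2 := by
      nlinarith [sq_nonneg (2 * x0.re + x0.im), sq_nonneg x0.im]
    have h2 : ((x0.re ^ 2 + x0.re * x0.im + 2 * x0.im ^ 2).toNat : ℤ) =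
        x0.re ^ 2 + x0.re * x0.im + 2 * x0.im ^ 2 := Int.toNat_of_nonneg h1
    rw [← h2]
    norm_cast
  obtain ⟨x, hx, hxne, hxn⟩ := Nat.find_spec hex
  refine ⟨x, le_antisymm (fun y hy => ?_) ((Submodule.span_singleton_le_iff_mem x I).2 hx)⟩
  obtain ⟨q, hq⟩ := OE.exists_near (OE.toC y / OE.toC x)
  have hxC : OE.toC x ≠ 0 := fun h => hxne (OE.toC_injective (by rw [h, map_zero]))
  have hr : y - q * x ∈ I := I.sub_mem hy (I.mul_mem_left q hx)
  have hn : ‖OE.toC (y - q * x)‖ ^ 2 ≤ 11 / 16 * ‖OE.toC x‖ ^ 2 := by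
    have h1 : OE.toC (y - q * x) = (OE.toC y / OE.toC x - OE.toC q) * OE.toC x := by
      rw [map_sub, map_mul, sub_mul, div_mul_cancel₀ _ hxC]
    rw [h1, norm_mul, mul_pow]
    exact mul_le_mul_of_nonneg_right hq (by positivity)
  have hx1 := OE.one_le_norm hxne
  by_cases h0 : y - q * x = 0
  · rw [sub_eq_zero] at h0
    rw [h0]
    exact Submodule.smul_mem _ q (Submodule.mem_span_singleton_self x)
  · exfalso
    have h1 : 0 ≤ (y - q * x).re ^ 2 + (y - q * x).re * (y - q * x).im +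
        2 * (y - q * x).im ^ 2 := by
      nlinarith [sq_nonneg (2 * (y - q * x).re + (y - q * x).im), sq_nonneg (y - q * x).im]
    have h2 : (((y - q * x).re ^ 2 + (y - q * x).re * (y - q * x).im +
        2 * (y - q * x).im ^ 2).toNat : ℤ) = (y - q * x).re ^ 2 +
        (y - q * x).re * (y - q * x).im + 2 * (y - q * x).im ^ 2 := Int.toNat_of_nonneg h1
    have h3 : ‖OE.toC (y - q * x)‖ ^ 2 = ((((y - q * x).re ^ 2 +
        (y - q * x).re * (y - q * x).im + 2 * (y - q * x).im ^ 2).toNat : ℕ) : ℝ) := by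
      rw [OE_int, ← h2]
      norm_cast
    have h4 := Nat.find_min' hex ⟨y - q * x, hr, h0, h3⟩
    have h5 : (Nat.find hex : ℝ) ≤ ‖OE.toC (y - q * x)‖ ^ 2 := by
      rw [h3]
      exact_mod_cast h4
    rw [← hxn] at h5
    nlinarith

end Pool.Agent.MPabcfcd
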