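import Pool.Agent.Lib.MP_abcfcd_nt.S.Adj

/-!
# The reduction alternative

A lattice of rank seven over the ring of integers, self-dual for the Hermitian form with the matrix
`J7`, has either a bounded basis or a basis `b_0, ..., b_6` and a number `i ∈ {1, 2, 3}` such that
the first `i` vectors are orthogonal to the first `7 - i` vectors and the products of the lengths
are small.
-/

set_option autoImplicit false

open Matrix Topology
open scoped ComplexOrder

namespace Pool.Agent.MPabcfcd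

private theorem cn_perm (Y : M7 ℂ) (A : M7 OE) (σ : Equiv.Perm (Fin 7)) (j : Fin 7) :
    cn (Y * mC (A.submatrix id σ)) j = cn (Y * mC A) (σ j) := by
  have h : Y * mC (A.submatrix id σ) = (Y * mC A).submatrix id σ := by
    refine Matrix.ext fun i k => ?_
    simp [Matrix.mul_apply, mC]
  rw [h]
  rfl

/-- From `herm_red` for `H = Y* Y` (the product of the squared lengths is at most `C`), and a
permutation of the columns which makes the lengths monotone. -/
theorem red_exists : ∃ C : ℝ, 1 ≤ C ∧ ∀ Y : M7 ℂ, ‖Y.det‖ = 1 → ∃ A : M7 OE, IsUnit A.det ∧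
    ∏ j, cn (Y * mC A) j ≤ C ∧ Monotone (cn (Y * mC A)) := by
  obtain ⟨C, hC, h⟩ := herm_red 7
  refine ⟨max 1 (Real.sqrt C), le_max_left _ _, fun Y hY => ?_⟩
  have hdet : Y.det ≠ 0 := by
    intro h0
    rw [h0, norm_zero] at hY
    exact zero_ne_one hY
  have hU : IsUnit Y := (Matrix.isUnit_iff_isUnit_det Y).2 (isUnit_iff_ne_zero.2 hdet)
  have hpos : (Yᴴ * Y).PosDef := by
    refine Matrix.PosDef.conjTranspose_mul_self Y ?_
    exact Matrix.mulVec_injective_iff_isUnit.2 hU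
  have hd : (Yᴴ * Y).det.re = 1 := by
    rw [Matrix.det_mul, Matrix.det_conjTranspose, Complex.star_def, mul_comm,
      Complex.mul_conj, Complex.normSq_eq_norm_sq, hY]
    simp
  obtain ⟨A, hA, hprod⟩ := h _ hpos
  rw [hd, mul_one] at hprod
  have hcn : ∀ j, (((mC A)ᴴ * (Yᴴ * Y) * mC A) j j).re = cn (Y * mC A) j ^ 2 := by
    intro j
    rw [cn_sq, Matrix.conjTranspose_mul]
    simp only [Matrix.mul_assoc]
  have hle : ∏ j, cn (Y * mC A) j ≤ Real.sqrt C := by
    refine Real.le_sqrt_of_sq_le ?_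
    rw [← Finset.prod_pow]
    simpa only [hcn] using hprod
  set σ := Tuple.sort (cn (Y * mC A)) with hσ
  refine ⟨A.submatrix id σ, ?_, ?_, ?_⟩
  · rw [Matrix.det_permute']
    exact IsUnit.mul (by
      rcases Int.units_eq_one_or (Equiv.Perm.sign σ) with h1 | h1 <;> rw [h1] <;> simp) hA
  · have : ∏ j, cn (Y * mC (A.submatrix id σ)) j = ∏ j, cn (Y * mC A) j := by
      simp only [cn_perm]
      exact Equiv.prod_comp σ (fun j => cn (Y * mC A) j)
    rw [this]
    exact hle.trans (le_max_right _ _)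
  · have hm := Tuple.monotone_sort (cn (Y * mC A))
    intro a b hab
    rw [cn_perm, cn_perm]
    exact hm hab

private theorem norm_det_J7 : ‖(J7 ℂ).det‖ = 1 := by
  have h := congrArg Matrix.det (J7_sq (R := ℂ))
  rw [Matrix.det_mul, Matrix.det_one] at h
  have h2 := congrArg norm h
  rw [norm_mul, norm_one] at h2
  nlinarith [norm_nonneg (J7 ℂ).det]

/-- The determinant of a matrix with an integral unimodular Gram matrix. -/
theorem norm_det_eq_one {Y : M7 ℂ} {H : M7 OE} (hH : IsUnit H.det)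
    (h : Yᴴ * J7 ℂ * Y = mC H) : ‖Y.det‖ = 1 := by
  have h1 := congrArg Matrix.det h
  rw [Matrix.det_mul, Matrix.det_mul, det_mC, Matrix.det_conjTranspose] at h1
  have h2 := congrArg norm h1
  rw [norm_mul, norm_mul, norm_star, norm_det_J7, OE.norm_of_isUnit hH] at h2
  nlinarith [norm_nonneg Y.det]

/-- Transference. Otherwise the entries `K j k` of the inverse Gram matrix, which are in the ring
of integers, have absolute value less than `1` for `j ≥ i` and `k ≥ 6 - i`, so they vanish, and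
`det_eq_zero_of_block` with `a = i`, `b = i + 1` gives a contradiction. -/
theorem transference {C : ℝ} {M : M7 ℂ} {H : M7 OE} (hH : IsUnit H.det)
    (h : Mᴴ * J7 ℂ * M = mC H) (hC : ∏ j, cn M j ≤ C) (hm : Monotone (cn M)) (i : Fin 7) :
    cn M i * cn M i.rev ≤ 7 * (5040 * C) ^ 2 := by
  have hdet := norm_det_eq_one hH h
  by_contra hcon
  push Not at hcon
  have hinv : (Mᴴ * J7 ℂ * M)⁻¹ = mC H⁻¹ := by
    rw [h]
    refine Matrix.inv_eq_right_inv ?_
    rw [← mC_mul, Matrix.mul_nonsing_inv H hH]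
    unfold mC
    exact Matrix.map_one _ (map_zero _) (map_one _)
  have hp0 : 0 ≤ ∏ k, cn M k := Finset.prod_nonneg fun k _ => cn_nonneg M k
  have hzero : ∀ j k : Fin 7, i.val ≤ j.val → 7 - (i.val + 1) ≤ k.val → H⁻¹ j k = 0 := by
    intro j k hj hk
    by_contra hne
    have h1 := OE.one_le_norm hne
    have h2 := inv_form_le hdet j k
    rw [hinv] at h2
    have h3 : (mC H⁻¹) j k = OE.toC (H⁻¹ j k) := rfl
    rw [h3] at h2
    have h4 : cn M i ≤ cn M j := hm (Fin.le_def.2 hj)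
    have h5 : cn M i.rev ≤ cn M k := hm (Fin.le_def.2 (by
      rw [Fin.val_rev]
      exact hk))
    have h6 : cn M i * cn M i.rev ≤ cn M j * cn M k :=
      mul_le_mul h4 h5 (cn_nonneg _ _) (cn_nonneg _ _)
    have h7 : 7 * (5040 * ∏ k, cn M k) ^ 2 ≤ 7 * (5040 * C) ^ 2 := by
      gcongr
    have h8 : cn M j * cn M k ≤ ‖OE.toC (H⁻¹ j k)‖ * (cn M j * cn M k) := by
      have := mul_nonneg (cn_nonneg M j) (cn_nonneg M k)
      nlinarith
    linarith
  have h0 := det_eq_zero_of_block H⁻¹ i.val (i.val + 1) (Nat.lt_succ_self _)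
    (by have := i.isLt; omega) hzero
  have h1 : H.det * H⁻¹.det = 1 := by
    rw [← Matrix.det_mul, Matrix.mul_nonsing_inv H hH, Matrix.det_one]
  rw [h0, mul_zero] at h1
  exact zero_ne_one h1

/-- The gap. Put `β j = cn M j` (`j = 0, ..., 6`). If `β 0 < δ` then
`(β 0 β 5) (β 1 β 4) (β 2 β 3) = β 0 (β 5 β 1) (β 4 β 2) β 3` is at most a constant times `δ`, so
one of the three products is small. If `β 0 ≥ δ` then `β 6 ≤ C δ⁻⁶`. -/
theorem gap_alt {C ε : ℝ} (hε : 0 < ε) : ∃ B : ℝ, ∀ (M : M7 ℂ) (H : M7 OE), IsUnit H.det →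
    Mᴴ * J7 ℂ * M = mC H → ∏ j, cn M j ≤ C → Monotone (cn M) →
    (∀ j, cn M j ≤ B) ∨ ∃ i : ℕ, 1 ≤ i ∧ i ≤ 3 ∧ ∀ j k : Fin 7, j.val < i → k.val < 7 - i →
      cn M j * cn M k < ε := by
  set T : ℝ := 7 * (5040 * C) ^ 2 with hT
  have hT0 : 0 ≤ T := by positivity
  set δ : ℝ := ε ^ 3 / (T * T * (T + 1) + 1) with hδ
  have hD : 0 < T * T * (T + 1) + 1 := by positivity
  have hδ0 : 0 < δ := by positivity
  refine ⟨C / δ ^ 6, fun M H hH h hC hm => ?_⟩
  have hdet := norm_det_eq_one hH h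
  have htr := fun i => transference hH h hC hm i
  by_cases h1 : ∃ i : ℕ, 1 ≤ i ∧ i ≤ 3 ∧ ∀ j k : Fin 7, j.val < i → k.val < 7 - i →
      cn M j * cn M k < ε
  · exact Or.inr h1
  · left
    have key : ∀ i : ℕ, 1 ≤ i → (hi : i ≤ 3) →
        ε ≤ cn M ⟨i - 1, by omega⟩ * cn M ⟨6 - i, by omega⟩ := by
      intro i hi1 hi3
      by_contra hlt
      push Not at hlt
      refine h1 ⟨i, hi1, hi3, fun j k hj hk => lt_of_le_of_lt ?_ hlt⟩
      refine mul_le_mul (hm (Fin.le_def.2 ?_)) (hm (Fin.le_def.2 ?_)) (cn_nonneg _ _)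
        (cn_nonneg _ _)
      · show j.val ≤ i - 1
        omega
      · show k.val ≤ 6 - i
        omega
    have k1 : ε ≤ cn M 0 * cn M 5 := key 1 le_rfl (by norm_num)
    have k2 : ε ≤ cn M 1 * cn M 4 := key 2 (by norm_num) (by norm_num)
    have k3 : ε ≤ cn M 2 * cn M 3 := key 3 (by norm_num) le_rfl
    have t1 : cn M 1 * cn M 5 ≤ T := htr 1
    have t2 : cn M 2 * cn M 4 ≤ T := htr 2
    have t3 : cn M 3 * cn M 3 ≤ T := htr 3
    have b0 := cn_pos hdet 0
    have b1 := cn_pos hdet 1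
    have b2 := cn_pos hdet 2
    have b3 := cn_pos hdet 3
    have b4 := cn_pos hdet 4
    have b5 := cn_pos hdet 5
    have b6 := cn_pos hdet 6
    have t3' : cn M 3 ≤ T + 1 := by nlinarith
    have e1 : ε ^ 3 ≤ (cn M 0 * cn M 5) * (cn M 1 * cn M 4) * (cn M 2 * cn M 3) := by
      have : ε ^ 3 = ε * ε * ε := by ring
      rw [this]
      exact mul_le_mul (mul_le_mul k1 k2 hε.le (by positivity)) k3 hε.le (by positivity)
    have e2 : (cn M 0 * cn M 5) * (cn M 1 * cn M 4) * (cn M 2 * cn M 3) =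
        cn M 0 * ((cn M 1 * cn M 5) * (cn M 2 * cn M 4) * cn M 3) := by ring
    have e3 : (cn M 1 * cn M 5) * (cn M 2 * cn M 4) * cn M 3 ≤ T * T * (T + 1) :=
      mul_le_mul (mul_le_mul t1 t2 (by positivity) hT0) t3' b3.le (by positivity)
    have e4 : ε ^ 3 ≤ cn M 0 * (T * T * (T + 1) + 1) := by
      rw [e2] at e1
      refine e1.trans (mul_le_mul_of_nonneg_left (e3.trans (by linarith)) b0.le)
    have e5 : δ ≤ cn M 0 := by
      rw [hδ, div_le_iff₀ hD]
      exact e4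
    have hall : ∀ j, δ ≤ cn M j := fun j => e5.trans (hm (Fin.zero_le j))
    have e6 : δ ^ 6 * cn M 6 ≤ ∏ j, cn M j := by
      rw [Fin.prod_univ_castSucc]
      have h6 : (Fin.last 6 : Fin 7) = 6 := rfl
      rw [h6]
      refine mul_le_mul_of_nonneg_right ?_ b6.le
      have hc : δ ^ 6 = ∏ _j : Fin 6, δ := by
        rw [Finset.prod_const, Finset.card_univ, Fintype.card_fin]
      rw [hc]
      exact Finset.prod_le_prod (fun _ _ => hδ0.le) (fun j _ => hall _)
    intro j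
    have h6 : cn M j ≤ cn M 6 := hm (Fin.le_last j)
    refine h6.trans ?_
    rw [le_div_iff₀ (by positivity), mul_comm]
    exact e6.trans hC

/-- The reduction alternative. -/
theorem red_alt {ε : ℝ} (hε : 0 < ε) : ∃ B : ℝ, ∀ (Y : M7 ℂ) (H : M7 OE), IsUnit H.det →
    Yᴴ * J7 ℂ * Y = mC H → ∃ A : M7 OE, IsUnit A.det ∧
    ((∀ i j, ‖(Y * mC A) i j‖ ≤ B) ∨ ∃ i : ℕ, 1 ≤ i ∧ i ≤ 3 ∧
      ∀ j k : Fin 7, j.val < i → k.val < 7 - i →
        (Aᴴ * H * A) j k = 0 ∧ cn (Y * mC A) j * cn (Y * mC A) k < ε) := by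
  obtain ⟨C, -, hC⟩ := red_exists
  obtain ⟨B, hB⟩ := gap_alt (C := C) (ε := min ε 1) (lt_min hε one_pos)
  refine ⟨B, fun Y H hH h => ?_⟩
  obtain ⟨A, hA, hprod, hmono⟩ := hC Y (norm_det_eq_one hH h)
  have hform : (Y * mC A)ᴴ * J7 ℂ * (Y * mC A) = mC (Aᴴ * H * A) := by
    rw [Matrix.conjTranspose_mul, mC_mul, mC_mul, mC_conj, ← h]
    simp only [Matrix.mul_assoc]
  have hdetA : IsUnit (Aᴴ * H * A).det := by
    rw [Matrix.det_mul, Matrix.det_mul, Matrix.det_conjTranspose]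
    exact ((hA.star).mul hH).mul hA
  refine ⟨A, hA, ?_⟩
  rcases hB _ _ hdetA hform hprod hmono with h1 | ⟨i, hi1, hi3, h1⟩
  · exact Or.inl fun i j => (norm_le_cn _ i j).trans (h1 j)
  · refine Or.inr ⟨i, hi1, hi3, fun j k hj hk => ?_⟩
    have h2 := h1 j k hj hk
    refine ⟨?_, lt_of_lt_of_le h2 (min_le_left _ _)⟩
    by_contra hne
    have h3 := OE.one_le_norm hne
    have h4 := form_le (Y * mC A) j k
    rw [hform] at h4
    have h5 : (mC (Aᴴ * H * A)) j k = OE.toC ((Aᴴ * H * A) j k) := rfl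
    rw [h5] at h4
    have h6 := lt_of_lt_of_le h2 (min_le_right _ _)
    linarith

end Pool.Agent.MPabcfcd
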