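import Pool.Agent.Lib.MP_abcfcd_nt.S.Int

/-!
# Unipotent elements
-/

set_option autoImplicit false

open Matrix Topology

namespace Pool.Agent.MPabcfcd

section

variable {R S : Type} [CommRing R] [CommRing S]

/-- The Hermitian form. -/
def hf (x y : Fin 7 → E7 R) : E7 R := star x ⬝ᵥ (J7 (E7 R) *ᵥ y)

/-- The square root of `-7`. -/
def rt (R : Type) [CommRing R] : E7 R := ⟨0, 1⟩

/-- The unipotent matrix
`1 + 2 √-7 (u v* + v u*) J - 14 h(u, u) v v* J`. -/
def tauM (v u : Fin 7 → E7 R) : M7 (E7 R) :=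
  1 + ((2 * rt R) • (vecMulVec u (star v) + vecMulVec v (star u)) -
    (14 * hf u u) • vecMulVec v (star v)) * J7 (E7 R)

private theorem tau_rt_sq : rt R * rt R = -7 := by
  ext
  · simp only [rt, QuadraticAlgebra.re_mul, QuadraticAlgebra.re_neg, QuadraticAlgebra.re_ofNat]
    ring
  · simp only [rt, QuadraticAlgebra.im_mul, QuadraticAlgebra.im_neg, QuadraticAlgebra.im_ofNat]
    ring

private theorem tau_star_rt : star (rt R) = -rt R := by
  ext
  · simp only [rt, QuadraticAlgebra.re_star, QuadraticAlgebra.re_neg]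
    ring
  · simp only [rt, QuadraticAlgebra.im_star, QuadraticAlgebra.im_neg]

private theorem tau_vJv (a b c d : Fin 7 → E7 R) :
    vecMulVec a (star b) * (J7 (E7 R) * vecMulVec c (star d)) =
      hf b c • vecMulVec a (star d) := by
  rw [mul_vecMulVec, vecMulVec_mul_vecMulVec, vecMulVec_smul]
  rfl

private theorem tau_star_hf (x y : Fin 7 → E7 R) : star (hf x y) = hf y x := by
  unfold hf
  rw [← star_dotProduct, star_mulVec, J7_star, ← dotProduct_mulVec]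

private theorem tau_gen (v u : Fin 7 → E7 R) (c d : E7 R) (hc : star c = -c)
    (hd : d + star d = -(c * c) * hf u u) (hv : hf v v = 0) (hu : hf v u = 0) :
    (1 + (c • (vecMulVec u (star v) + vecMulVec v (star u)) -
      d • vecMulVec v (star v)) * J7 (E7 R))ᴴ * J7 (E7 R) *
      (1 + (c • (vecMulVec u (star v) + vecMulVec v (star u)) -
      d • vecMulVec v (star v)) * J7 (E7 R)) = J7 (E7 R) := by
  obtain ⟨N, hN⟩ : ∃ N : M7 (E7 R), N = c • (vecMulVec u (star v) + vecMulVec v (star u)) -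
      d • vecMulVec v (star v) := ⟨_, rfl⟩
  have hu' : hf u v = 0 := by rw [← tau_star_hf, hu, star_zero]
  rw [← hN]
  have hNs : Nᴴ = -(c • (vecMulVec v (star u) + vecMulVec u (star v))) -
      star d • vecMulVec v (star v) := by
    rw [hN, conjTranspose_sub, conjTranspose_smul, conjTranspose_smul, conjTranspose_add,
      conjTranspose_vecMulVec, conjTranspose_vecMulVec, conjTranspose_vecMulVec, star_star,
      star_star, hc, neg_smul]
  have h1 : Nᴴ + N + Nᴴ * (J7 (E7 R) * N) = 0 := by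
    have h2 : Nᴴ * (J7 (E7 R) * N) = (-(c * c) * hf u u) • vecMulVec v (star v) := by
      rw [hNs, hN]
      simp only [mul_sub, mul_add, sub_mul, add_mul, neg_mul, Matrix.mul_smul, Matrix.smul_mul,
        tau_vJv, hv, hu, hu', zero_smul, smul_zero, add_zero, sub_zero, neg_zero,
        smul_smul, smul_add]
      rw [← neg_smul]
      congr 1
      ring
    rw [h2, ← hd, hNs, hN, add_smul]
    module
  rw [conjTranspose_add, conjTranspose_one, conjTranspose_mul, J7_star]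
  calc (1 + J7 (E7 R) * Nᴴ) * J7 (E7 R) * (1 + N * J7 (E7 R))
      = J7 (E7 R) + J7 (E7 R) * ((Nᴴ + N + Nᴴ * (J7 (E7 R) * N)) * J7 (E7 R)) := by
        noncomm_ring
    _ = J7 (E7 R) := by rw [h1, Matrix.zero_mul, Matrix.mul_zero, add_zero]

/-- It is unitary if `h(v, v) = 0` and `h(v, u) = 0`. -/
theorem tauM_unitary {v u : Fin 7 → E7 R} (hv : hf v v = 0) (hu : hf v u = 0) :
    (tauM v u)ᴴ * J7 (E7 R) * tauM v u = J7 (E7 R) := by
  refine tau_gen v u _ _ ?_ ?_ hv hu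
  · rw [star_mul, tau_star_rt, star_ofNat]
    ring
  · rw [star_mul, tau_star_hf, star_ofNat]
    linear_combination (4 * hf u u) * tau_rt_sq (R := R)

/-- The unipotent element of the unitary group. -/
def tau (v u : Fin 7 → E7 R) (hv : hf v v = 0) (hu : hf v u = 0) : U7 R :=
  ⟨tauM v u, tauM_unitary hv hu⟩

private theorem tau_hf_mul (g : U7 R) (x y : Fin 7 → E7 R) :
    hf (g.mat *ᵥ x) (g.mat *ᵥ y) = hf x y := by
  unfold hf
  rw [star_mulVec, ← dotProduct_mulVec, mulVec_mulVec, mulVec_mulVec, g.star_mul_mat]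

private theorem tau_conj (g : U7 R) (a b : Fin 7 → E7 R) :
    g.mat * (vecMulVec a (star b) * (J7 (E7 R) * (g⁻¹).mat)) =
      vecMulVec (g.mat *ᵥ a) (star (g.mat *ᵥ b)) * J7 (E7 R) := by
  have h1 : J7 (E7 R) * (g⁻¹).mat = g.matᴴ * J7 (E7 R) := by
    rw [U7.mat_inv, ← Matrix.mul_assoc, ← Matrix.mul_assoc, J7_sq, Matrix.one_mul]
  rw [h1, ← Matrix.mul_assoc, ← Matrix.mul_assoc, mul_vecMulVec, vecMulVec_mul, star_mulVec]

/-- `g τ g⁻¹`: since `J g⁻¹ = g* J`. -/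
theorem conj_tauM (g : U7 R) (v u : Fin 7 → E7 R) :
    g.mat * tauM v u * (g⁻¹).mat = tauM (g.mat *ᵥ v) (g.mat *ᵥ u) := by
  have h0 : g.mat * (g⁻¹).mat = 1 := by rw [← U7.mat_mul, mul_inv_cancel, U7.mat_one]
  unfold tauM
  rw [tau_hf_mul]
  simp only [mul_add, add_mul, mul_sub, sub_mul, Matrix.mul_one, h0, Matrix.mul_smul,
    Matrix.smul_mul, Matrix.mul_assoc, smul_add, tau_conj]

private theorem tau_mul_J (M : M7 R) (i j : Fin 7) : (M * J7 R) i j = M i j.rev := by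
  rw [Matrix.mul_apply, Finset.sum_eq_single j.rev]
  · simp [J7]
  · intro b _ hb
    have h : ¬ j = b.rev := fun h => hb (by rw [h, Fin.rev_rev])
    simp [J7, h]
  · intro h
    exact absurd (Finset.mem_univ _) h

private theorem tau_J_mul (y : Fin 7 → R) (i : Fin 7) : (J7 R *ᵥ y) i = y i.rev := by
  unfold mulVec dotProduct
  rw [Finset.sum_eq_single i.rev]
  · simp [J7]
  · intro b _ hb
    simp [J7, hb]
  · intro h
    exact absurd (Finset.mem_univ _) h

private theorem tau_hf_apply (x y : Fin 7 → E7 R) :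
    hf x y = ∑ i, star (x i) * y i.rev := by
  unfold hf dotProduct
  refine Finset.sum_congr rfl fun i _ => ?_
  rw [tau_J_mul, Pi.star_apply]

private theorem tau_apply (v u : Fin 7 → E7 R) (i j : Fin 7) :
    (tauM v u - 1) i j = 2 * rt R * (u i * star (v j.rev) + v i * star (u j.rev)) -
      14 * hf u u * (v i * star (v j.rev)) := by
  unfold tauM
  rw [add_sub_cancel_left, tau_mul_J]
  rfl

theorem map_tauM (f : R →+* S) (v u : Fin 7 → E7 R) :
    mapM f (tauM v u) = tauM (fun i => E7.map f (v i)) (fun i => E7.map f (u i)) := by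
  have hrt : E7.map f (rt R) = rt S := by
    ext
    · simp [rt]
    · simp [rt]
  have h1 : ∀ M : M7 (E7 R), mapM f M = mapM f (M - 1) + 1 := by
    intro M
    refine Matrix.ext fun i j => ?_
    change E7.map f (M i j) = E7.map f ((M - 1) i j) + (1 : M7 (E7 S)) i j
    rw [Matrix.sub_apply, map_sub]
    by_cases h : i = j
    · subst h
      simp
    · simp [h]
  have h2 : mapM f (tauM v u - 1) =
      tauM (fun i => E7.map f (v i)) (fun i => E7.map f (u i)) - 1 := by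
    refine Matrix.ext fun i j => ?_
    change E7.map f ((tauM v u - 1) i j) = _
    rw [tau_apply, tau_apply, tau_hf_apply, tau_hf_apply]
    simp only [map_sub, map_mul, map_add, map_sum, hrt, E7.map_star, map_ofNat]
  rw [h1, h2, sub_add_cancel]

/-- The Gram matrix in terms of the columns. -/
theorem gram_apply (A : M7 (E7 R)) (j k : Fin 7) :
    (Aᴴ * J7 (E7 R) * A) j k = hf (A.col j) (A.col k) := by
  unfold hf
  rw [Matrix.mul_assoc, Matrix.mul_apply]
  rfl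

end

private theorem tau_rt_mul {R : Type} [CommRing R] (y : E7 R) :
    (rt R * y).re = -7 * y.im ∧ (rt R * y).im = y.re := by
  constructor
  · rw [QuadraticAlgebra.re_mul]
    simp only [rt]
    ring
  · rw [QuadraticAlgebra.im_mul]
    simp only [rt]
    ring

private theorem tau_mem_hf {p : Nat.Primes} {u : Fin 7 → E7 ℚ_[p]} (hu : ∀ i, u i ∈ OZ p) :
    hf u u ∈ OZ p := by
  rw [tau_hf_apply]
  exact Subring.sum_mem _ fun i _ => Subring.mul_mem _ (star_mem_OZ (hu i)) (hu _)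

private theorem tau_mem_a {p : Nat.Primes} {v u : Fin 7 → E7 ℚ_[p]} (hv : ∀ i, v i ∈ OZ p)
    (hu : ∀ i, u i ∈ OZ p) (i j : Fin 7) :
    u i * star (v j.rev) + v i * star (u j.rev) ∈ OZ p :=
  Subring.add_mem _ (Subring.mul_mem _ (hu i) (star_mem_OZ (hv _)))
    (Subring.mul_mem _ (hv i) (star_mem_OZ (hu _)))

private theorem tau_mem_b {p : Nat.Primes} {v u : Fin 7 → E7 ℚ_[p]} (hv : ∀ i, v i ∈ OZ p)
    (hu : ∀ i, u i ∈ OZ p) (i j : Fin 7) :
    hf u u * (v i * star (v j.rev)) ∈ OZ p :=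
  Subring.mul_mem _ (tau_mem_hf hu) (Subring.mul_mem _ (hv i) (star_mem_OZ (hv _)))

private theorem tau_add_le {p : Nat.Primes} {x y : ℚ_[p]} {c : ℝ} (hx : ‖x‖ ≤ c)
    (hy : ‖y‖ ≤ c) : ‖x + y‖ ≤ c :=
  (IsUltrametricDist.norm_add_le_max x y).trans (max_le hx hy)

private theorem tau_sub_le {p : Nat.Primes} {x y : ℚ_[p]} {c : ℝ} (hx : ‖x‖ ≤ c)
    (hy : ‖y‖ ≤ c) : ‖x - y‖ ≤ c := by
  rw [sub_eq_add_neg]
  exact tau_add_le hx (by rwa [norm_neg])

private theorem tau_int_mul {p : Nat.Primes} (n : ℤ) {x : ℚ_[p]} (hx : ‖x‖ ≤ 1) :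
    ‖(n : ℚ_[p]) * x‖ ≤ 1 := by
  rw [norm_mul]
  exact mul_le_one₀ (Padic.norm_int_le_one n) (norm_nonneg x) hx

private theorem tau_seven_mul {x : ℚ_[p7]} (hx : ‖x‖ ≤ 1) : ‖7 * x‖ ≤ 1 / 7 := by
  have h7 : ‖(7 : ℚ_[p7])‖ = 1 / 7 := by
    have h := Padic.norm_p (p := (p7 : ℕ))
    have h2 : (((p7 : ℕ) : ℕ) : ℚ_[p7]) = 7 := by
      change ((7 : ℕ) : ℚ_[p7]) = 7
      norm_num
    rw [h2] at h
    rw [h]
    change ((7 : ℕ) : ℝ)⁻¹ = 1 / 7
    norm_num
  rw [norm_mul, h7]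
  calc 1 / 7 * ‖x‖ ≤ 1 / 7 * 1 := mul_le_mul_of_nonneg_left hx (by norm_num)
    _ = 1 / 7 := mul_one _

/-- The elements `τ` are integral at all primes if `v` and `u` are: `2 x` and `14 x` are
integral coordinatewise for `x ∈ OZ p`. -/
theorem tauM_int {p : Nat.Primes} {v u : Fin 7 → E7 ℚ_[p]} (hv : ∀ i, v i ∈ OZ p)
    (hu : ∀ i, u i ∈ OZ p) (i j : Fin 7) : ‖(tauM v u i j).re‖ ≤ 1 ∧ ‖(tauM v u i j).im‖ ≤ 1 := by
  obtain ⟨a1, a2⟩ := two_mul_int (tau_mem_a hv hu i j)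
  obtain ⟨b1, b2⟩ := two_mul_int (tau_mem_b hv hu i j)
  obtain ⟨a, ha⟩ : ∃ a, a = 2 * (u i * star (v j.rev) + v i * star (u j.rev)) := ⟨_, rfl⟩
  obtain ⟨b, hb⟩ : ∃ b, b = 2 * (hf u u * (v i * star (v j.rev))) := ⟨_, rfl⟩
  rw [← ha] at a1 a2
  rw [← hb] at b1 b2
  have h1 : tauM v u i j = (rt ℚ_[p] * a - 7 * b) + (1 : M7 (E7 ℚ_[p])) i j := by
    have h := tau_apply v u i j
    rw [Matrix.sub_apply] at h
    rw [ha, hb, eq_add_of_sub_eq h]
    ring
  have h7 : (7 * b).re = 7 * b.re ∧ (7 * b).im = 7 * b.im := by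
    constructor
    · rw [QuadraticAlgebra.re_mul, QuadraticAlgebra.re_ofNat, QuadraticAlgebra.im_ofNat]
      ring
    · rw [QuadraticAlgebra.im_mul, QuadraticAlgebra.re_ofNat, QuadraticAlgebra.im_ofNat]
      ring
  have hone : ‖((1 : M7 (E7 ℚ_[p])) i j).re‖ ≤ 1 ∧ ‖((1 : M7 (E7 ℚ_[p])) i j).im‖ ≤ 1 := by
    by_cases h : i = j
    · subst h
      rw [Matrix.one_apply_eq, QuadraticAlgebra.re_one, QuadraticAlgebra.im_one]
      simp
    · simp [h]
  have e1 : ‖-7 * a.im‖ ≤ 1 := by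
    have := tau_int_mul (-7) a2
    push_cast at this
    exact this
  have e2 : ‖7 * b.re‖ ≤ 1 := by
    have := tau_int_mul 7 b1
    push_cast at this
    exact this
  have e3 : ‖7 * b.im‖ ≤ 1 := by
    have := tau_int_mul 7 b2
    push_cast at this
    exact this
  rw [h1]
  constructor
  · rw [QuadraticAlgebra.re_add, QuadraticAlgebra.re_sub, (tau_rt_mul a).1, h7.1]
    exact tau_add_le (tau_sub_le e1 e2) hone.1
  · rw [QuadraticAlgebra.im_add, QuadraticAlgebra.im_sub, (tau_rt_mul a).2, h7.2]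
    exact tau_add_le (tau_sub_le a1 e3) hone.2

/-- Real parts at seven. -/
theorem tauM_seven_re {v u : Fin 7 → E7 ℚ_[p7]} (hv : ∀ i, v i ∈ OZ p7) (hu : ∀ i, u i ∈ OZ p7)
    (i j : Fin 7) : ‖((tauM v u - 1) i j).re‖ ≤ 1 / 7 := by
  have ha := (seven_int (tau_mem_a hv hu i j)).2
  have hb := (seven_int (tau_mem_b hv hu i j)).1
  obtain ⟨a, hea⟩ : ∃ a, a = u i * star (v j.rev) + v i * star (u j.rev) := ⟨_, rfl⟩
  obtain ⟨b, heb⟩ : ∃ b, b = hf u u * (v i * star (v j.rev)) := ⟨_, rfl⟩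
  rw [← hea] at ha
  rw [← heb] at hb
  have h1 : (tauM v u - 1) i j = rt ℚ_[p7] * (2 * a) - 14 * b := by
    rw [tau_apply, ← hea, heb]
    ring
  have h2 : ((tauM v u - 1) i j).re = 7 * ((-2 : ℤ) * a.im) - 7 * ((2 : ℤ) * b.re) := by
    rw [h1, QuadraticAlgebra.re_sub, (tau_rt_mul _).1, QuadraticAlgebra.im_mul,
      QuadraticAlgebra.re_mul, QuadraticAlgebra.re_ofNat, QuadraticAlgebra.im_ofNat,
      QuadraticAlgebra.re_ofNat, QuadraticAlgebra.im_ofNat]
    push_cast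
    ring
  rw [h2]
  exact tau_sub_le (tau_seven_mul (tau_int_mul _ ha)) (tau_seven_mul (tau_int_mul _ hb))

/-- Imaginary parts at seven: `im τ i j = 2 (re (u i) re (v j') + re (v i) re (u j'))` modulo
seven, where `j' = 6 - j`. -/
theorem tauM_seven_im {v u : Fin 7 → E7 ℚ_[p7]} (hv : ∀ i, v i ∈ OZ p7) (hu : ∀ i, u i ∈ OZ p7)
    (i j : Fin 7) : ‖(tauM v u i j).im -
      2 * ((u i).re * (v j.rev).re + (v i).re * (u j.rev).re)‖ ≤ 1 / 7 := by
  have hb := (seven_int (tau_mem_b hv hu i j)).2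
  obtain ⟨b, heb⟩ : ∃ b, b = hf u u * (v i * star (v j.rev)) := ⟨_, rfl⟩
  rw [← heb] at hb
  have h1 : tauM v u i j = (rt ℚ_[p7] * (2 * (u i * star (v j.rev) + v i * star (u j.rev))) -
      14 * b) + (1 : M7 (E7 ℚ_[p7])) i j := by
    have h := tau_apply v u i j
    rw [Matrix.sub_apply] at h
    rw [heb, eq_add_of_sub_eq h]
    ring
  have hone : ((1 : M7 (E7 ℚ_[p7])) i j).im = 0 := by
    by_cases h : i = j
    · subst h
      rw [Matrix.one_apply_eq, QuadraticAlgebra.im_one]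
    · simp [h]
  have h2 : (tauM v u i j).im - 2 * ((u i).re * (v j.rev).re + (v i).re * (u j.rev).re) =
      7 * ((2 : ℤ) * ((u i).im * (v j.rev).im + (v i).im * (u j.rev).im)) -
        7 * ((2 : ℤ) * b.im) := by
    rw [h1, QuadraticAlgebra.im_add, hone, QuadraticAlgebra.im_sub, (tau_rt_mul _).2,
      QuadraticAlgebra.re_mul, QuadraticAlgebra.im_mul, QuadraticAlgebra.re_ofNat,
      QuadraticAlgebra.im_ofNat, QuadraticAlgebra.re_ofNat, QuadraticAlgebra.im_ofNat,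
      QuadraticAlgebra.re_add, QuadraticAlgebra.re_mul, QuadraticAlgebra.re_mul,
      QuadraticAlgebra.re_star, QuadraticAlgebra.im_star, QuadraticAlgebra.re_star,
      QuadraticAlgebra.im_star]
    push_cast
    ring
  have hmul : ∀ x y : ℚ_[p7], ‖x‖ ≤ 1 → ‖y‖ ≤ 1 → ‖x * y‖ ≤ 1 := by
    intro x y hx hy
    rw [norm_mul]
    exact mul_le_one₀ hx (norm_nonneg y) hy
  rw [h2]
  refine tau_sub_le (tau_seven_mul (tau_int_mul _ (tau_add_le ?_ ?_)))
    (tau_seven_mul (tau_int_mul _ hb))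
  · exact hmul _ _ (seven_int (hu i)).2 (seven_int (hv _)).2
  · exact hmul _ _ (seven_int (hv i)).2 (seven_int (hu _)).2

/-- The size at infinity. -/
theorem tauM_inf (v u : Fin 7 → E7 ℝ) (i j : Fin 7) :
    ‖E7.toC ((tauM v u - 1) i j)‖ ≤
      200 * ((Real.sqrt (∑ k, ‖E7.toC (v k)‖ ^ 2) * Real.sqrt (∑ k, ‖E7.toC (u k)‖ ^ 2)) +
        (Real.sqrt (∑ k, ‖E7.toC (v k)‖ ^ 2) * Real.sqrt (∑ k, ‖E7.toC (u k)‖ ^ 2)) ^ 2) := by
  obtain ⟨a, ha⟩ : ∃ a, a = Real.sqrt (∑ k, ‖E7.toC (v k)‖ ^ 2) := ⟨_, rfl⟩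
  obtain ⟨b, hb⟩ : ∃ b, b = Real.sqrt (∑ k, ‖E7.toC (u k)‖ ^ 2) := ⟨_, rfl⟩
  have hle : ∀ (w : Fin 7 → E7 ℝ) (k : Fin 7),
      ‖E7.toC (w k)‖ ≤ Real.sqrt (∑ k, ‖E7.toC (w k)‖ ^ 2) := by
    intro w k
    refine Real.le_sqrt_of_sq_le ?_
    exact Finset.single_le_sum (f := fun k => ‖E7.toC (w k)‖ ^ 2)
      (fun i _ => sq_nonneg _) (Finset.mem_univ k)
  have hv := hle v
  have hu := hle u
  rw [← ha] at hv
  rw [← hb] at hu
  rw [← ha, ← hb]
  have ha0 : 0 ≤ a := ha ▸ Real.sqrt_nonneg _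
  have hb0 : 0 ≤ b := hb ▸ Real.sqrt_nonneg _
  have hs : ∀ z : E7 ℝ, ‖E7.toC (star z)‖ = ‖E7.toC z‖ := by
    intro z
    rw [E7.toC_star, norm_star]
  have hh : ‖E7.toC (hf u u)‖ ≤ 7 * (b * b) := by
    rw [tau_hf_apply, map_sum]
    refine (norm_sum_le _ _).trans ?_
    have h1 : ∀ k ∈ (Finset.univ : Finset (Fin 7)),
        ‖E7.toC (star (u k) * u k.rev)‖ ≤ b * b := by
      intro k _
      rw [map_mul, norm_mul, hs]
      exact mul_le_mul (hu _) (hu _) (norm_nonneg _) hb0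
    have h2 := Finset.sum_le_card_nsmul _ _ _ h1
    rw [Finset.card_univ, Fintype.card_fin, nsmul_eq_mul] at h2
    norm_num at h2 ⊢
    exact h2
  have hrt : ‖E7.toC (2 * rt ℝ)‖ ≤ 6 := by
    have h1 : ‖E7.toC (2 * rt ℝ)‖ ^ 2 = 28 := by
      rw [E7.normSq_toC, QuadraticAlgebra.re_mul, QuadraticAlgebra.im_mul,
        QuadraticAlgebra.re_ofNat, QuadraticAlgebra.im_ofNat]
      simp only [rt]
      norm_num
    nlinarith [norm_nonneg (E7.toC (2 * rt ℝ))]
  have e1 : ‖E7.toC (u i * star (v j.rev) + v i * star (u j.rev))‖ ≤ 2 * (a * b) := by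
    rw [map_add, map_mul, map_mul]
    refine (norm_add_le _ _).trans ?_
    rw [norm_mul, norm_mul, hs, hs]
    have h1 := mul_le_mul (hu i) (hv j.rev) (norm_nonneg _) hb0
    have h2 := mul_le_mul (hv i) (hu j.rev) (norm_nonneg _) ha0
    linarith [mul_comm a b]
  have e2 : ‖E7.toC (v i * star (v j.rev))‖ ≤ a * a := by
    rw [map_mul, norm_mul, hs]
    exact mul_le_mul (hv i) (hv _) (norm_nonneg _) ha0
  have e3 : ‖E7.toC (14 * hf u u)‖ ≤ 98 * (b * b) := by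
    rw [map_mul, norm_mul, map_ofNat]
    have : ‖(14 : ℂ)‖ = 14 := by norm_num
    rw [this]
    linarith
  rw [tau_apply, map_sub, map_mul E7.toC (2 * rt ℝ), map_mul E7.toC (14 * hf u u)]
  refine (norm_sub_le _ _).trans ?_
  rw [norm_mul, norm_mul]
  have e4 := mul_le_mul hrt e1 (norm_nonneg _) (by norm_num : (0 : ℝ) ≤ 6)
  have e5 := mul_le_mul e3 e2 (norm_nonneg _)
    (mul_nonneg (by norm_num) (mul_nonneg hb0 hb0))
  have e6 : 0 ≤ a * b := mul_nonneg ha0 hb0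
  nlinarith [sq_nonneg (a * b)]

end Pool.Agent.MPabcfcd
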